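import Pool.Agent.Helper935.OW.Poly

namespace Pool.Agent.Helper935.OW

/-- one-coordinate step: splitting off the main part -/
lemma coord_bound {L : ℕ} {r b0 Cη : ℝ} (hb0 : 0 ≤ b0)
    (β : Bool → ℕ → ℂ) (U : ℕ) (hU : U ≤ L + 1)
    (hη : ∑ b, ∑ s ∈ Finset.range (L + 1), ‖β b s - (if s < U then chi r b * b0 else 0)‖ ≤ Cη)
    (g : Bool → ℕ → ℂ) (A : ℕ → ℂ)
    (hA : ∀ s, ∑ b, chi r b * g b s = A s - A (s + 1)) {G : ℝ}
    (hg : ∀ b s, ‖g b s‖ ≤ G) (hAG : ∀ s, ‖A s‖ ≤ G) :
    ‖∑ b, ∑ s ∈ Finset.range (L + 1), β b s * g b s‖ ≤ (2 * b0 + Cη) * G := by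
  have hG0 : 0 ≤ G := (norm_nonneg _).trans (hAG 0)
  have h1 : ∑ b, ∑ s ∈ Finset.range (L + 1), β b s * g b s =
      (∑ b, ∑ s ∈ Finset.range (L + 1), (β b s - (if s < U then chi r b * b0 else 0)) * g b s) +
      b0 * (A 0 - A U) := by
    have h2 : (b0 : ℂ) * (A 0 - A U) = ∑ b, ∑ s ∈ Finset.range (L + 1),
        (if s < U then chi r b * b0 else 0) * g b s := by
      have h3 : A 0 - A U = ∑ s ∈ Finset.range U, ∑ b, chi r b * g b s := by
        simp only [hA]
        rw [Finset.sum_range_sub' A U]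
      rw [h3, Finset.mul_sum, Finset.sum_comm (s := Finset.univ)]
      symm
      rw [← Finset.sum_subset (Finset.range_subset_range.mpr hU)]
      · apply Finset.sum_congr rfl
        intro s hs
        rw [Finset.mem_range] at hs
        rw [Finset.mul_sum]
        apply Finset.sum_congr rfl; intro b _
        rw [if_pos hs]; ring
      · intro s _ hs
        rw [Finset.mem_range] at hs
        simp [hs]
    rw [h2, ← Finset.sum_add_distrib]
    apply Finset.sum_congr rfl; intro b _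
    rw [← Finset.sum_add_distrib]
    apply Finset.sum_congr rfl; intro s _
    ring
  rw [h1]
  refine (norm_add_le _ _).trans ?_
  have h4 : ‖∑ b, ∑ s ∈ Finset.range (L + 1), (β b s - (if s < U then chi r b * b0 else 0)) * g b s‖
      ≤ Cη * G := by
    calc ‖∑ b, ∑ s ∈ Finset.range (L + 1), (β b s - (if s < U then chi r b * b0 else 0)) * g b s‖
        ≤ ∑ b, ∑ s ∈ Finset.range (L + 1), ‖β b s - (if s < U then chi r b * b0 else 0)‖ * G := by
          refine (norm_sum_le _ _).trans (Finset.sum_le_sum fun b _ => ?_)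
          refine (norm_sum_le _ _).trans (Finset.sum_le_sum fun s _ => ?_)
          rw [norm_mul]
          exact mul_le_mul_of_nonneg_left (hg b s) (norm_nonneg _)
      _ = (∑ b, ∑ s ∈ Finset.range (L + 1), ‖β b s - (if s < U then chi r b * b0 else 0)‖) * G := by
          rw [Finset.sum_mul]; apply Finset.sum_congr rfl; intro b _; rw [Finset.sum_mul]
      _ ≤ Cη * G := mul_le_mul_of_nonneg_right hη hG0
  have h5 : ‖(b0 : ℂ) * (A 0 - A U)‖ ≤ 2 * b0 * G := by
    rw [norm_mul, Complex.norm_real, Real.norm_of_nonneg hb0]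
    have := (norm_sub_le (A 0) (A U)).trans (add_le_add (hAG 0) (hAG U))
    calc b0 * ‖A 0 - A U‖ ≤ b0 * (G + G) := mul_le_mul_of_nonneg_left this hb0
      _ = 2 * b0 * G := by ring
  linarith

/-- the pairing of a tensor with a functional -/
noncomputable def pr {d : ℕ} (r : ℝ) (v : (Fin d → Bool) → ℂ) (l : Fin d → Option Bool) : ℂ :=
  ∑ ε, v ε * Lam r l ε

lemma pr_cons_some {d : ℕ} (r : ℝ) (v : (Fin (d + 1) → Bool) → ℂ) (b : Bool)
    (l : Fin d → Option Bool) :
    pr r v (Fin.cons (some b) l) = pr r (fun ε => v (Fin.cons b ε)) l := by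
  unfold pr
  rw [sum_cons]
  simp only [Lam_cons, lam]
  rw [Finset.sum_eq_single b]
  · simp
  · intro b' _ hne
    apply Finset.sum_eq_zero; intro ε _
    rw [if_neg hne]; ring
  · intro h; exact absurd (Finset.mem_univ _) h

lemma pr_cons_none {d : ℕ} (r : ℝ) (v : (Fin (d + 1) → Bool) → ℂ) (l : Fin d → Option Bool) :
    pr r v (Fin.cons none l) = pr r (fun ε => ∑ b, chi r b * v (Fin.cons b ε)) l := by
  unfold pr
  rw [sum_cons]
  simp only [Lam_cons, lam, Finset.sum_mul]
  rw [Finset.sum_comm]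
  apply Finset.sum_congr rfl; intro ε _
  apply Finset.sum_congr rfl; intro b _
  ring

/-- the multi-dimensional block sum -/
noncomputable def SS {d : ℕ} (L : ℕ) (β : Fin d → Bool → ℕ → ℂ) (v : (Fin d → Bool) → ℂ)
    (a : ℕ → ℂ) : ℂ :=
  ∑ ξ : Fin d → Bool × Fin (L + 1), v (fun j => (ξ j).1) * a (∑ j, ((ξ j).2 : ℕ)) *
    ∏ j, β j (ξ j).1 ((ξ j).2 : ℕ)

lemma SS_cons {d : ℕ} (L : ℕ) (β : Fin (d + 1) → Bool → ℕ → ℂ) (v : (Fin (d + 1) → Bool) → ℂ)
    (a : ℕ → ℂ) :
    SS L β v a = ∑ b, ∑ s ∈ Finset.range (L + 1), β 0 b s *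
      SS L (fun j => β j.succ) (fun ε => v (Fin.cons b ε)) (fun i => a (s + i)) := by
  unfold SS
  rw [sum_cons, Fintype.sum_prod_type]
  apply Finset.sum_congr rfl; intro b _
  rw [Finset.sum_range]
  apply Finset.sum_congr rfl; intro s _
  rw [Finset.mul_sum]
  apply Finset.sum_congr rfl; intro ξ _
  rw [Fin.prod_univ_succ, Fin.sum_univ_succ]
  simp only [Fin.cons_zero, Fin.cons_succ]
  have h1 : (fun j => (Fin.cons (b, s) ξ : Fin (d + 1) → Bool × Fin (L + 1)) j |>.1) =
      Fin.cons b (fun j => (ξ j).1) := by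
    funext j
    refine Fin.cases ?_ (fun j => ?_) j <;> simp
  rw [h1]; ring

lemma SS_linear {d : ℕ} (L : ℕ) (β : Fin d → Bool → ℕ → ℂ) (v : Bool → (Fin d → Bool) → ℂ)
    (c : Bool → ℂ) (a : ℕ → ℂ) :
    ∑ b, c b * SS L β (v b) a = SS L β (fun ε => ∑ b, c b * v b ε) a := by
  unfold SS
  simp only [Finset.mul_sum]
  rw [Finset.sum_comm]
  apply Finset.sum_congr rfl; intro ξ _
  rw [Finset.sum_mul, Finset.sum_mul]
  apply Finset.sum_congr rfl; intro b _
  ring

lemma SS_sub {d : ℕ} (L : ℕ) (β : Fin d → Bool → ℕ → ℂ) (v : (Fin d → Bool) → ℂ) (a a' : ℕ → ℂ) :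
    SS L β v a - SS L β v a' = SS L β v (fun i => a i - a' i) := by
  unfold SS
  rw [← Finset.sum_sub_distrib]
  apply Finset.sum_congr rfl; intro ξ _
  ring

/-- The telescoping lemma. -/
theorem SS_bound {d : ℕ} {L : ℕ} {r b0 Cη : ℝ} (hb0 : 0 ≤ b0) (hC : 0 ≤ Cη)
    (β : Fin d → Bool → ℕ → ℂ) (U : Fin d → ℕ) (hU : ∀ j, U j ≤ L + 1)
    (hη : ∀ j, ∑ b, ∑ s ∈ Finset.range (L + 1),
      ‖β j b s - (if s < U j then chi r b * b0 else 0)‖ ≤ Cη)
    (v : (Fin d → Bool) → ℂ) (a : ℕ → ℕ → ℂ)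
    (ha : ∀ k l, a k l = a (k + 1) l - a (k + 1) (l + 1)) {G : ℝ}
    (hG : ∀ l i, ‖pr r v l‖ * ‖a (cnt l) i‖ ≤ G) :
    ‖SS L β v (a 0)‖ ≤ (2 * b0 + Cη) ^ d * G := by
  induction d generalizing a with
  | zero =>
    have h1 := hG (fun j => none) 0
    have hcnt : cnt (fun _ : Fin 0 => (none : Option Bool)) = 0 := by simp [cnt]
    rw [hcnt] at h1
    unfold SS
    unfold pr at h1
    simp only [Finset.univ_unique, Finset.sum_singleton, Finset.univ_eq_empty, Finset.sum_empty,
      Finset.prod_empty, mul_one, pow_zero, one_mul]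
    rw [norm_mul]
    refine le_trans (le_of_eq ?_) h1
    congr 2
    rw [Finset.univ_unique, Finset.sum_singleton]
    unfold Lam
    simp only [Finset.univ_eq_empty, Finset.prod_empty, mul_one]
    congr 1
    exact Subsingleton.elim _ _
  | succ d ih =>
    rw [SS_cons]
    have hbd := coord_bound (L := L) (r := r) hb0 (β 0) (U 0) (hU 0) (hη 0)
      (fun b s => SS L (fun j => β j.succ) (fun ε => v (Fin.cons b ε)) (fun i => a 0 (s + i)))
      (fun s => SS L (fun j => β j.succ) (fun ε => ∑ b, chi r b * v (Fin.cons b ε))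
        (fun i => a 1 (s + i))) (G := (2 * b0 + Cη) ^ d * G) ?_ ?_ ?_
    · refine hbd.trans (le_of_eq ?_)
      rw [pow_succ]; ring
    · intro s
      rw [SS_linear L (fun j => β j.succ) (fun b ε => v (Fin.cons b ε)) (chi r), SS_sub]
      congr 1
      funext i
      rw [ha 0 (s + i)]
      congr 2
      ring
    · intro b s
      apply ih (fun j => β j.succ) (fun j => U j.succ) (fun j => hU j.succ) (fun j => hη j.succ)
        (fun ε => v (Fin.cons b ε)) (fun k i => a k (s + i))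
      · intro k l
        rw [ha k (s + l)]; rfl
      · intro l i
        have := hG (Fin.cons (some b) l) (s + i)
        rw [pr_cons_some, cnt_cons] at this
        simpa using this
    · intro s
      apply ih (fun j => β j.succ) (fun j => U j.succ) (fun j => hU j.succ) (fun j => hη j.succ)
        (fun ε => ∑ b, chi r b * v (Fin.cons b ε)) (fun k i => a (k + 1) (s + i))
      · intro k l
        rw [ha (k + 1) (s + l)]; rfl
      · intro l i
        have := hG (Fin.cons none l) (s + i)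
        rw [pr_cons_none, cnt_cons] at this
        simp only [if_true] at this
        rw [add_comm 1 (cnt l)] at this
        exact this

end Pool.Agent.Helper935.OW
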