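import Pool.Agent.Helper935.OW.Kernels
import Pool.Agent.Helper935.OW.Telescope

open scoped ComplexConjugate

namespace Pool.Agent.Helper935.OW

/-- dyadic level of an integer -/
def lev (k : ℤ) : ℕ := Nat.size k.natAbs

/-- sign of an integer (`true` for nonnegative) -/
def sg (k : ℤ) : Bool := decide (0 ≤ k)

lemma lev_zero_iff (k : ℤ) : lev k = 0 ↔ k = 0 := by
  unfold lev; rw [Nat.size_eq_zero]; omega

lemma lev_succ_iff (k : ℤ) (s : ℕ) : lev k = s + 1 ↔ 2 ^ s ≤ k.natAbs ∧ k.natAbs < 2 ^ (s + 1) := by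
  unfold lev
  constructor
  · intro h
    constructor
    · have : s < Nat.size k.natAbs := by omega
      exact Nat.lt_size.mp this
    · exact Nat.size_le.mp (by omega)
  · rintro ⟨h1, h2⟩
    have h3 := Nat.lt_size.mpr h1
    have h4 := Nat.size_le.mpr h2
    omega

/-- block sum -/
noncomputable def Blk (r : ℝ) (b : Bool) (s : ℕ) (t : ℝ) : ℂ :=
  ∑ k ∈ (Finset.Icc (-((2 : ℤ) ^ s)) ((2 : ℤ) ^ s)).filter (fun k => lev k = s ∧ sg k = b),
    h r k * e k t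

/-- the dyadic sum `sum_{2^s <= k < 2^(s+1)} k^(-r) e^{ikt}` -/
noncomputable def Sd (r : ℝ) (s : ℕ) (t : ℝ) : ℂ :=
  ∑ i ∈ Finset.range (2 ^ s), ((((2 : ℝ) ^ s + i) ^ (-r) : ℝ) : ℂ) * e ((2 : ℤ) ^ s + i) t

lemma h_of_pos' (r : ℝ) {k : ℤ} (hk : 0 < k) :
    h r k = ((((|k| : ℤ) : ℝ) ^ (-r) : ℝ) : ℂ) * chi r true := by
  unfold h
  rw [if_neg hk.ne']
  congr 1
  unfold chi
  rw [Int.sign_eq_one_of_pos hk]
  simp only [if_true]
  push_cast; ring_nf

lemma h_of_neg' (r : ℝ) {k : ℤ} (hk : k < 0) :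
    h r k = ((((|k| : ℤ) : ℝ) ^ (-r) : ℝ) : ℂ) * chi r false := by
  unfold h
  rw [if_neg hk.ne]
  congr 1
  unfold chi
  rw [Int.sign_eq_neg_one_of_neg hk]
  simp only [Bool.false_eq_true, if_false]
  push_cast; ring_nf

lemma Blk_zero_true (r t : ℝ) : Blk r true 0 t = 1 := by
  unfold Blk
  rw [Finset.sum_eq_single 0]
  · rw [h_zero, e_zero, one_mul]
  · intro k hk hne
    rw [Finset.mem_filter, lev_zero_iff] at hk
    exact absurd hk.2.1 hne
  · intro hk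
    exfalso; apply hk
    rw [Finset.mem_filter, Finset.mem_Icc, lev_zero_iff]
    exact ⟨⟨by norm_num, by norm_num⟩, rfl, by simp [sg]⟩

lemma Blk_zero_false (r t : ℝ) : Blk r false 0 t = 0 := by
  unfold Blk
  apply Finset.sum_eq_zero
  intro k hk
  rw [Finset.mem_filter, lev_zero_iff] at hk
  have h1 := hk.2.2
  rw [hk.2.1] at h1
  simp [sg] at h1

lemma Blk_succ_true (r t : ℝ) (s : ℕ) : Blk r true (s + 1) t = chi r true * Sd r s t := by
  unfold Blk Sd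
  rw [Finset.mul_sum]
  symm
  apply Finset.sum_bij (fun (i : ℕ) _ => (2 : ℤ) ^ s + (i : ℤ))
  · intro i hi
    rw [Finset.mem_range] at hi
    have hp : (0 : ℤ) < 2 ^ s := by positivity
    have hi' : (i : ℤ) < 2 ^ s := by exact_mod_cast hi
    have hnat : ((2 : ℤ) ^ s + i).natAbs = 2 ^ s + i := by
      have : ((2 : ℤ) ^ s + i) = ((2 ^ s + i : ℕ) : ℤ) := by push_cast; rfl
      rw [this]; exact Int.natAbs_natCast _
    rw [Finset.mem_filter, Finset.mem_Icc, lev_succ_iff, hnat]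
    refine ⟨⟨by rw [pow_succ]; omega, by rw [pow_succ]; omega⟩, ⟨by omega, by rw [pow_succ]; omega⟩, ?_⟩
    unfold sg
    simp only [decide_eq_true_eq]; omega
  · intro i _ j _ hij
    omega
  · intro k hk
    rw [Finset.mem_filter, lev_succ_iff] at hk
    obtain ⟨_, ⟨h2, h3⟩, h4⟩ := hk
    unfold sg at h4
    simp only [decide_eq_true_eq] at h4
    refine ⟨k.natAbs - 2 ^ s, ?_, ?_⟩
    · rw [Finset.mem_range]; rw [pow_succ] at h3; omega
    · rw [Nat.cast_sub h2]; push_cast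
      rw [abs_of_nonneg h4]; ring
  · intro i hi
    have hp : (0 : ℤ) < 2 ^ s := by positivity
    rw [h_of_pos' r (by omega)]
    have : ((|(2 : ℤ) ^ s + i| : ℤ) : ℝ) = (2 : ℝ) ^ s + i := by
      rw [abs_of_nonneg (by omega)]; push_cast; rfl
    rw [this]; ring


lemma Blk_succ_false (r t : ℝ) (s : ℕ) : Blk r false (s + 1) t = chi r false * conj (Sd r s t) := by
  unfold Blk Sd
  rw [map_sum, Finset.mul_sum]
  symm
  apply Finset.sum_bij (fun (i : ℕ) _ => -((2 : ℤ) ^ s + (i : ℤ)))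
  · intro i hi
    rw [Finset.mem_range] at hi
    have hp : (0 : ℤ) < 2 ^ s := by positivity
    have hi' : (i : ℤ) < 2 ^ s := by exact_mod_cast hi
    have hnat : (-((2 : ℤ) ^ s + i)).natAbs = 2 ^ s + i := by
      have : ((2 : ℤ) ^ s + i) = ((2 ^ s + i : ℕ) : ℤ) := by push_cast; rfl
      rw [this, Int.natAbs_neg]; exact Int.natAbs_natCast _
    rw [Finset.mem_filter, Finset.mem_Icc, lev_succ_iff, hnat]
    refine ⟨⟨by rw [pow_succ]; omega, by rw [pow_succ]; omega⟩, ⟨by omega, by rw [pow_succ]; omega⟩, ?_⟩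
    unfold sg
    simp only [decide_eq_false_iff_not]; omega
  · intro i _ j _ hij
    omega
  · intro k hk
    rw [Finset.mem_filter, lev_succ_iff] at hk
    obtain ⟨_, ⟨h2, h3⟩, h4⟩ := hk
    unfold sg at h4
    simp only [decide_eq_false_iff_not] at h4
    refine ⟨k.natAbs - 2 ^ s, ?_, ?_⟩
    · rw [Finset.mem_range]; rw [pow_succ] at h3; omega
    · rw [Nat.cast_sub h2]; push_cast
      rw [abs_of_neg (by omega)]; ring
  · intro i hi
    have hp : (0 : ℤ) < 2 ^ s := by positivity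
    rw [h_of_neg' r (by omega), map_mul, conj_e, Complex.conj_ofReal]
    have : ((|-((2 : ℤ) ^ s + i)| : ℤ) : ℝ) = (2 : ℝ) ^ s + i := by
      rw [abs_neg, abs_of_nonneg (by omega)]; push_cast; rfl
    rw [this]; ring

/-- the sum at zero -/
noncomputable def S0 (r : ℝ) (s : ℕ) : ℝ := ∑ i ∈ Finset.range (2 ^ s), ((2 : ℝ) ^ s + i) ^ (-r)

lemma Sd_zero (r : ℝ) (s : ℕ) : Sd r s 0 = (S0 r s : ℂ) := by
  unfold Sd S0
  rw [Complex.ofReal_sum]
  apply Finset.sum_congr rfl; intro i _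
  rw [e_arg_zero, mul_one]

lemma S0_nonneg (r : ℝ) (s : ℕ) : 0 ≤ S0 r s := Finset.sum_nonneg (fun i _ => by positivity)

lemma norm_e_sub_one (k : ℕ) (t : ℝ) : ‖e (k : ℤ) t - 1‖ ≤ k * ‖1 - e 1 t‖ := by
  induction k with
  | zero => simp [e_zero]
  | succ k ih =>
    have h1 : e ((k + 1 : ℕ) : ℤ) t - 1 = (e (k : ℤ) t - 1) * e 1 t - (1 - e 1 t) := by
      push_cast; rw [e_add]; ring
    rw [h1]
    refine (norm_sub_le _ _).trans ?_
    rw [norm_mul, norm_e, mul_one]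
    push_cast; linarith

lemma S0_le {r : ℝ} (hr : 0 ≤ r) (s : ℕ) : S0 r s ≤ (2 : ℝ) ^ s * ((2 : ℝ) ^ s) ^ (-r) := by
  unfold S0
  calc ∑ i ∈ Finset.range (2 ^ s), ((2 : ℝ) ^ s + i) ^ (-r)
      ≤ ∑ _i ∈ Finset.range (2 ^ s), ((2 : ℝ) ^ s) ^ (-r) := by
        apply Finset.sum_le_sum; intro i _
        apply Real.rpow_le_rpow_of_nonpos (by positivity)
        · have : (0 : ℝ) ≤ i := by positivity
          linarith
        · linarith
    _ = (2 : ℝ) ^ s * ((2 : ℝ) ^ s) ^ (-r) := by simp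

lemma Sd_sub_le {r : ℝ} (hr : 0 ≤ r) (s : ℕ) (t : ℝ) :
    ‖Sd r s t - S0 r s‖ ≤ (2 : ℝ) ^ (s + 1) * ‖1 - e 1 t‖ * ((2 : ℝ) ^ s * ((2 : ℝ) ^ s) ^ (-r)) := by
  have h1 : Sd r s t - S0 r s = ∑ i ∈ Finset.range (2 ^ s), ((((2 : ℝ) ^ s + i) ^ (-r) : ℝ) : ℂ) *
      (e ((2 : ℤ) ^ s + i) t - 1) := by
    unfold Sd S0
    rw [Complex.ofReal_sum, ← Finset.sum_sub_distrib]
    apply Finset.sum_congr rfl; intro i _; ring
  rw [h1]
  refine (norm_sum_le _ _).trans ?_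
  calc ∑ i ∈ Finset.range (2 ^ s), ‖((((2 : ℝ) ^ s + i) ^ (-r) : ℝ) : ℂ) * (e ((2 : ℤ) ^ s + i) t - 1)‖
      ≤ ∑ i ∈ Finset.range (2 ^ s), ((2 : ℝ) ^ (s + 1) * ‖1 - e 1 t‖) * ((2 : ℝ) ^ s + i) ^ (-r) := by
        apply Finset.sum_le_sum; intro i hi
        rw [Finset.mem_range] at hi
        rw [norm_mul, Complex.norm_real, Real.norm_of_nonneg (by positivity), mul_comm]
        apply mul_le_mul_of_nonneg_right _ (by positivity)
        have h2 := norm_e_sub_one (2 ^ s + i) t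
        push_cast at h2
        refine h2.trans ?_
        apply mul_le_mul_of_nonneg_right _ (norm_nonneg _)
        have : (i : ℝ) ≤ 2 ^ s := by exact_mod_cast hi.le
        rw [pow_succ]; linarith
    _ = ((2 : ℝ) ^ (s + 1) * ‖1 - e 1 t‖) * S0 r s := by
        rw [← Finset.mul_sum]; rfl
    _ ≤ _ := mul_le_mul_of_nonneg_left (S0_le hr s) (by positivity)

lemma Sd_abel {r : ℝ} (hr : 0 ≤ r) (s : ℕ) (t : ℝ) :
    ‖1 - e 1 t‖ * ‖Sd r s t‖ ≤ 2 * ((2 : ℝ) ^ s) ^ (-r) := by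
  have h1 : Sd r s t = e ((2 : ℤ) ^ s) t * ∑ i ∈ Finset.range (2 ^ s),
      ((((2 : ℝ) ^ s + i) ^ (-r) : ℝ) : ℂ) * (e 1 t) ^ i := by
    unfold Sd
    rw [Finset.mul_sum]
    apply Finset.sum_congr rfl; intro i _
    rw [e_add, e_natCast]; ring
  rw [h1, norm_mul (e ((2 : ℤ) ^ s) t), norm_e, one_mul, ← norm_mul]
  have h2 := abel_bound (fun i : ℕ => ((2 : ℝ) ^ s + i) ^ (-r)) (by
    intro a b hab
    apply Real.rpow_le_rpow_of_nonpos (by positivity)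
    · have : (a : ℝ) ≤ b := by exact_mod_cast hab
      linarith
    · linarith) (fun i => by positivity) (e 1 t) (norm_e 1 t) (2 ^ s)
  simpa using h2

/-- normalised sum at zero -/
noncomputable def c0 (r : ℝ) (s : ℕ) : ℝ := ((2 : ℝ) ^ s) ^ (r - 1) * S0 r s

lemma c0_nonneg (r : ℝ) (s : ℕ) : 0 ≤ c0 r s := mul_nonneg (by positivity) (S0_nonneg r s)

lemma S0_step {r : ℝ} (hr : 0 ≤ r) (s : ℕ) :
    0 ≤ 2 * (2 : ℝ) ^ (-r) * S0 r s - S0 r (s + 1) ∧
      2 * (2 : ℝ) ^ (-r) * S0 r s - S0 r (s + 1) ≤ ((2 : ℝ) ^ (s + 1)) ^ (-r) := by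
  set g : ℕ → ℝ := fun i => ((2 : ℝ) ^ (s + 1) + i) ^ (-r) with hg
  have hanti : Antitone g := by
    intro a b hab
    apply Real.rpow_le_rpow_of_nonpos (by positivity)
    · have : (a : ℝ) ≤ b := by exact_mod_cast hab
      linarith
    · linarith
  have h1 : 2 * (2 : ℝ) ^ (-r) * S0 r s = ∑ i ∈ Finset.range (2 ^ s), (g (2 * i) + g (2 * i)) := by
    unfold S0
    rw [Finset.mul_sum]
    apply Finset.sum_congr rfl; intro i _
    simp only [hg]
    have : (2 : ℝ) ^ (s + 1) + ((2 * i : ℕ) : ℝ) = 2 * ((2 : ℝ) ^ s + i) := by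
      push_cast; rw [pow_succ]; ring
    rw [this, Real.mul_rpow (by norm_num) (by positivity)]; ring
  have h2 : S0 r (s + 1) = ∑ i ∈ Finset.range (2 ^ s), (g (2 * i) + g (2 * i + 1)) := by
    unfold S0
    have : 2 ^ (s + 1) = 2 ^ s * 2 := pow_succ 2 s
    have h3 : ∀ n : ℕ, ∑ i ∈ Finset.range (n * 2), g i = ∑ i ∈ Finset.range n, (g (2 * i) + g (2 * i + 1)) := by
      intro n
      induction n with
      | zero => simp
      | succ n ih =>
        rw [Finset.sum_range_succ, ← ih, show (n + 1) * 2 = n * 2 + 1 + 1 by ring,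
          Finset.sum_range_succ, Finset.sum_range_succ]
        rw [mul_comm 2 n]; ring
    have h4 := h3 (2 ^ s)
    rw [← this] at h4
    exact h4
  have h5 : 2 * (2 : ℝ) ^ (-r) * S0 r s - S0 r (s + 1) =
      ∑ i ∈ Finset.range (2 ^ s), (g (2 * i) - g (2 * i + 1)) := by
    rw [h1, h2, ← Finset.sum_sub_distrib]
    apply Finset.sum_congr rfl; intro i _; ring
  rw [h5]
  constructor
  · apply Finset.sum_nonneg; intro i _
    have := hanti (Nat.le_succ (2 * i))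
    simp only [Nat.succ_eq_add_one] at this; linarith
  · have h6 : ∀ n : ℕ, ∑ i ∈ Finset.range n, (g (2 * i) - g (2 * i + 1)) ≤ g 0 - g (2 * n) := by
      intro n
      induction n with
      | zero => simp
      | succ n ih =>
        rw [Finset.sum_range_succ]
        have := hanti (show 2 * n + 1 ≤ 2 * (n + 1) by omega)
        linarith
    have h7 : 0 ≤ g (2 * 2 ^ s) := by simp only [hg]; positivity
    have h8 : g 0 = ((2 : ℝ) ^ (s + 1)) ^ (-r) := by simp [hg]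
    have := h6 (2 ^ s)
    linarith

lemma c0_step {r : ℝ} (hr : 0 ≤ r) (s : ℕ) :
    c0 r (s + 1) ≤ c0 r s ∧ c0 r s ≤ c0 r (s + 1) + (1 / 2) ^ (s + 1) := by
  obtain ⟨h1, h2⟩ := S0_step hr s
  have hk : c0 r s - c0 r (s + 1) = ((2 : ℝ) ^ (s + 1)) ^ (r - 1) *
      (2 * (2 : ℝ) ^ (-r) * S0 r s - S0 r (s + 1)) := by
    unfold c0
    have h3 : ((2 : ℝ) ^ (s + 1)) ^ (r - 1) * (2 * (2 : ℝ) ^ (-r)) = ((2 : ℝ) ^ s) ^ (r - 1) := by
      rw [pow_succ, Real.mul_rpow (by positivity) (by norm_num), mul_assoc]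
      have : (2 : ℝ) ^ (r - 1) * (2 * (2 : ℝ) ^ (-r)) = 1 := by
        nth_rewrite 2 [← Real.rpow_one 2]
        rw [← Real.rpow_add (by norm_num), ← Real.rpow_add (by norm_num)]
        rw [show r - 1 + (1 + -r) = 0 by ring, Real.rpow_zero]
      rw [this, mul_one]
    rw [← h3]; ring
  have hpos : (0 : ℝ) < ((2 : ℝ) ^ (s + 1)) ^ (r - 1) := by positivity
  constructor
  · have := mul_nonneg hpos.le h1
    linarith
  · have h4 := mul_le_mul_of_nonneg_left h2 hpos.le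
    have h5 : ((2 : ℝ) ^ (s + 1)) ^ (r - 1) * ((2 : ℝ) ^ (s + 1)) ^ (-r) = (1 / 2) ^ (s + 1) := by
      rw [← Real.rpow_add (by positivity)]
      rw [show r - 1 + -r = -1 by ring, Real.rpow_neg_one, one_div, inv_pow]
    linarith

/-- limit of the normalised sums -/
noncomputable def cinf (r : ℝ) : ℝ := ⨅ s, c0 r s

lemma c0_antitone {r : ℝ} (hr : 0 ≤ r) : Antitone (c0 r) :=
  antitone_nat_of_succ_le (fun s => (c0_step hr s).1)

lemma c0_bddBelow (r : ℝ) : BddBelow (Set.range (c0 r)) :=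
  ⟨0, by rintro _ ⟨s, rfl⟩; exact c0_nonneg r s⟩

lemma cinf_nonneg (r : ℝ) : 0 ≤ cinf r := le_ciInf (fun s => c0_nonneg r s)

lemma cinf_le (r : ℝ) (s : ℕ) : cinf r ≤ c0 r s := ciInf_le (c0_bddBelow r) s

lemma c0_le_cinf {r : ℝ} (hr : 0 ≤ r) (s : ℕ) : c0 r s ≤ cinf r + (1 / 2) ^ s := by
  have h1 : ∀ j, c0 r s ≤ c0 r (s + j) + ((1 / 2) ^ s - (1 / 2) ^ (s + j)) := by
    intro j
    induction j with
    | zero => simp
    | succ j ih =>
      have := (c0_step hr (s + j)).2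
      have h2 : ((1 : ℝ) / 2) ^ (s + j) = 2 * (1 / 2) ^ (s + j + 1) := by rw [pow_succ]; ring
      rw [← add_assoc]
      linarith
  have h2 : c0 r s - (1 / 2) ^ s ≤ cinf r := by
    apply le_ciInf
    intro j
    rcases le_total s j with h | h
    · obtain ⟨i, rfl⟩ := Nat.exists_eq_add_of_le h
      have := h1 i
      have h3 : (0 : ℝ) < (1 / 2) ^ (s + i) := by positivity
      linarith
    · have := c0_antitone hr h
      have h3 : (0 : ℝ) < (1 / 2) ^ s := by positivity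
      linarith
  linarith

lemma c0_zero (r : ℝ) : c0 r 0 = 1 := by simp [c0, S0]


lemma exists_threshold {δ : ℝ} (hδ : 0 ≤ δ) (L : ℕ) :
    ∃ U, U ≤ L + 1 ∧ ∀ l, l ≤ L → (l < U ↔ (2 : ℝ) ^ l * δ ≤ 1) := by
  classical
  by_cases h : ∀ l ≤ L, (2 : ℝ) ^ l * δ ≤ 1
  · exact ⟨L + 1, le_rfl, fun l hl => ⟨fun _ => h l hl, fun _ => by omega⟩⟩
  · push Not at h
    have hex : ∃ l, 1 < (2 : ℝ) ^ l * δ := by
      obtain ⟨l, _, h2⟩ := h; exact ⟨l, h2⟩
    refine ⟨Nat.find hex, ?_, ?_⟩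
    · obtain ⟨l, h1, h2⟩ := h
      have := Nat.find_min' hex h2
      omega
    · intro l _
      constructor
      · intro h3
        have := Nat.find_min hex h3
        linarith
      · intro h3
        by_contra hcon
        rw [not_lt] at hcon
        have h4 := Nat.find_spec hex
        have h5 : (2 : ℝ) ^ (Nat.find hex) ≤ 2 ^ l := pow_le_pow_right₀ (by norm_num) hcon
        have h6 := mul_le_mul_of_nonneg_right h5 hδ
        linarith

lemma sum_threshold {δ : ℝ} (hδ : 0 ≤ δ) {L U : ℕ} (hU : U ≤ L + 1)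
    (h : ∀ l, l ≤ L → (l < U ↔ (2 : ℝ) ^ l * δ ≤ 1)) :
    ∑ l ∈ Finset.range (L + 1), (if l < U then (2 : ℝ) ^ l * δ + 2 * (1 / 2) ^ l
      else 4 / ((2 : ℝ) ^ l * δ)) ≤ 14 := by
  obtain ⟨V, hV⟩ := Nat.exists_eq_add_of_le hU
  rw [hV, Finset.sum_range_add]
  have h1 : ∑ l ∈ Finset.range U, (if l < U then (2 : ℝ) ^ l * δ + 2 * (1 / 2) ^ l
      else 4 / ((2 : ℝ) ^ l * δ)) ≤ 6 := by
    have h2 : ∑ l ∈ Finset.range U, (if l < U then (2 : ℝ) ^ l * δ + 2 * (1 / 2) ^ l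
      else 4 / ((2 : ℝ) ^ l * δ)) = (∑ l ∈ Finset.range U, (2 : ℝ) ^ l) * δ +
        2 * ∑ l ∈ Finset.range U, ((1 : ℝ) / 2) ^ l := by
      rw [Finset.sum_mul, Finset.mul_sum, ← Finset.sum_add_distrib]
      apply Finset.sum_congr rfl; intro l hl
      rw [if_pos (Finset.mem_range.mp hl)]
    rw [h2]
    have h3 : (∑ l ∈ Finset.range U, (2 : ℝ) ^ l) = 2 ^ U - 1 := by
      have := geom_sum_eq (show (2 : ℝ) ≠ 1 by norm_num) U
      rw [this]; norm_num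
    have h4 : ∑ l ∈ Finset.range U, ((1 : ℝ) / 2) ^ l ≤ 2 := by
      have := geom_sum_eq (show (1 / 2 : ℝ) ≠ 1 by norm_num) U
      rw [this]
      have h5 : (0 : ℝ) < (1 / 2) ^ U := by positivity
      have h6 : ((1 / 2 : ℝ) ^ U - 1) / (1 / 2 - 1) = 2 - 2 * (1 / 2) ^ U := by ring
      rw [h6]; linarith
    have h7 : (∑ l ∈ Finset.range U, (2 : ℝ) ^ l) * δ ≤ 2 := by
      rw [h3]
      rcases Nat.eq_zero_or_pos U with h0 | h0
      · subst h0; simp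
      · obtain ⟨U', rfl⟩ : ∃ U', U = U' + 1 := ⟨U - 1, by omega⟩
        have h8 := (h U' (by omega)).mp (by omega)
        rw [pow_succ]
        nlinarith
    linarith
  have h2 : ∑ i ∈ Finset.range V, (if U + i < U then (2 : ℝ) ^ (U + i) * δ + 2 * (1 / 2) ^ (U + i)
      else 4 / ((2 : ℝ) ^ (U + i) * δ)) ≤ 8 := by
    rcases Nat.eq_zero_or_pos V with h0 | h0
    · subst h0; simp
    · have hUL : U ≤ L := by omega
      have h3 : 1 < (2 : ℝ) ^ U * δ := by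
        by_contra hcon
        rw [not_lt] at hcon
        have := (h U hUL).mpr hcon
        omega
      have hδ' : 0 < δ := by
        rcases eq_or_lt_of_le hδ with h9 | h9
        · rw [← h9] at h3; simp at h3; linarith
        · exact h9
      have h4 : ∀ i ∈ Finset.range V, (if U + i < U then (2 : ℝ) ^ (U + i) * δ + 2 * (1 / 2) ^ (U + i)
        else 4 / ((2 : ℝ) ^ (U + i) * δ)) = (4 / ((2 : ℝ) ^ U * δ)) * (1 / 2) ^ i := by
        intro i _
        rw [if_neg (by omega), pow_add]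
        field_simp
        rw [← mul_pow]; norm_num
      rw [Finset.sum_congr rfl h4, ← Finset.mul_sum]
      have h5 : ∑ l ∈ Finset.range V, ((1 : ℝ) / 2) ^ l ≤ 2 := by
        have := geom_sum_eq (show (1 / 2 : ℝ) ≠ 1 by norm_num) V
        rw [this]
        have h5 : (0 : ℝ) < (1 / 2) ^ V := by positivity
        have h6 : ((1 / 2 : ℝ) ^ V - 1) / (1 / 2 - 1) = 2 - 2 * (1 / 2) ^ V := by ring
        rw [h6]; linarith
      have h6 : 4 / ((2 : ℝ) ^ U * δ) ≤ 4 := by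
        rw [div_le_iff₀ (by linarith)]; linarith
      have h7 : 0 ≤ ∑ l ∈ Finset.range V, ((1 : ℝ) / 2) ^ l := Finset.sum_nonneg (fun _ _ => by positivity)
      have h8 : 0 ≤ 4 / ((2 : ℝ) ^ U * δ) := by positivity
      nlinarith
  linarith

/-- normalised block function -/
noncomputable def bet (r : ℝ) (t : ℝ) (b : Bool) (s : ℕ) : ℂ :=
  ((((2 : ℝ) ^ s) ^ (r - 1) : ℝ) : ℂ) * Blk r b s t

noncomputable def b0 (r : ℝ) : ℝ := (2 : ℝ) ^ (r - 1) * cinf r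

lemma b0_nonneg (r : ℝ) : 0 ≤ b0 r := mul_nonneg (by positivity) (cinf_nonneg r)

lemma norm_main_diff {r : ℝ} (hr : 0 ≤ r) (s : ℕ) (t : ℝ) :
    ‖((((2 : ℝ) ^ s) ^ (r - 1) : ℝ) : ℂ) * Sd r s t - cinf r‖ ≤
      (2 : ℝ) ^ (s + 1) * ‖1 - e 1 t‖ + (1 / 2) ^ s := by
  have h1 : ((((2 : ℝ) ^ s) ^ (r - 1) : ℝ) : ℂ) * Sd r s t - cinf r =
      ((((2 : ℝ) ^ s) ^ (r - 1) : ℝ) : ℂ) * (Sd r s t - S0 r s) + ((c0 r s - cinf r : ℝ) : ℂ) := by
    unfold c0; push_cast; ring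
  rw [h1]
  refine (norm_add_le _ _).trans (add_le_add ?_ ?_)
  · rw [norm_mul, Complex.norm_real, Real.norm_of_nonneg (by positivity)]
    have h2 := mul_le_mul_of_nonneg_left (Sd_sub_le hr s t)
      (show (0 : ℝ) ≤ ((2 : ℝ) ^ s) ^ (r - 1) by positivity)
    refine h2.trans (le_of_eq ?_)
    have h3 : ((2 : ℝ) ^ s) ^ (r - 1) * ((2 : ℝ) ^ s * ((2 : ℝ) ^ s) ^ (-r)) = 1 := by
      nth_rewrite 2 [← Real.rpow_one ((2 : ℝ) ^ s)]
      rw [← Real.rpow_add (by positivity), ← Real.rpow_add (by positivity)]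
      rw [show r - 1 + (1 + -r) = 0 by ring, Real.rpow_zero]
    calc ((2 : ℝ) ^ s) ^ (r - 1) * ((2 : ℝ) ^ (s + 1) * ‖1 - e 1 t‖ * ((2 : ℝ) ^ s * ((2 : ℝ) ^ s) ^ (-r)))
        = (2 : ℝ) ^ (s + 1) * ‖1 - e 1 t‖ * (((2 : ℝ) ^ s) ^ (r - 1) * ((2 : ℝ) ^ s * ((2 : ℝ) ^ s) ^ (-r))) := by ring
      _ = _ := by rw [h3, mul_one]
  · rw [Complex.norm_real, Real.norm_of_nonneg (by linarith [cinf_le r s])]
    linarith [c0_le_cinf hr s]

lemma norm_main_abel {r : ℝ} (hr : 0 ≤ r) (s : ℕ) (t : ℝ) (ht : 0 < ‖1 - e 1 t‖) :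
    ‖((((2 : ℝ) ^ s) ^ (r - 1) : ℝ) : ℂ) * Sd r s t‖ ≤ 4 / ((2 : ℝ) ^ (s + 1) * ‖1 - e 1 t‖) := by
  rw [norm_mul, Complex.norm_real, Real.norm_of_nonneg (by positivity)]
  rw [le_div_iff₀ (by positivity)]
  have h1 := Sd_abel hr s t
  have h2 := mul_le_mul_of_nonneg_left h1
    (show (0 : ℝ) ≤ ((2 : ℝ) ^ s) ^ (r - 1) * (2 : ℝ) ^ (s + 1) by positivity)
  have h3 : ((2 : ℝ) ^ s) ^ (r - 1) * (2 : ℝ) ^ (s + 1) * (2 * ((2 : ℝ) ^ s) ^ (-r)) = 4 := by
    have h4 : ((2 : ℝ) ^ s) ^ (r - 1) * ((2 : ℝ) ^ s * ((2 : ℝ) ^ s) ^ (-r)) = 1 := by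
      nth_rewrite 2 [← Real.rpow_one ((2 : ℝ) ^ s)]
      rw [← Real.rpow_add (by positivity), ← Real.rpow_add (by positivity)]
      rw [show r - 1 + (1 + -r) = 0 by ring, Real.rpow_zero]
    rw [pow_succ]
    linear_combination 4 * h4
  rw [h3] at h2
  linarith

theorem block_estimate {r : ℝ} (hr : 1 < r) : ∀ (L : ℕ) (t : ℝ), ∃ U, U ≤ L + 1 ∧
    ∑ b, ∑ s ∈ Finset.range (L + 1), ‖bet r t b s - (if s < U then chi r b * (b0 r : ℂ) else 0)‖ ≤
      2 * (1 + b0 r) + 28 * (2 : ℝ) ^ (r - 1) := by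
  intro L t
  have hr0 : 0 ≤ r := by linarith
  obtain ⟨U, hU, hUth⟩ := exists_threshold (norm_nonneg (1 - e 1 t)) L
  refine ⟨U, hU, ?_⟩
  have hsum := sum_threshold (norm_nonneg (1 - e 1 t)) hU hUth
  have hb0 := b0_nonneg r
  have h2r : (0 : ℝ) < (2 : ℝ) ^ (r - 1) := by positivity
  -- generic bound for positive levels
  have hstep : ∀ s, s + 1 ≤ L → ∀ w : ℂ, ‖w - cinf r‖ ≤ (2 : ℝ) ^ (s + 1) * ‖1 - e 1 t‖ + (1 / 2) ^ s →
      (0 < ‖1 - e 1 t‖ → ‖w‖ ≤ 4 / ((2 : ℝ) ^ (s + 1) * ‖1 - e 1 t‖)) → ∀ b,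
      ‖chi r b * (((2 : ℝ) ^ (r - 1) : ℝ) : ℂ) * w - (if s + 1 < U then chi r b * (b0 r : ℂ) else 0)‖ ≤
      (2 : ℝ) ^ (r - 1) * (if s + 1 < U then (2 : ℝ) ^ (s + 1) * ‖1 - e 1 t‖ + 2 * (1 / 2) ^ (s + 1)
      else 4 / ((2 : ℝ) ^ (s + 1) * ‖1 - e 1 t‖)) := by
    intro s hs w h1 h2 b
    by_cases hlt : s + 1 < U
    · rw [if_pos hlt, if_pos hlt]
      have h3 : chi r b * (((2 : ℝ) ^ (r - 1) : ℝ) : ℂ) * w - chi r b * (b0 r : ℂ) =
          chi r b * (((2 : ℝ) ^ (r - 1) : ℝ) : ℂ) * (w - cinf r) := by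
        unfold b0; push_cast; ring
      rw [h3, norm_mul, norm_mul, norm_chi, one_mul, Complex.norm_real, Real.norm_of_nonneg h2r.le]
      apply mul_le_mul_of_nonneg_left _ h2r.le
      refine h1.trans (le_of_eq ?_)
      rw [pow_succ (1 / 2 : ℝ)]; ring
    · rw [if_neg hlt, if_neg hlt, sub_zero, norm_mul, norm_mul, norm_chi, one_mul, Complex.norm_real,
        Real.norm_of_nonneg h2r.le]
      apply mul_le_mul_of_nonneg_left _ h2r.le
      apply h2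
      have h4 : ¬ ((2 : ℝ) ^ (s + 1) * ‖1 - e 1 t‖ ≤ 1) := fun h => hlt ((hUth (s + 1) hs).mpr h)
      by_contra hcon
      have h5 : ‖1 - e 1 t‖ = 0 := le_antisymm (not_lt.mp hcon) (norm_nonneg _)
      rw [h5] at h4
      apply h4; simp
  have hpow : ∀ s : ℕ, ((((2 : ℝ) ^ (s + 1)) ^ (r - 1) : ℝ) : ℂ) =
      (((2 : ℝ) ^ (r - 1) : ℝ) : ℂ) * ((((2 : ℝ) ^ s) ^ (r - 1) : ℝ) : ℂ) := by
    intro s
    rw [← Complex.ofReal_mul, pow_succ, Real.mul_rpow (by positivity) (by norm_num), mul_comm]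
  have hpos : ∀ b : Bool, ∀ s, s + 1 ≤ L →
      ‖bet r t b (s + 1) - (if s + 1 < U then chi r b * (b0 r : ℂ) else 0)‖ ≤
      (2 : ℝ) ^ (r - 1) * (if s + 1 < U then (2 : ℝ) ^ (s + 1) * ‖1 - e 1 t‖ + 2 * (1 / 2) ^ (s + 1)
      else 4 / ((2 : ℝ) ^ (s + 1) * ‖1 - e 1 t‖)) := by
    intro b s hs
    cases b
    · have h1 : bet r t false (s + 1) = chi r false * (((2 : ℝ) ^ (r - 1) : ℝ) : ℂ) *
          (((((2 : ℝ) ^ s) ^ (r - 1) : ℝ) : ℂ) * conj (Sd r s t)) := by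
        unfold bet
        rw [Blk_succ_false, hpow]; ring
      rw [h1]
      apply hstep s hs
      · have h2 : ((((2 : ℝ) ^ s) ^ (r - 1) : ℝ) : ℂ) * conj (Sd r s t) - cinf r =
            conj (((((2 : ℝ) ^ s) ^ (r - 1) : ℝ) : ℂ) * Sd r s t - cinf r) := by
          rw [map_sub, map_mul, Complex.conj_ofReal, Complex.conj_ofReal]
        rw [h2, RCLike.norm_conj]
        exact norm_main_diff hr0 s t
      · intro ht
        have h2 : ((((2 : ℝ) ^ s) ^ (r - 1) : ℝ) : ℂ) * conj (Sd r s t) =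
            conj (((((2 : ℝ) ^ s) ^ (r - 1) : ℝ) : ℂ) * Sd r s t) := by
          rw [map_mul, Complex.conj_ofReal]
        rw [h2, RCLike.norm_conj]
        exact norm_main_abel hr0 s t ht
    · have h1 : bet r t true (s + 1) = chi r true * (((2 : ℝ) ^ (r - 1) : ℝ) : ℂ) *
          (((((2 : ℝ) ^ s) ^ (r - 1) : ℝ) : ℂ) * Sd r s t) := by
        unfold bet
        rw [Blk_succ_true, hpow]; ring
      rw [h1]
      exact hstep s hs _ (norm_main_diff hr0 s t) (fun ht => norm_main_abel hr0 s t ht) true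
  have hzero : ∀ b : Bool, ‖bet r t b 0 - (if 0 < U then chi r b * (b0 r : ℂ) else 0)‖ ≤ 1 + b0 r := by
    intro b
    refine (norm_sub_le _ _).trans (add_le_add ?_ ?_)
    · unfold bet
      cases b
      · rw [Blk_zero_false]; simp
      · rw [Blk_zero_true]; simp
    · split_ifs
      · rw [norm_mul, norm_chi, one_mul, Complex.norm_real, Real.norm_of_nonneg hb0]
      · simpa using hb0
  have hb : ∀ b : Bool, ∑ s ∈ Finset.range (L + 1),
      ‖bet r t b s - (if s < U then chi r b * (b0 r : ℂ) else 0)‖ ≤ (1 + b0 r) + 14 * (2 : ℝ) ^ (r - 1) := by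
    intro b
    rw [Finset.sum_range_succ']
    have h1 : ∑ s ∈ Finset.range L, ‖bet r t b (s + 1) - (if s + 1 < U then chi r b * (b0 r : ℂ) else 0)‖
        ≤ ∑ s ∈ Finset.range L, (2 : ℝ) ^ (r - 1) * (if s + 1 < U then
          (2 : ℝ) ^ (s + 1) * ‖1 - e 1 t‖ + 2 * (1 / 2) ^ (s + 1)
          else 4 / ((2 : ℝ) ^ (s + 1) * ‖1 - e 1 t‖)) := by
      apply Finset.sum_le_sum; intro s hs
      exact hpos b s (by rw [Finset.mem_range] at hs; omega)
    rw [← Finset.mul_sum] at h1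
    have h2 : ∑ s ∈ Finset.range L, (if s + 1 < U then
          (2 : ℝ) ^ (s + 1) * ‖1 - e 1 t‖ + 2 * (1 / 2) ^ (s + 1)
          else 4 / ((2 : ℝ) ^ (s + 1) * ‖1 - e 1 t‖)) ≤ 14 := by
      rw [Finset.sum_range_succ'] at hsum
      have h3 : (0 : ℝ) ≤ (if 0 < U then (2 : ℝ) ^ 0 * ‖1 - e 1 t‖ + 2 * (1 / 2) ^ 0
          else 4 / ((2 : ℝ) ^ 0 * ‖1 - e 1 t‖)) := by
        split_ifs <;> positivity
      linarith
    have h3 := mul_le_mul_of_nonneg_left h2 h2r.le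
    have h4 := hzero b
    linarith
  rw [Fintype.sum_bool]
  linarith [hb true, hb false]

end Pool.Agent.Helper935.OW
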