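import Pool.Agent.Helper935.OW.Defs

open scoped ComplexConjugate

namespace Pool.Agent.Helper935.OW

variable {d : ℕ}

/-- the two phases; `true` is the sign plus, `false` the sign minus -/
noncomputable def chi (r : ℝ) (b : Bool) : ℂ :=
  if b then Complex.exp ((-(r * Real.pi / 2) : ℝ) * Complex.I)
  else Complex.exp (((r * Real.pi / 2) : ℝ) * Complex.I)

lemma norm_chi (r : ℝ) (b : Bool) : ‖chi r b‖ = 1 := by
  unfold chi; split_ifs <;> exact Complex.norm_exp_ofReal_mul_I _

/-- one-coordinate functionals: `none` pairs with the phases, `some b` evaluates at `b` -/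
noncomputable def lam (r : ℝ) : Option Bool → Bool → ℂ
  | none, b => chi r b
  | some c, b => if b = c then 1 else 0

noncomputable def Lam (r : ℝ) (l : Fin d → Option Bool) (ε : Fin d → Bool) : ℂ :=
  ∏ j, lam r (l j) (ε j)

/-- number of coordinates where the phase functional is used -/
def cnt (l : Fin d → Option Bool) : ℕ := (Finset.univ.filter (fun j => l j = none)).card

/-- balanced positive tensors -/
def Bal (d : ℕ) (r : ℝ) (M : ℕ) : Prop :=
  ∃ v : (Fin d → Bool) → ℝ, (∀ ε, 0 < v ε) ∧
    ∀ l : Fin d → Option Bool, M ≤ cnt l → ∑ ε, (v ε : ℂ) * Lam r l ε = 0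

/-- the pairing with `Lam r l` as a linear map -/
noncomputable def pairing (r : ℝ) (l : Fin d → Option Bool) : ((Fin d → Bool) → ℝ) →ₗ[ℝ] ℂ where
  toFun := fun v => ∑ ε, (v ε : ℂ) * Lam r l ε
  map_add' := by
    intro v w
    rw [← Finset.sum_add_distrib]
    apply Finset.sum_congr rfl; intro ε _
    rw [Pi.add_apply]; push_cast; ring
  map_smul' := by
    intro c v
    rw [RingHom.id_apply, Complex.real_smul, Finset.mul_sum]
    apply Finset.sum_congr rfl; intro ε _
    rw [Pi.smul_apply, smul_eq_mul]; push_cast; ring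

lemma pairing_apply (r : ℝ) (l : Fin d → Option Bool) (v : (Fin d → Bool) → ℝ) :
    pairing r l v = ∑ ε, (v ε : ℂ) * Lam r l ε := rfl

open Classical in
/-- real functionals -/
noncomputable def funcs (r : ℝ) (M : ℕ) (i : (Fin d → Option Bool) × Bool) :
    ((Fin d → Bool) → ℝ) →ₗ[ℝ] ℝ :=
  if M ≤ cnt i.1 then
    (if i.2 then Complex.reLm.comp (pairing r i.1) else Complex.imLm.comp (pairing r i.1))
  else 0

lemma pairing_single (r : ℝ) (l : Fin d → Option Bool) (ε : Fin d → Bool) :
    pairing r l (Pi.single ε (1 : ℝ)) = Lam r l ε := by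
  classical
  rw [pairing_apply, Finset.sum_eq_single ε]
  · simp
  · intro ε' _ hne; rw [Pi.single_eq_of_ne hne]; simp
  · intro h; exact absurd (Finset.mem_univ _) h

/-- Farkas type alternative -/
theorem farkas {r : ℝ} {M : ℕ} (hB : ¬ Bal d r M) :
    ∃ y : (Fin d → Option Bool) → ℂ, (∀ l, cnt l < M → y l = 0) ∧
      (∀ ε, 0 ≤ (∑ l, y l * Lam r l ε).re) ∧ ∃ ε, 0 < (∑ l, y l * Lam r l ε).re := by
  classical
  set L := funcs (d := d) r M with hL
  set K : Submodule ℝ ((Fin d → Bool) → ℝ) := ⨅ i, (L i).ker with hK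
  set C : Set ((Fin d → Bool) → ℝ) := {v | ∀ ε, 0 < v ε} with hC
  have hCo : IsOpen C := by
    have : C = ⋂ ε, {v : (Fin d → Bool) → ℝ | 0 < v ε} := by
      ext v; simp only [hC, Set.mem_ofPred_eq, Set.mem_iInter]
    rw [this]
    exact isOpen_iInter_of_finite (fun ε => isOpen_lt continuous_const (continuous_apply ε))
  have hCc : Convex ℝ C := by
    intro v hv w hw a b ha hb hab ε
    show 0 < a * v ε + b * w ε
    rcases eq_or_lt_of_le ha with h0 | h0
    · have : b = 1 := by linarith
      rw [this, ← h0]; simpa using hw ε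
    · have h1 := mul_pos h0 (hv ε)
      have h2 := mul_nonneg hb (hw ε).le
      linarith
  have hdisj : Disjoint C (K : Set ((Fin d → Bool) → ℝ)) := by
    rw [Set.disjoint_left]
    intro v hv hvK
    apply hB
    refine ⟨v, hv, fun l hl => ?_⟩
    have h1 : L (l, true) v = 0 := (Submodule.mem_iInf _).mp hvK (l, true)
    have h2 : L (l, false) v = 0 := (Submodule.mem_iInf _).mp hvK (l, false)
    simp only [hL, funcs, hl, if_true] at h1 h2
    apply Complex.ext
    · exact h1
    · have h3 : (pairing r l v).im = 0 := by simpa using h2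
      exact h3
  obtain ⟨f, u, hf1, hf2⟩ := geometric_hahn_banach_open hCc hCo K.convex hdisj
  have hfK : ∀ v ∈ K, f v = 0 := by
    intro v hv
    by_contra hne
    have h1 := hf2 (((u - 1) / f v) • v) (K.smul_mem _ hv)
    rw [map_smul, smul_eq_mul, div_mul_cancel₀ _ hne] at h1
    linarith
  have hu0 : u ≤ 0 := by
    have := hf2 0 K.zero_mem
    rwa [map_zero] at this
  have hker : K ≤ (-(f : ((Fin d → Bool) → ℝ) →ₗ[ℝ] ℝ)).ker := by
    intro v hv
    rw [LinearMap.mem_ker, LinearMap.neg_apply, ContinuousLinearMap.coe_coe, hfK v hv, neg_zero]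
  have hspan := mem_span_of_iInf_ker_le_ker (L := L) hker
  rw [Submodule.mem_span_range_iff_exists_fun] at hspan
  obtain ⟨α, hα⟩ := hspan
  set y : (Fin d → Option Bool) → ℂ := fun l =>
    if M ≤ cnt l then (α (l, true) : ℂ) - (α (l, false) : ℂ) * Complex.I else 0 with hy
  have hcoef : ∀ ε, -(f (Pi.single ε 1)) = (∑ l, y l * Lam r l ε).re := by
    intro ε
    have h0 : (-(f : ((Fin d → Bool) → ℝ) →ₗ[ℝ] ℝ)) (Pi.single ε 1) = -(f (Pi.single ε 1)) := rfl
    rw [← h0, ← hα]
    simp only [LinearMap.coe_sum, Finset.sum_apply, LinearMap.smul_apply, smul_eq_mul]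
    rw [Fintype.sum_prod_type, Complex.re_sum]
    apply Finset.sum_congr rfl
    intro l _
    rw [Fintype.sum_bool]
    by_cases hl : M ≤ cnt l
    · have h1 : L (l, true) (Pi.single ε 1) = (Lam r l ε).re := by
        simp only [hL, funcs, hl, if_true]
        rw [← pairing_single r l ε]; rfl
      have h2 : L (l, false) (Pi.single ε 1) = (Lam r l ε).im := by
        simp only [hL, funcs, hl, if_true]
        rw [← pairing_single r l ε]; rfl
      rw [h1, h2]
      simp only [hy, hl, if_true]
      simp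
    · have h1 : L (l, true) (Pi.single ε 1) = 0 := by
        simp only [hL, funcs, hl, if_false]; rfl
      have h2 : L (l, false) (Pi.single ε 1) = 0 := by
        simp only [hL, funcs, hl, if_false]; rfl
      rw [h1, h2]
      simp only [hy, hl, if_false]
      simp
  have hone : (fun _ => (1 : ℝ)) ∈ C := fun ε => one_pos
  have hf1' : f (fun _ => (1 : ℝ)) < 0 := (hf1 _ hone).trans_le hu0
  have hneg : ∀ ε, f (Pi.single ε 1) ≤ 0 := by
    intro ε
    by_contra hcon
    rw [not_le] at hcon
    have hspos : 0 < f (Pi.single ε 1) / (-(f (fun _ => (1 : ℝ)))) := div_pos hcon (by linarith)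
    have hmem : (Pi.single ε 1 + (f (Pi.single ε 1) / (-(f (fun _ => (1 : ℝ))))) • (fun _ => (1 : ℝ))) ∈ C := by
      intro ε'
      show 0 < (Pi.single ε (1 : ℝ) : (Fin d → Bool) → ℝ) ε' + (f (Pi.single ε 1) / (-(f (fun _ => (1 : ℝ))))) * 1
      have : (0 : ℝ) ≤ (Pi.single ε (1 : ℝ) : (Fin d → Bool) → ℝ) ε' := by
        by_cases h : ε' = ε
        · subst h; simp
        · rw [Pi.single_eq_of_ne h]
      linarith
    have h3 := (hf1 _ hmem).trans_le hu0
    rw [map_add, map_smul, smul_eq_mul] at h3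
    have h4 : f (Pi.single ε 1) / (-(f (fun _ => (1 : ℝ)))) * f (fun _ => (1 : ℝ)) =
        - f (Pi.single ε 1) := by
      have hne : f (fun _ => (1 : ℝ)) ≠ 0 := hf1'.ne
      rw [div_neg, neg_mul, div_mul_cancel₀ _ hne]
    rw [h4] at h3
    linarith
  refine ⟨y, ?_, ?_, ?_⟩
  · intro l hl
    simp only [hy]
    rw [if_neg (by omega)]
  · intro ε
    rw [← hcoef]; linarith [hneg ε]
  · by_contra hcon
    push Not at hcon
    have h1 : ∀ ε, f (Pi.single ε 1) = 0 := by
      intro ε
      have h2 := hcon ε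
      rw [← hcoef] at h2
      linarith [hneg ε]
    have h3 : f (fun _ => (1 : ℝ)) = ∑ ε, f (Pi.single ε 1) := by
      rw [← map_sum]
      congr 1
      funext ε'
      rw [Finset.sum_apply]
      rw [Finset.sum_eq_single ε']
      · simp
      · intro ε'' _ hne; rw [Pi.single_eq_of_ne hne.symm]
      · intro h; exact absurd (Finset.mem_univ _) h
    rw [h3] at hf1'
    simp [h1] at hf1'

end Pool.Agent.Helper935.OW
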