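import Pool.Agent.Helper935.OW.Up4

open MeasureTheory
open scoped ENNReal ComplexConjugate

namespace Pool.Agent.Helper935.OW

lemma sum_range_shift (L l m : ℕ) :
    ∑ s ∈ Finset.range (L + 1), (if s + l < m then 2 ^ (s + l) else 0) ≤
      if l < m then 2 ^ m else 0 := by
  split_ifs with h
  · rw [← Finset.sum_filter]
    rw [← Finset.sum_image (f := fun i => 2 ^ i) (g := fun s => s + l)
      (fun a _ b _ h => by simpa using h)]
    refine (Nat.geomSum_lt le_rfl ?_).le
    intro k hk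
    rw [Finset.mem_image] at hk
    obtain ⟨s, hs, rfl⟩ := hk
    exact (Finset.mem_filter.mp hs).2
  · rw [Finset.sum_eq_zero]
    intro s _; rw [if_neg (by omega)]

theorem count_le {d' m : ℕ} (K : Finset (Fin (d' + 1) → ℤ)) (hK : ∀ k ∈ K, LL k < m) :
    K.card ≤ (2 * m) ^ d' * (2 * 2 ^ m) := by
  classical
  rw [Finset.card_eq_sum_card_fiberwise (f := toBlk m) (t := Finset.univ)
    (fun _ _ => Finset.mem_coe.mpr (Finset.mem_univ _))]
  have h1 : ∀ ξ, (K.filter (fun k => toBlk m k = ξ)).card ≤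
      if ∑ j, ((ξ j).2 : ℕ) < m then 2 ^ (∑ j, ((ξ j).2 : ℕ)) else 0 := by
    intro ξ
    have hmem : K.filter (fun k => toBlk m k = ξ) ⊆
        blk (fun j => (ξ j).1) (fun j => ((ξ j).2 : ℕ)) := by
      intro k hk
      rw [Finset.mem_filter] at hk
      have h2 := hK k hk.1
      rw [mem_blk, ← hk.2]
      refine ⟨?_, rfl⟩
      funext j
      have h3 : lev (k j) ≤ LL k :=
        Finset.single_le_sum (f := fun j => lev (k j)) (fun _ _ => Nat.zero_le _) (Finset.mem_univ j)
      unfold levs toBlk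
      simp only
      omega
    split_ifs with h
    · exact (Finset.card_le_card hmem).trans (card_blk_le _ _)
    · rw [Nat.le_zero, Finset.card_eq_zero, Finset.eq_empty_iff_forall_notMem]
      intro k hk
      apply h
      rw [← LL_of_mem (hmem hk)]
      exact hK k (Finset.mem_filter.mp hk).1
  refine (Finset.sum_le_sum fun ξ _ => h1 ξ).trans ?_
  rw [sum_cons, Finset.sum_comm]
  have h2 : ∀ η : Fin d' → Bool × Fin (m + 1),
      ∑ b : Bool × Fin (m + 1), (if ∑ j, (((Fin.cons b η : Fin (d' + 1) → Bool × Fin (m + 1)) j).2 : ℕ) < m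
        then 2 ^ (∑ j, (((Fin.cons b η : Fin (d' + 1) → Bool × Fin (m + 1)) j).2 : ℕ)) else 0) ≤
      if ∑ j, ((η j).2 : ℕ) < m then 2 * 2 ^ m else 0 := by
    intro η
    have h3 : ∀ b : Bool × Fin (m + 1),
        ∑ j, (((Fin.cons b η : Fin (d' + 1) → Bool × Fin (m + 1)) j).2 : ℕ) =
          (b.2 : ℕ) + ∑ j, ((η j).2 : ℕ) := by
      intro b
      rw [Fin.sum_univ_succ]
      simp only [Fin.cons_zero, Fin.cons_succ]
    simp only [h3]
    rw [Fintype.sum_prod_type]
    simp only [Fintype.sum_bool]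
    have h4 := sum_range_shift m (∑ j, ((η j).2 : ℕ)) m
    rw [Finset.sum_range] at h4
    split_ifs with h5
    · rw [if_pos h5] at h4
      omega
    · rw [if_neg h5] at h4
      omega
  refine (Finset.sum_le_sum fun η _ => h2 η).trans ?_
  rw [← Finset.sum_filter, Finset.sum_const, smul_eq_mul]
  exact Nat.mul_le_mul_right _ (card_low m m)

/-- adding far frequencies -/
lemma exists_far {d' : ℕ} {r : ℝ} (hr : 1 < r) (K : Finset (Fin (d' + 1) → ℤ)) (n : ℕ) {δ : ℝ}
    (hδ : 0 < δ) : ∃ t : Finset (Fin (d' + 1) → ℤ), Disjoint K t ∧ t.card = n ∧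
      ∀ k ∈ t, ‖H r k‖ ≤ δ := by
  classical
  set s : Set (Fin (d' + 1) → ℤ) := {k | ‖H r k‖ ≤ δ} with hs
  obtain ⟨I, hI⟩ := exists_nat_one_div_lt hδ
  have hinf : s.Infinite := by
    refine Set.infinite_of_injective_forall_mem
      (f := fun i : ℕ => (Fin.cons ((I + i + 1 : ℕ) : ℤ) 0 : Fin (d' + 1) → ℤ)) ?_ ?_
    · intro i j hij
      have := congrFun hij 0
      simp only [Fin.cons_zero] at this
      push_cast at this
      omega
    · intro i
      show ‖H r _‖ ≤ δ
      have h1 : H r (Fin.cons ((I + i + 1 : ℕ) : ℤ) 0 : Fin (d' + 1) → ℤ) =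
          h r ((I + i + 1 : ℕ) : ℤ) := by
        unfold H
        rw [Fin.prod_univ_succ]
        simp only [Fin.cons_zero, Fin.cons_succ, Pi.zero_apply, h_zero, Finset.prod_const_one,
          mul_one]
      rw [h1, norm_h_of_ne r (by omega)]
      refine le_trans ?_ hI.le
      rw [Nat.abs_cast, Int.cast_natCast, Real.rpow_neg (by positivity), one_div]
      apply inv_anti₀ (by positivity)
      have h2 : (1 : ℝ) ≤ ((I + i + 1 : ℕ) : ℝ) := by push_cast; linarith [Nat.cast_nonneg (α := ℝ) I, Nat.cast_nonneg (α := ℝ) i]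
      calc ((I : ℝ) + 1) ≤ ((I + i + 1 : ℕ) : ℝ) := by push_cast; linarith [Nat.cast_nonneg (α := ℝ) i]
        _ = ((I + i + 1 : ℕ) : ℝ) ^ (1 : ℝ) := (Real.rpow_one _).symm
        _ ≤ ((I + i + 1 : ℕ) : ℝ) ^ r := Real.rpow_le_rpow_of_exponent_le h2 hr.le
  obtain ⟨t, ht, htc⟩ := (hinf.sdiff K.finite_toSet).exists_subset_card_eq n
  refine ⟨t, ?_, htc, fun k hk => (ht hk).1⟩
  rw [Finset.disjoint_right]
  intro k hk hkK
  exact (ht hk).2 hkK

theorem orthowidth_le_of_small {d' m : ℕ} {r : ℝ} (hr : 1 < r) (K : Finset (Fin (d' + 1) → ℤ))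
    (hK : K.card ≤ m) {B : ℝ} (hB0 : 0 < B)
    (hB : ∀ x : Fin (d' + 1) → ℝ, ‖(FF (d' + 1) r x : ℂ) - ∑ k ∈ K, H r k * E k x‖ ≤ B) :
    orthowidth (d' + 1) r m ≤ ENNReal.ofReal (2 * B) := by
  classical
  obtain ⟨t, htd, htc, ht⟩ := exists_far hr K (m - K.card) (δ := B / (m + 1)) (by positivity)
  refine orthowidth_le_of_kernel hr (K ∪ t) ?_ (by positivity) ?_
  · rw [Finset.card_union_of_disjoint htd, htc]; omega
  · intro x
    rw [Finset.sum_union htd, ← sub_sub]
    refine (norm_sub_le _ _).trans ?_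
    have h1 : ‖∑ k ∈ t, H r k * E k x‖ ≤ B := by
      calc ‖∑ k ∈ t, H r k * E k x‖ ≤ ∑ _k ∈ t, B / (m + 1) := by
            refine (norm_sum_le _ _).trans (Finset.sum_le_sum fun k hk => ?_)
            rw [norm_mul, norm_E, mul_one]
            exact ht k hk
        _ = (t.card : ℝ) * (B / (m + 1)) := by rw [Finset.sum_const, nsmul_eq_mul]
        _ ≤ ((m : ℝ) + 1) * (B / (m + 1)) := by
            apply mul_le_mul_of_nonneg_right _ (by positivity)
            have : t.card ≤ m := by omega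
            have h2 : (t.card : ℝ) ≤ m := by exact_mod_cast this
            linarith
        _ = B := by field_simp
    have := hB x
    linarith

end Pool.Agent.Helper935.OW
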