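import Mathlib

open MeasureTheory
open scoped ENNReal ComplexConjugate

namespace Pool.Agent.Helper935.OW

/-- Normalised Lebesgue measure `dx / (2 pi)` on `[0, 2 pi)`. -/
noncomputable def mu1 : Measure ℝ :=
  (ENNReal.ofReal (2 * Real.pi))⁻¹ • (volume.restrict (Set.Ico 0 (2 * Real.pi)))

/-- Normalised Lebesgue measure on the torus `[0, 2 pi)^d`: the product of `d` copies of `mu1`. -/
noncomputable def muT (d : ℕ) : Measure (Fin d → ℝ) := Measure.pi fun _ => mu1

/-- The univariate kernel `F_r(t) = 1 + 2 * sum_{k >= 1} k^(-r) cos (k t - r pi / 2)`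
(the summation index `k` below is shifted by one). -/
noncomputable def F1 (r t : ℝ) : ℝ :=
  1 + 2 * ∑' k : ℕ, ((k : ℝ) + 1) ^ (-r) * Real.cos (((k : ℝ) + 1) * t - r * Real.pi / 2)

/-- The multivariate kernel `F_r(x) = prod_j F_r(x_j)`. -/
noncomputable def FF (d : ℕ) (r : ℝ) (x : Fin d → ℝ) : ℝ := ∏ j, F1 r (x j)

/-- The class `W^r_1 = {F_r * phi : ‖phi‖_1 <= 1}` of functions of mixed smoothness `r`. -/
def W1 (d : ℕ) (r : ℝ) : Set ((Fin d → ℝ) → ℂ) :=
  {f | ∃ φ : (Fin d → ℝ) → ℂ, Integrable φ (muT d) ∧ ∫ y, ‖φ y‖ ∂(muT d) ≤ 1 ∧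
    f = fun x => ∫ y, (FF d r (x - y) : ℂ) * φ y ∂(muT d)}

/-- `u_1, ..., u_m` is an orthonormal system in `L_2` of the torus. -/
def IsONSystem {d m : ℕ} (u : Fin m → (Fin d → ℝ) → ℂ) : Prop :=
  (∀ i, MemLp (u i) 2 (muT d)) ∧
    ∀ i j, ∫ x, u i x * conj (u j x) ∂(muT d) = if i = j then 1 else 0

/-- The orthowidth `phi_m(W^r_1, L_infty)`: infimum over orthonormal systems `u_1, ..., u_m` of
the supremum over `f` in `W^r_1` of `‖f - sum_i <f, u_i> u_i‖_infty`. -/
noncomputable def orthowidth (d : ℕ) (r : ℝ) (m : ℕ) : ℝ≥0∞ :=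
  ⨅ (u : Fin m → (Fin d → ℝ) → ℂ) (_ : IsONSystem u), ⨆ f ∈ W1 d r,
    eLpNorm (fun x => f x - ∑ i, (∫ y, f y * conj (u i y) ∂(muT d)) * u i x) ⊤ (muT d)

/-- Some real polynomial of degree `d`, all of whose `d + 1` coefficients are positive, has a zero
of multiplicity at least `N` at the point `exp (i pi r)` of the unit circle. -/
def PosPolyVanishes (d : ℕ) (r : ℝ) (N : ℕ) : Prop :=
  ∃ P : Polynomial ℝ, P.natDegree = d ∧ (∀ a ≤ d, 0 < P.coeff a) ∧
    (Polynomial.X - Polynomial.C (Complex.exp (Real.pi * r * Complex.I))) ^ N ∣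
      P.map (algebraMap ℝ ℂ)

/-- `N(r,d)`: the largest `N <= d - 1` such that some real polynomial of degree `d` with positive
coefficients has a zero of multiplicity at least `N` at `exp (i pi r)`. -/
noncomputable def vanishingOrder (d : ℕ) (r : ℝ) : ℕ :=
  sSup {N : ℕ | N ≤ d - 1 ∧ PosPolyVanishes d r N}

end Pool.Agent.Helper935.OW
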