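import Pool.Agent.Helper935.OW.Multi

open MeasureTheory
open scoped ENNReal ComplexConjugate

namespace Pool.Agent.Helper935.OW

variable {d : ℕ}

/-- trigonometric polynomial -/
noncomputable def TP (A : Finset (Fin d → ℤ)) (a : (Fin d → ℤ) → ℂ) (x : Fin d → ℝ) : ℂ :=
  ∑ k ∈ A, a k * E k x

lemma continuous_TP (A : Finset (Fin d → ℤ)) (a : (Fin d → ℤ) → ℂ) : Continuous (TP A a) := by
  unfold TP
  exact continuous_finsetSum _ (fun k _ => continuous_const.mul (continuous_E k))

lemma norm_TP_le (A : Finset (Fin d → ℤ)) (a : (Fin d → ℤ) → ℂ) (x : Fin d → ℝ) :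
    ‖TP A a x‖ ≤ ∑ k ∈ A, ‖a k‖ := by
  unfold TP
  refine (norm_sum_le _ _).trans (Finset.sum_le_sum (fun k _ => ?_))
  rw [norm_mul, norm_E, mul_one]

lemma integrable_TP_shift (A : Finset (Fin d → ℤ)) (a : (Fin d → ℤ) → ℂ) (y : Fin d → ℝ) :
    Integrable (fun x => TP A a (x - y)) (muT d) :=
  integrable_of_cont_bddT ((continuous_TP A a).comp (by fun_prop)) _
    (fun x => norm_TP_le A a (x - y))

/-- projection coefficients -/
noncomputable def cf {m : ℕ} (u : Fin m → (Fin d → ℝ) → ℂ) (k : Fin d → ℤ) (i : Fin m) : ℂ :=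
  ∫ y, E k y * conj (u i y) ∂(muT d)

lemma integrable_mul_conj {m : ℕ} {u : Fin m → (Fin d → ℝ) → ℂ} (hu : IsONSystem u)
    (k : Fin d → ℤ) (i : Fin m) : Integrable (fun y => E k y * conj (u i y)) (muT d) := by
  have h1 : Integrable (u i) (muT d) := (hu.1 i).integrable (by norm_num)
  have h2 : Integrable (fun y => conj (u i y)) (muT d) := by
    have := h1.norm
    refine (integrable_norm_iff ?_).mp ?_
    · exact (Complex.continuous_conj.comp_aestronglyMeasurable h1.aestronglyMeasurable)
    · simpa using this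
  refine (h2.norm).mono' ((continuous_E k).aestronglyMeasurable.mul h2.aestronglyMeasurable) ?_
  filter_upwards with x
  rw [norm_mul, norm_E, one_mul]

lemma integrable_mul_E {m : ℕ} {u : Fin m → (Fin d → ℝ) → ℂ} (hu : IsONSystem u)
    (k : Fin d → ℤ) (i : Fin m) : Integrable (fun y => u i y * E k y) (muT d) := by
  have h1 : Integrable (u i) (muT d) := (hu.1 i).integrable (by norm_num)
  refine (h1.norm).mono' (h1.aestronglyMeasurable.mul (continuous_E k).aestronglyMeasurable) ?_
  filter_upwards with x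
  rw [norm_mul, norm_E, mul_one]

lemma integral_mul_E_neg {m : ℕ} (u : Fin m → (Fin d → ℝ) → ℂ) (l : Fin d → ℤ) (i : Fin m) :
    ∫ x, u i x * E (-l) x ∂(muT d) = conj (cf u l i) := by
  unfold cf
  rw [← integral_conj]
  apply integral_congr_ae
  filter_upwards with x
  rw [map_mul, Complex.conj_conj, conj_E, mul_comm]

/-- The residual of the exponential `E k` -/
lemma integral_residual {m : ℕ} {u : Fin m → (Fin d → ℝ) → ℂ} (hu : IsONSystem u)
    (k l : Fin d → ℤ) :
    ∫ x, (E k x - ∑ i, cf u k i * u i x) * E (-l) x ∂(muT d) =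
      (if k = l then 1 else 0) - ∑ i, cf u k i * conj (cf u l i) := by
  have h1 : ∀ x, (E k x - ∑ i, cf u k i * u i x) * E (-l) x =
      E (k - l) x - ∑ i, cf u k i * (u i x * E (-l) x) := by
    intro x
    rw [sub_mul, ← E_add, Finset.sum_mul]
    congr 1
    apply Finset.sum_congr rfl; intro i _; ring
  simp only [h1]
  rw [integral_sub (integrable_E _), integral_E, integral_finsetSum]
  · congr 1
    · by_cases hkl : k = l
      · subst hkl; simp
      · rw [if_neg hkl, if_neg (by rw [sub_eq_zero]; exact hkl)]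
    · apply Finset.sum_congr rfl
      intro i _
      rw [integral_const_mul, integral_mul_E_neg]
  · intro i _
    exact (integrable_mul_E hu (-l) i).const_mul _
  · exact integrable_finsetSum _ (fun i _ => (integrable_mul_E hu (-l) i).const_mul _)

/-- Duality: averaging over translations. -/
theorem dual_bound {m : ℕ} {r : ℝ} (hr : 1 < r) {u : Fin m → (Fin d → ℝ) → ℂ}
    (hu : IsONSystem u) {R : ℝ} (hR0 : 0 ≤ R)
    (hR : ∀ f ∈ W1 d r,
      eLpNorm (fun x => f x - ∑ i, (∫ y, f y * conj (u i y) ∂(muT d)) * u i x) ⊤ (muT d) ≤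
        ENNReal.ofReal R)
    (A : Finset (Fin d → ℤ)) (a c : (Fin d → ℤ) → ℂ) {B : ℝ}
    (hφ : ∀ y, ∫ x, ‖∑ k ∈ A, a k * E k (x - y)‖ ∂(muT d) ≤ 1)
    (hΨ : ∀ y, ∫ x, ‖∑ l ∈ A, c l * E (-l) (x - y)‖ ∂(muT d) ≤ B) :
    ‖∑ k ∈ A, (((1 - pm u k : ℝ) : ℂ) * (H r k * a k * c k))‖ ≤ R * B := by
  -- the residual function
  set G : (Fin d → ℝ) → (Fin d → ℝ) → ℂ := fun y x =>
    ∑ k ∈ A, (a k * H r k * E (-k) y) * (E k x - ∑ i, cf u k i * u i x) with hG
  have hclass : ∀ y, eLpNorm (G y) ⊤ (muT d) ≤ ENNReal.ofReal R := by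
    intro y
    have hmem : (fun x => ∫ z, (FF d r (x - z) : ℂ) * (∑ k ∈ A, a k * E k (z - y)) ∂(muT d)) ∈
        W1 d r := by
      refine ⟨fun z => ∑ k ∈ A, a k * E k (z - y), integrable_TP_shift A a y, hφ y, rfl⟩
    have h1 := hR _ hmem
    have h2 : ∀ x, (∫ z, (FF d r (x - z) : ℂ) * (∑ k ∈ A, a k * E k (z - y)) ∂(muT d)) =
        ∑ k ∈ A, (a k * H r k * E (-k) y) * E k x := by
      intro x
      have h3 : ∀ z, (FF d r (x - z) : ℂ) * (∑ k ∈ A, a k * E k (z - y)) =
          ∑ k ∈ A, (a k * E (-k) y) * ((FF d r (x - z) : ℂ) * E k z) := by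
        intro z
        rw [Finset.mul_sum]
        apply Finset.sum_congr rfl; intro k _
        rw [E_arg_sub]; ring
      simp only [h3]
      rw [integral_finsetSum]
      · apply Finset.sum_congr rfl; intro k _
        rw [integral_const_mul, conv_FF hr]; ring
      · intro k _
        obtain ⟨C, hC, hCb⟩ := norm_FF_le (d := d) hr
        refine (integrable_of_cont_bddT ?_ C ?_).const_mul _
        · exact (Complex.continuous_ofReal.comp ((continuous_FF hr).comp (by fun_prop))).mul
            (continuous_E k)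
        · intro z
          rw [norm_mul, norm_E, mul_one, Complex.norm_real]
          exact hCb _
    simp only [h2] at h1
    have h4 : (fun x => (∑ k ∈ A, (a k * H r k * E (-k) y) * E k x) -
        ∑ i, (∫ z, (∑ k ∈ A, (a k * H r k * E (-k) y) * E k z) * conj (u i z) ∂(muT d)) * u i x) =
        G y := by
      funext x
      have h5 : ∀ i, (∫ z, (∑ k ∈ A, (a k * H r k * E (-k) y) * E k z) * conj (u i z) ∂(muT d)) =
          ∑ k ∈ A, (a k * H r k * E (-k) y) * cf u k i := by
        intro i
        have h6 : ∀ z, (∑ k ∈ A, (a k * H r k * E (-k) y) * E k z) * conj (u i z) =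
            ∑ k ∈ A, (a k * H r k * E (-k) y) * (E k z * conj (u i z)) := by
          intro z; rw [Finset.sum_mul]; apply Finset.sum_congr rfl; intro k _; ring
        simp only [h6]
        rw [integral_finsetSum]
        · apply Finset.sum_congr rfl; intro k _
          rw [integral_const_mul]; rfl
        · intro k _; exact (integrable_mul_conj hu k i).const_mul _
      simp only [h5, hG]
      simp only [mul_sub, Finset.mul_sum, Finset.sum_sub_distrib]
      congr 1
      simp only [Finset.sum_mul]
      rw [Finset.sum_comm]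
      apply Finset.sum_congr rfl; intro k _
      apply Finset.sum_congr rfl; intro i _
      ring
    rw [h4] at h1
    exact h1
  have hGint : ∀ y, Integrable (G y) (muT d) := by
    intro y
    refine integrable_finsetSum _ (fun k _ => Integrable.const_mul ?_ _)
    refine (integrable_E k).sub (integrable_finsetSum _ (fun i _ => Integrable.const_mul ?_ _))
    exact (hu.1 i).integrable (by norm_num)
  have hpair : ∀ y, ‖∫ x, G y x * (∑ l ∈ A, c l * E (-l) (x - y)) ∂(muT d)‖ ≤ R * B := by
    intro y
    have h1 : ∀ᵐ x ∂(muT d), ‖G y x‖ ≤ R := by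
      have h2 := ae_le_eLpNormEssSup (f := G y) (μ := muT d)
      rw [← eLpNorm_exponent_top] at h2
      filter_upwards [h2] with x hx
      have h3 := hx.trans (hclass y)
      rw [← ofReal_norm] at h3
      exact (ENNReal.ofReal_le_ofReal_iff hR0).mp h3
    have hΨint : Integrable (fun x => ∑ l ∈ A, c l * E (-l) (x - y)) (muT d) := by
      refine integrable_finsetSum _ (fun l _ => Integrable.const_mul ?_ _)
      exact integrable_of_cont_bddT ((continuous_E (-l)).comp (by fun_prop)) 1
        (fun x => (norm_E _ _).le)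
    calc ‖∫ x, G y x * (∑ l ∈ A, c l * E (-l) (x - y)) ∂(muT d)‖
        ≤ ∫ x, ‖G y x * (∑ l ∈ A, c l * E (-l) (x - y))‖ ∂(muT d) := norm_integral_le_integral_norm _
      _ ≤ ∫ x, R * ‖∑ l ∈ A, c l * E (-l) (x - y)‖ ∂(muT d) := by
          refine integral_mono_of_nonneg (Filter.Eventually.of_forall fun x => norm_nonneg _)
            (hΨint.norm.const_mul _) ?_
          filter_upwards [h1] with x hx
          rw [norm_mul]
          exact mul_le_mul_of_nonneg_right hx (norm_nonneg _)
      _ = R * ∫ x, ‖∑ l ∈ A, c l * E (-l) (x - y)‖ ∂(muT d) := integral_const_mul _ _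
      _ ≤ R * B := mul_le_mul_of_nonneg_left (hΨ y) hR0
  have hval : ∀ y, ∫ x, G y x * (∑ l ∈ A, c l * E (-l) (x - y)) ∂(muT d) =
      ∑ k ∈ A, ∑ l ∈ A, (a k * H r k * c l * ((if k = l then 1 else 0) -
        ∑ i, cf u k i * conj (cf u l i))) * E (l - k) y := by
    intro y
    have h1 : ∀ x, G y x * (∑ l ∈ A, c l * E (-l) (x - y)) =
        ∑ k ∈ A, ∑ l ∈ A, (a k * H r k * c l * E (l - k) y) *
          ((E k x - ∑ i, cf u k i * u i x) * E (-l) x) := by
      intro x
      rw [hG]
      simp only
      rw [Finset.sum_mul_sum]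
      apply Finset.sum_congr rfl; intro k _
      apply Finset.sum_congr rfl; intro l _
      rw [E_arg_sub, neg_neg, sub_eq_add_neg l k, E_add]; ring
    simp only [h1]
    have hi : ∀ k l, Integrable (fun x => (E k x - ∑ i, cf u k i * u i x) * E (-l) x) (muT d) := by
      intro k l
      have h2 : ∀ x, (E k x - ∑ i, cf u k i * u i x) * E (-l) x =
        E (k - l) x - ∑ i, cf u k i * (u i x * E (-l) x) := by
        intro x
        rw [sub_mul, ← E_add, Finset.sum_mul]
        congr 1
        apply Finset.sum_congr rfl; intro i _; ring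
      simp only [h2]
      exact (integrable_E _).sub (integrable_finsetSum _
        (fun i _ => (integrable_mul_E hu (-l) i).const_mul _))
    rw [integral_finsetSum _ (fun k _ => integrable_finsetSum _ (fun l _ => (hi k l).const_mul _))]
    apply Finset.sum_congr rfl; intro k _
    rw [integral_finsetSum _ (fun l _ => (hi k l).const_mul _)]
    apply Finset.sum_congr rfl; intro l _
    rw [integral_const_mul, integral_residual hu]; ring
  have havg : ∫ y, (∫ x, G y x * (∑ l ∈ A, c l * E (-l) (x - y)) ∂(muT d)) ∂(muT d) =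
      ∑ k ∈ A, (((1 - pm u k : ℝ) : ℂ) * (H r k * a k * c k)) := by
    simp only [hval]
    rw [integral_finsetSum _ (fun k _ => integrable_finsetSum _
      (fun l _ => (integrable_E _).const_mul _))]
    apply Finset.sum_congr rfl; intro k hk
    rw [integral_finsetSum _ (fun l _ => (integrable_E _).const_mul _)]
    simp only [integral_const_mul, integral_E]
    rw [Finset.sum_eq_single k]
    · simp only [if_true, sub_self, mul_one]
      have h1 : ∑ i, cf u k i * conj (cf u k i) = ((pm u k : ℝ) : ℂ) := by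
        unfold pm
        push_cast
        apply Finset.sum_congr rfl; intro i _
        rw [Complex.mul_conj, Complex.normSq_eq_norm_sq]; push_cast; rfl
      rw [h1]; push_cast; ring
    · intro l _ hl
      have h2 : l - k ≠ 0 := by rw [sub_ne_zero]; exact hl
      simp only [h2, if_false, mul_zero]
    · intro h; exact absurd hk h
  rw [← havg]
  calc ‖∫ y, (∫ x, G y x * (∑ l ∈ A, c l * E (-l) (x - y)) ∂(muT d)) ∂(muT d)‖
      ≤ ∫ y, ‖∫ x, G y x * (∑ l ∈ A, c l * E (-l) (x - y)) ∂(muT d)‖ ∂(muT d) :=
        norm_integral_le_integral_norm _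
    _ ≤ ∫ _y, R * B ∂(muT d) := by
        refine integral_mono_of_nonneg (Filter.Eventually.of_forall fun x => norm_nonneg _)
          (integrable_const _) (Filter.Eventually.of_forall hpair)
    _ = R * B := by simp

end Pool.Agent.Helper935.OW
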