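import Pool.Agent.Helper935.OW.Lower2

open MeasureTheory
open scoped ENNReal ComplexConjugate

namespace Pool.Agent.Helper935.OW

lemma h_of_pos (r : ℝ) {k : ℤ} (hk : 0 < k) :
    h r k = ((((|k| : ℤ) : ℝ) ^ (-r) : ℝ) : ℂ) * chi r true := by
  unfold h
  rw [if_neg hk.ne']
  congr 1
  unfold chi
  rw [Int.sign_eq_one_of_pos hk]
  simp only [if_true]
  push_cast; ring_nf

lemma eta_shift_zero {W : ℕ} (hW : 0 < W) {k : ℤ} (hk : k ≤ 0 ∨ 2 * (W : ℤ) ≤ k) :
    eta W (k - W) = 0 := by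
  unfold eta
  apply max_eq_left
  have hW' : (0 : ℝ) < W := by exact_mod_cast hW
  have h1 : (W : ℝ) ≤ |((k - W : ℤ) : ℝ)| := by
    rcases hk with h | h
    · have h2 : (k : ℝ) ≤ 0 := by exact_mod_cast h
      rw [abs_of_nonpos (by push_cast; linarith)]
      push_cast; linarith
    · have h2 : 2 * (W : ℝ) ≤ k := by exact_mod_cast h
      rw [abs_of_nonneg (by push_cast; linarith)]
      push_cast; linarith
  have : 1 ≤ |((k - W : ℤ) : ℝ)| / W := by rw [le_div_iff₀ hW']; linarith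
  linarith

lemma norm_shift_fej {W N : ℕ} (hW : 0 < W) (hWN : 2 * W ≤ N) (t : ℝ) :
    ‖∑ l ∈ Finset.Icc (-(N : ℤ)) N, (eta W (l - W) : ℂ) * e (-l) t‖ = ‖fej W t‖ := by
  have h1 : ∑ l ∈ Finset.Icc (-(N : ℤ)) N, (eta W (l - W) : ℂ) * e (-l) t =
      ∑ l ∈ Finset.Icc (0 : ℤ) (2 * W), (eta W (l - W) : ℂ) * e (-l) t := by
    symm
    apply Finset.sum_subset
    · intro l hl
      rw [Finset.mem_Icc] at hl ⊢
      constructor
      · omega
      · omega
    · intro l _ hl
      rw [Finset.mem_Icc] at hl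
      rw [eta_shift_zero hW (by omega)]; simp
  have h2 : ∑ l ∈ Finset.Icc (0 : ℤ) (2 * W), (eta W (l - W) : ℂ) * e (-l) t =
      ∑ l ∈ Finset.Icc (-(W : ℤ)) W, (eta W l : ℂ) * e (-(l + W)) t := by
    apply Finset.sum_bij' (fun (l : ℤ) _ => l - (W : ℤ)) (fun (l : ℤ) _ => l + (W : ℤ))
    · intro l hl; rw [Finset.mem_Icc] at hl ⊢; constructor <;> omega
    · intro l hl; rw [Finset.mem_Icc] at hl ⊢; constructor <;> omega
    · intro l _; ring
    · intro l _; ring
    · intro l _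
      rw [sub_add_cancel]
  rw [h1, h2]
  have h3 : ∑ l ∈ Finset.Icc (-(W : ℤ)) W, (eta W l : ℂ) * e (-(l + W)) t =
      e (-(W : ℤ)) t * fej W t := by
    unfold fej
    rw [← sum_Icc_neg W (fun k => (eta W k : ℂ) * e k t), Finset.mul_sum]
    apply Finset.sum_congr rfl; intro l _
    rw [eta_neg, neg_add, e_add]; ring
  rw [h3, norm_mul, norm_e, one_mul]

/-- Lower bound from one dyadic block (all coordinates localised in frequency). -/
theorem lower2 (d' : ℕ) {r : ℝ} (hr : 1 < r) :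
    ∃ c : ℝ, 0 < c ∧ ∀ (n m : ℕ) (u : Fin m → (Fin (d' + 1) → ℝ) → ℂ) (R : ℝ),
      IsONSystem u → 0 ≤ R → Achieves r u R → 2 * m ≤ (n / d' + 1) ^ d' * 2 ^ n →
      c * ((2 : ℝ) ^ n) ^ (1 - r) ≤ R := by
  refine ⟨((2 : ℝ) ^ (d' + 1)) ^ (-r) * (1 / 4) ^ (d' + 1) / 2, by positivity, ?_⟩
  intro n m u R hu hR0 hR hm
  set ε0 : Fin (d' + 1) → Bool := fun _ => true with hε0
  obtain ⟨τ, hτ, hτs⟩ : ∃ τ ∈ TT d' n, ∑ κ ∈ box (ss n τ), pm u (fr ε0 κ) ≤ 2 ^ n / 2 := by
    apply Finset.exists_le_of_sum_le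
    · exact ⟨fun _ => 0, by unfold TT; rw [Fintype.mem_piFinset]; intro j; simp⟩
    · have h1 : ∑ τ ∈ TT d' n, ∑ κ ∈ box (ss n τ), pm u (fr ε0 κ) =
          ∑ κ ∈ AA d' n, pm u (fr ε0 κ) := by
        unfold AA
        rw [Finset.sum_biUnion]
        intro τ _ τ' _ hne
        exact box_disjoint (fun h => hne (ss_injective h))
      rw [h1]
      refine (sum_pm_fr_le hu ε0 _).trans ?_
      have h2 : (TT d' n).card = (n / d' + 1) ^ d' := by
        unfold TT; rw [Fintype.card_piFinset]; simp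
      rw [Finset.sum_const, h2, nsmul_eq_mul]
      have : (2 * m : ℝ) ≤ (((n / d' + 1 : ℕ) : ℝ) ^ d' * 2 ^ n) := by exact_mod_cast hm
      push_cast at this ⊢
      linarith
  set s := ss n τ with hs
  have hsn : ∑ j, s j = n := sum_ss hτ
  set N : ℕ := 2 ^ (n + 2) with hN
  have hNpos : 0 < N := by positivity
  set W : Fin (d' + 1) → ℕ := fun j => 2 ^ (s j + 1) with hW
  have hWpos : ∀ j, 0 < W j := fun j => by simp only [hW]; positivity
  have hsj : ∀ j, s j ≤ n := by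
    intro j
    rw [← hsn]; exact Finset.single_le_sum (fun i _ => Nat.zero_le (s i)) (Finset.mem_univ j)
  have hWN : ∀ j, 2 * W j ≤ N := by
    intro j
    have h1 : 2 * W j = 2 ^ (s j + 2) := by simp only [hW]; ring
    rw [h1, hN]; exact Nat.pow_le_pow_right (by norm_num) (by have := hsj j; omega)
  have key := dual_product hr hu hR0 hR hNpos (fun j l => (eta (W j) (l - W j) : ℂ)) (fun _ => 1)
    (fun j => by
      simp only [norm_shift_fej (hWpos j) (hWN j)]
      rw [integral_norm_fej (hWpos j)])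
  simp only [Finset.prod_const_one, mul_one] at key
  -- real weights
  set w : (Fin (d' + 1) → ℤ) → ℝ := fun k => ∏ j, (if 0 < k j then
    ((((|k j| : ℤ) : ℝ) ^ (-r) * eta N (k j) * eta (W j) (k j - W j))) else 0) with hw
  have hw0 : ∀ k, 0 ≤ w k := by
    intro k
    apply Finset.prod_nonneg
    intro j _
    split_ifs
    · have := eta_nonneg N (k j)
      have := eta_nonneg (W j) (k j - W j)
      have h2 : (0 : ℝ) ≤ ((|k j| : ℤ) : ℝ) := by positivity
      positivity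
    · exact le_rfl
  have hprod : ∀ k : Fin (d' + 1) → ℤ, ∏ j, (h r (k j) * (eta N (k j) : ℂ) *
      (eta (W j) (k j - W j) : ℂ)) = (w k : ℂ) * (chi r true) ^ (d' + 1) := by
    intro k
    have h1 : (chi r true) ^ (d' + 1) = ∏ _j : Fin (d' + 1), chi r true := by simp
    rw [h1, hw, Complex.ofReal_prod, ← Finset.prod_mul_distrib]
    apply Finset.prod_congr rfl; intro j _
    by_cases hk : 0 < k j
    · rw [if_pos hk, h_of_pos r hk, Complex.ofReal_mul, Complex.ofReal_mul]; ring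
    · rw [if_neg hk, eta_shift_zero (hWpos j) (by omega)]; simp
  have hval : ‖∑ k ∈ bx (d' + 1) N, (((1 - pm u k : ℝ) : ℂ) * ∏ j, (h r (k j) * (eta N (k j) : ℂ) *
      (eta (W j) (k j - W j) : ℂ)))‖ = ∑ k ∈ bx (d' + 1) N, (1 - pm u k) * w k := by
    have h1 : ∑ k ∈ bx (d' + 1) N, (((1 - pm u k : ℝ) : ℂ) * ∏ j, (h r (k j) * (eta N (k j) : ℂ) *
      (eta (W j) (k j - W j) : ℂ))) = ((∑ k ∈ bx (d' + 1) N, (1 - pm u k) * w k : ℝ) : ℂ) *
        (chi r true) ^ (d' + 1) := by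
      rw [Complex.ofReal_sum, Finset.sum_mul]
      apply Finset.sum_congr rfl; intro k _
      rw [hprod]; push_cast; ring
    rw [h1, norm_mul, norm_pow, norm_chi, one_pow, mul_one, Complex.norm_real,
      Real.norm_of_nonneg]
    apply Finset.sum_nonneg
    intro k _
    have h2 : 0 ≤ 1 - pm u k := by have := pm_le_one hu k; linarith
    exact mul_nonneg h2 (hw0 k)
  rw [hval] at key
  refine le_trans ?_ key
  have hsub : (box s).image (fr ε0) ⊆ bx (d' + 1) N := by
    intro k hk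
    rw [Finset.mem_image] at hk
    obtain ⟨κ, hκ, rfl⟩ := hk
    rw [mem_box] at hκ
    unfold bx
    rw [Fintype.mem_piFinset]
    intro j
    rw [Finset.mem_Icc, ← abs_le, abs_fr]
    have h1 := (hκ j).2
    have h2 := hsj j
    have h3 : 2 ^ (s j + 1) ≤ 2 ^ (n + 2) := Nat.pow_le_pow_right (by norm_num) (by omega)
    have h4 : κ j ≤ N := by rw [hN]; omega
    exact_mod_cast h4
  have hwge : ∀ κ ∈ box s, ((2 : ℝ) ^ (n + (d' + 1))) ^ (-r) * (1 / 4) ^ (d' + 1) ≤ w (fr ε0 κ) := by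
    intro κ hκ
    rw [mem_box] at hκ
    have h1 : ((2 : ℝ) ^ (n + (d' + 1))) ^ (-r) * (1 / 4) ^ (d' + 1) =
        ∏ j, ((((2 : ℝ) ^ (s j + 1)) ^ (-r)) * (1 / 2) * (1 / 2)) := by
      simp only [Finset.prod_mul_distrib, Finset.prod_const, Finset.card_univ, Fintype.card_fin]
      rw [Real.finsetProd_rpow _ _ (fun j _ => by positivity)]
      rw [Finset.prod_pow_eq_pow_sum, Finset.sum_add_distrib, hsn]
      simp only [Finset.sum_const, Finset.card_univ, Fintype.card_fin, smul_eq_mul, mul_one]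
      rw [mul_assoc, ← mul_pow]
      norm_num
    rw [h1, hw]
    apply Finset.prod_le_prod
    · intro j _; positivity
    · intro j _
      have h2 := hκ j
      have hpos : 0 < κ j := lt_of_lt_of_le (by positivity) h2.1
      have hfr : fr ε0 κ j = (κ j : ℤ) := by simp [fr, hε0]
      have hfrpos : 0 < fr ε0 κ j := by rw [hfr]; exact_mod_cast hpos
      rw [if_pos hfrpos, abs_fr]
      have heta : 1 / 2 ≤ eta N (fr ε0 κ j) := by
        apply eta_ge_half
        rw [hfr]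
        have h5 : 2 * κ j ≤ 2 ^ (n + 2) := by
          have h7 := hsj j
          have : 2 ^ (s j + 1) ≤ 2 ^ (n + 1) := Nat.pow_le_pow_right (by norm_num) (by omega)
          have h6 : 2 ^ (n + 2) = 2 * 2 ^ (n + 1) := by ring
          omega
        have h8 : |(((κ j : ℕ) : ℤ) : ℝ)| = (κ j : ℝ) := by
          rw [abs_of_nonneg (by positivity)]; push_cast; rfl
        rw [h8, hN]
        exact_mod_cast h5
      have heta2 : 1 / 2 ≤ eta (W j) (fr ε0 κ j - W j) := by
        apply eta_ge_half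
        rw [hfr]
        have h9 : ((κ j : ℕ) : ℝ) ≤ (W j : ℝ) := by
          simp only [hW]; exact_mod_cast h2.2.le
        have h10 : (W j : ℝ) ≤ 2 * (κ j : ℝ) := by
          simp only [hW]
          have : 2 ^ (s j + 1) ≤ 2 * κ j := by rw [pow_succ]; have := h2.1; omega
          exact_mod_cast this
        have h8 : |((((κ j : ℕ) : ℤ) - (W j : ℤ) : ℤ) : ℝ)| = (W j : ℝ) - (κ j : ℝ) := by
          push_cast
          rw [abs_of_nonpos (by linarith)]; ring
        rw [h8]; linarith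
      have hk : ((2 : ℝ) ^ (s j + 1)) ^ (-r) ≤ (((κ j : ℤ)) : ℝ) ^ (-r) := by
        apply Real.rpow_le_rpow_of_nonpos
        · have : (0 : ℝ) < (κ j : ℝ) := by exact_mod_cast hpos
          simpa using this
        · have : (κ j : ℝ) ≤ ((2 ^ (s j + 1) : ℕ) : ℝ) := by exact_mod_cast h2.2.le
          push_cast at this ⊢; exact this
        · linarith
      gcongr
  have hpow : ((2 : ℝ) ^ (n + (d' + 1))) ^ (-r) * 2 ^ n =
      ((2 : ℝ) ^ (d' + 1)) ^ (-r) * ((2 : ℝ) ^ n) ^ (1 - r) := by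
    rw [pow_add, Real.mul_rpow (by positivity) (by positivity), sub_eq_add_neg,
      Real.rpow_add (by positivity), Real.rpow_one]
    ring
  calc ((2 : ℝ) ^ (d' + 1)) ^ (-r) * (1 / 4) ^ (d' + 1) / 2 * ((2 : ℝ) ^ n) ^ (1 - r)
      = (((2 : ℝ) ^ (d' + 1)) ^ (-r) * ((2 : ℝ) ^ n) ^ (1 - r)) * ((1 / 4) ^ (d' + 1) / 2) := by ring
    _ = (((2 : ℝ) ^ (n + (d' + 1))) ^ (-r) * (1 / 4) ^ (d' + 1)) * (2 ^ n - 2 ^ n / 2) := by
        rw [← hpow]; ring
    _ ≤ (((2 : ℝ) ^ (n + (d' + 1))) ^ (-r) * (1 / 4) ^ (d' + 1)) *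
          ∑ κ ∈ box s, (1 - pm u (fr ε0 κ)) := by
        apply mul_le_mul_of_nonneg_left _ (by positivity)
        rw [Finset.sum_sub_distrib, Finset.sum_const, card_box, hsn]
        simp only [nsmul_eq_mul, mul_one]
        push_cast
        linarith
    _ = ∑ κ ∈ box s, (1 - pm u (fr ε0 κ)) *
          (((2 : ℝ) ^ (n + (d' + 1))) ^ (-r) * (1 / 4) ^ (d' + 1)) := by
        rw [Finset.mul_sum]; apply Finset.sum_congr rfl; intro κ _; ring
    _ ≤ ∑ κ ∈ box s, (1 - pm u (fr ε0 κ)) * w (fr ε0 κ) := by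
        apply Finset.sum_le_sum
        intro κ hκ
        have h2 : 0 ≤ 1 - pm u (fr ε0 κ) := by have := pm_le_one hu (fr ε0 κ); linarith
        exact mul_le_mul_of_nonneg_left (hwge κ hκ) h2
    _ = ∑ k ∈ (box s).image (fr ε0), (1 - pm u k) * w k := by
        rw [Finset.sum_image (fun x _ y _ h => fr_injective ε0 h)]
    _ ≤ _ := by
        apply Finset.sum_le_sum_of_subset_of_nonneg hsub
        intro k _ _
        have h2 : 0 ≤ 1 - pm u k := by have := pm_le_one hu k; linarith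
        exact mul_nonneg h2 (hw0 k)

end Pool.Agent.Helper935.OW
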