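import Pool.Agent.Helper935.OW.Count
import Pool.Agent.Helper935.OW.Lower3

open MeasureTheory
open scoped ENNReal ComplexConjugate

namespace Pool.Agent.Helper935.OW

lemma rpow_aux {a b : ℝ} (ha : 0 < a) (hb : 0 < b) {s : ℝ} (hs : 0 ≤ s) (h : a ≤ b) :
    b ^ (-s) ≤ a ^ (-s) := by
  rw [Real.rpow_neg hb.le, Real.rpow_neg ha.le]
  exact inv_anti₀ (by positivity) (Real.rpow_le_rpow ha.le h hs)

lemma qpow_eq (r : ℝ) (n : ℕ) : ((2 : ℝ) ^ (1 - r)) ^ n = ((2 : ℝ) ^ n) ^ (-(r - 1)) := by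
  rw [← Real.rpow_natCast, ← Real.rpow_natCast, ← Real.rpow_mul (by norm_num),
    ← Real.rpow_mul (by norm_num)]
  congr 1; ring

lemma pow_combine {x r : ℝ} (hx : 0 < x) {d' N : ℕ} (hN : N ≤ d') :
    (x ^ d') ^ (r - 1) * x ^ (d' - N) = x ^ (r * d' - N) := by
  rw [← Real.rpow_natCast, ← Real.rpow_natCast, ← Real.rpow_mul hx.le, ← Real.rpow_add hx]
  congr 1
  rw [Nat.cast_sub hN]; ring

theorem upper_final {d' : ℕ} {r : ℝ} (hr : 1 < r) {N : ℕ} (hN : N ≤ d')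
    (hP : PosPolyVanishes (d' + 1) r N) :
    ∃ C : ℝ, 0 < C ∧ ∀ m : ℕ, 2 ≤ m → orthowidth (d' + 1) r m ≤
      ENNReal.ofReal (C * ((m : ℝ) ^ (-(r - 1)) * (Real.log m) ^ (r * d' - N))) := by
  obtain ⟨T0, C, hC, hset⟩ := upper_sets hr (bal_of_poly (by omega) hP)
  have hM : d' + 1 + 1 - N - 2 = d' - N := by omega
  rw [hM] at hset
  set T : ℕ := T0 + 1 with hT
  set G : ℕ → ℕ := fun n => (2 * (n + T)) ^ d' * (2 * 2 ^ (n + T)) with hG
  obtain ⟨CF, hCF, hFF⟩ := norm_FF_le (d := d' + 1) hr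
  have hr1 : 0 ≤ r - 1 := by linarith
  have hα : 0 ≤ r * d' - N := by
    have h1 : (N : ℝ) ≤ d' := by exact_mod_cast hN
    have h2 : (0 : ℝ) ≤ d' := Nat.cast_nonneg _
    nlinarith
  set α : ℝ := r * d' - N with hαdef
  have hlog2 : 0 < Real.log 2 := Real.log_pos (by norm_num)
  set A : ℝ := (2 * ((T : ℝ) + 1)) ^ d' * 2 ^ (T + 2) with hA
  have hA0 : 0 < A := by positivity
  set C1 : ℝ := 2 * C * A ^ (r - 1) * (Real.log 2)⁻¹ ^ α with hC1
  have hC10 : 0 < C1 := by positivity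
  have hG0 : 0 < (G 0 : ℝ) := by
    have : 0 < G 0 := by simp only [hG, hT]; positivity
    exact_mod_cast this
  set C2 : ℝ := 2 * CF * ((G 0 : ℝ) ^ (r - 1) * (Real.log 2)⁻¹ ^ α) with hC2
  have hC20 : 0 < C2 := by positivity
  refine ⟨C1 + C2, by positivity, ?_⟩
  intro m hm
  have hm2 : (2 : ℝ) ≤ m := by exact_mod_cast hm
  have hm0 : (0 : ℝ) < m := by linarith
  have hlogm : Real.log 2 ≤ Real.log m := Real.log_le_log (by norm_num) hm2
  have hlogm0 : 0 < Real.log m := hlog2.trans_le hlogm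
  set g : ℝ := (m : ℝ) ^ (-(r - 1)) * (Real.log m) ^ α with hg
  have hg0 : 0 < g := by positivity
  rcases lt_or_ge m (G 0) with hmG | hmG
  · -- small m
    have h1 := orthowidth_le_of_small (m := m) hr (∅ : Finset (Fin (d' + 1) → ℤ)) (by simp) hCF
      (fun x => by
        rw [Finset.sum_empty, sub_zero, Complex.norm_real, Real.norm_eq_abs]; exact hFF x)
    refine h1.trans (ENNReal.ofReal_le_ofReal ?_)
    have h2 : (G 0 : ℝ) ^ (-(r - 1)) ≤ (m : ℝ) ^ (-(r - 1)) :=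
      rpow_aux hm0 hG0 hr1 (by exact_mod_cast hmG.le)
    have h3 : (Real.log 2) ^ α ≤ (Real.log m) ^ α := Real.rpow_le_rpow hlog2.le hlogm hα
    have h4 : (G 0 : ℝ) ^ (-(r - 1)) * (Real.log 2) ^ α ≤ g :=
      mul_le_mul h2 h3 (by positivity) (by positivity)
    have h5 : 2 * CF = C2 * ((G 0 : ℝ) ^ (-(r - 1)) * (Real.log 2) ^ α) := by
      rw [hC2, Real.rpow_neg hG0.le, Real.inv_rpow hlog2.le]
      have h6 : (0 : ℝ) < (G 0 : ℝ) ^ (r - 1) := by positivity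
      have h7 : (0 : ℝ) < (Real.log 2) ^ α := by positivity
      field_simp
    calc 2 * CF = C2 * ((G 0 : ℝ) ^ (-(r - 1)) * (Real.log 2) ^ α) := h5
      _ ≤ C2 * g := mul_le_mul_of_nonneg_left h4 hC20.le
      _ ≤ (C1 + C2) * g := by nlinarith
  · -- large m
    have hGlow : ∀ n, 2 ^ (n + 1) ≤ G n := by
      intro n
      have h1 : 1 ≤ (2 * (n + T)) ^ d' := Nat.one_le_pow _ _ (by omega)
      calc 2 ^ (n + 1) ≤ 2 * 2 ^ (n + T) := by
            have : 2 * 2 ^ (n + T) = 2 ^ (n + T + 1) := by ring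
            rw [this]
            exact Nat.pow_le_pow_right (by norm_num) (by omega)
        _ = 1 * (2 * 2 ^ (n + T)) := by ring
        _ ≤ G n := Nat.mul_le_mul_right _ h1
    have hex : ∃ n, m < G n := ⟨m, by
      have h1 := hGlow m
      have h2 : m < 2 ^ m := Nat.lt_two_pow_self
      have h3 : 2 ^ m ≤ 2 ^ (m + 1) := Nat.pow_le_pow_right (by norm_num) (by omega)
      omega⟩
    classical
    obtain ⟨n, hn⟩ : ∃ n, Nat.find hex = n + 1 := by
      have : Nat.find hex ≠ 0 := by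
        intro h0
        have := Nat.find_spec hex
        rw [h0] at this
        omega
      exact ⟨Nat.find hex - 1, by omega⟩
    have hn1 : m < G (n + 1) := by
      have := Nat.find_spec hex
      rwa [hn] at this
    have hn0 : G n ≤ m := by
      have := Nat.find_min hex (m := n) (by omega)
      omega
    obtain ⟨K, hK1, hK2⟩ := hset n
    have hcard : K.card ≤ m :=
      (count_le (m := n + T) K (fun k hk => (hK1 k hk).trans (by omega))).trans hn0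
    have h1 := orthowidth_le_of_small (m := m) hr K hcard (by positivity) hK2
    refine h1.trans (ENNReal.ofReal_le_ofReal ?_)
    have hn1' : (0 : ℝ) < (n : ℝ) + 1 := by positivity
    -- m <= A (n+1)^d' 2^n
    have h2 : (m : ℝ) ≤ A * ((n : ℝ) + 1) ^ d' * 2 ^ n := by
      have h3 : (m : ℝ) ≤ (G (n + 1) : ℝ) := by exact_mod_cast hn1.le
      have h4 : (G (n + 1) : ℝ) = (2 * ((n : ℝ) + 1 + T)) ^ d' * (2 * 2 ^ (n + 1 + T)) := by
        simp only [hG]; push_cast; ring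
      rw [h4] at h3
      have h5 : 2 * ((n : ℝ) + 1 + T) ≤ 2 * ((T : ℝ) + 1) * ((n : ℝ) + 1) := by
        have h6 : (0 : ℝ) ≤ (T : ℝ) := Nat.cast_nonneg _
        have h7 : (0 : ℝ) ≤ (n : ℝ) := Nat.cast_nonneg _
        nlinarith
      calc (m : ℝ) ≤ (2 * ((n : ℝ) + 1 + T)) ^ d' * (2 * 2 ^ (n + 1 + T)) := h3
        _ ≤ (2 * ((T : ℝ) + 1) * ((n : ℝ) + 1)) ^ d' * (2 * 2 ^ (n + 1 + T)) := by
            apply mul_le_mul_of_nonneg_right _ (by positivity)
            exact pow_le_pow_left₀ (by positivity) h5 _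
        _ = A * ((n : ℝ) + 1) ^ d' * 2 ^ n := by rw [hA, mul_pow]; ring
    have h3 : ((2 : ℝ) ^ (1 - r)) ^ n ≤
        (m : ℝ) ^ (-(r - 1)) * (A ^ (r - 1) * (((n : ℝ) + 1) ^ d') ^ (r - 1)) := by
      rw [qpow_eq]
      have h4 := Real.rpow_le_rpow hm0.le h2 hr1
      rw [Real.mul_rpow (by positivity) (by positivity), Real.mul_rpow (by positivity) (by positivity)]
        at h4
      rw [Real.rpow_neg (by positivity), Real.rpow_neg (by positivity)]
      have h5 : (0 : ℝ) < (m : ℝ) ^ (r - 1) := by positivity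
      have h6 : (0 : ℝ) < ((2 : ℝ) ^ n) ^ (r - 1) := by positivity
      rw [inv_mul_eq_div, le_div_iff₀ h5, inv_mul_le_iff₀ h6]
      linarith
    have h4 : ((n : ℝ) + 1) ≤ Real.log m * (Real.log 2)⁻¹ := by
      rw [← div_eq_mul_inv, le_div_iff₀ hlog2]
      have h5 : ((2 ^ (n + 1) : ℕ) : ℝ) ≤ m := by exact_mod_cast (hGlow n).trans hn0
      have h6 := Real.log_le_log (by positivity) h5
      push_cast at h6
      rw [Real.log_pow] at h6
      push_cast at h6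
      exact h6
    have h5 : ((n : ℝ) + 1) ^ α ≤ (Real.log m) ^ α * (Real.log 2)⁻¹ ^ α := by
      rw [← Real.mul_rpow hlogm0.le (by positivity)]
      exact Real.rpow_le_rpow hn1'.le h4 hα
    calc 2 * (C * (((2 : ℝ) ^ (1 - r)) ^ n * ((n : ℝ) + 1) ^ (d' - N)))
        ≤ 2 * (C * (((m : ℝ) ^ (-(r - 1)) * (A ^ (r - 1) * (((n : ℝ) + 1) ^ d') ^ (r - 1))) *
            ((n : ℝ) + 1) ^ (d' - N))) := by
          apply mul_le_mul_of_nonneg_left _ (by norm_num)
          apply mul_le_mul_of_nonneg_left _ hC.le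
          exact mul_le_mul_of_nonneg_right h3 (by positivity)
      _ = 2 * C * A ^ (r - 1) * (m : ℝ) ^ (-(r - 1)) *
            ((((n : ℝ) + 1) ^ d') ^ (r - 1) * ((n : ℝ) + 1) ^ (d' - N)) := by ring
      _ = 2 * C * A ^ (r - 1) * (m : ℝ) ^ (-(r - 1)) * ((n : ℝ) + 1) ^ α := by
          rw [pow_combine hn1' hN]
      _ ≤ 2 * C * A ^ (r - 1) * (m : ℝ) ^ (-(r - 1)) * ((Real.log m) ^ α * (Real.log 2)⁻¹ ^ α) :=
          mul_le_mul_of_nonneg_left h5 (by positivity)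
      _ = C1 * g := by rw [hC1, hg]; ring
      _ ≤ (C1 + C2) * g := by nlinarith

lemma div_succ_mul (n d' : ℕ) : ((n : ℝ) + 1) ^ d' ≤ (d' : ℝ) ^ d' * ((n / d' + 1 : ℕ) : ℝ) ^ d' := by
  rcases Nat.eq_zero_or_pos d' with h0 | h0
  · subst h0; simp
  · rw [← mul_pow]
    apply pow_le_pow_left₀ (by positivity)
    have h1 : n + 1 ≤ d' * (n / d' + 1) := by
      have := Nat.div_add_mod n d'
      have h2 := Nat.mod_lt n h0
      nlinarith
    exact_mod_cast h1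

theorem core_lower {d' : ℕ} {r : ℝ} (hr : 1 < r) {N : ℕ} (hN : N ≤ d')
    (hP : N = d' ∨ ¬ PosPolyVanishes (d' + 1) r (N + 1)) :
    ∃ c : ℝ, 0 < c ∧ ∀ (n m : ℕ) (u : Fin m → (Fin (d' + 1) → ℝ) → ℂ) (R : ℝ),
      IsONSystem u → 0 ≤ R → Achieves r u R → 2 * m ≤ (n / d' + 1) ^ d' * 2 ^ n →
      c * (((2 : ℝ) ^ n) ^ (-(r - 1)) * ((n : ℝ) + 1) ^ (d' - N)) ≤ R := by
  rcases hP with hP | hP
  · obtain ⟨c, hc, h⟩ := lower2 d' hr
    refine ⟨c, hc, ?_⟩
    intro n m u R hu hR0 hR hm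
    have h1 := h n m u R hu hR0 hR hm
    have h2 : d' - N = 0 := by omega
    rw [h2, pow_zero, mul_one, neg_sub]
    exact h1
  · have hB : ¬ Bal (d' + 1) r (d' + 1 - N) := by
      intro hB
      apply hP
      have := poly_of_bal hB
      have h1 : d' + 1 + 1 - (d' + 1 - N) = N + 1 := by omega
      rwa [h1] at this
    obtain ⟨c, hc, h⟩ := lower1 hr (by omega) hB
    have hdd : (0 : ℝ) < ((d' : ℝ) ^ d') := by
      rcases Nat.eq_zero_or_pos d' with h0 | h0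
      · subst h0; simp
      · positivity
    refine ⟨c * ((d' : ℝ) ^ d')⁻¹, by positivity, ?_⟩
    intro n m u R hu hR0 hR hm
    have h1 := h n m u R hu hR0 hR hm
    have h2 : d' + 1 - (d' + 1 - N) = N := by omega
    rw [h2] at h1
    have hn0 : (0 : ℝ) < (n : ℝ) + 1 := by positivity
    have h3 := div_succ_mul n d'
    have h4 : ((n : ℝ) + 1) ^ d' = ((n : ℝ) + 1) ^ (d' - N) * ((n : ℝ) + 1) ^ N := by
      rw [← pow_add]; congr 1; omega
    have hX : (0 : ℝ) < ((2 : ℝ) ^ n) ^ (1 - r) := by positivity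
    have h5 : c * ((2 : ℝ) ^ n) ^ (1 - r) * (((d' : ℝ) ^ d')⁻¹ * (((n : ℝ) + 1) ^ (d' - N) * ((n : ℝ) + 1) ^ N)) ≤
        R * ((n : ℝ) + 1) ^ N := by
      refine le_trans ?_ h1
      apply mul_le_mul_of_nonneg_left _ (by positivity)
      rw [← h4, inv_mul_le_iff₀ hdd]
      exact h3
    have h6 : (0 : ℝ) < ((n : ℝ) + 1) ^ N := by positivity
    have h7 : (c * ((d' : ℝ) ^ d')⁻¹ * (((2 : ℝ) ^ n) ^ (1 - r) * ((n : ℝ) + 1) ^ (d' - N))) *
        ((n : ℝ) + 1) ^ N ≤ R * ((n : ℝ) + 1) ^ N := by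
      refine le_trans (le_of_eq ?_) h5
      ring
    have h8 := le_of_mul_le_mul_right h7 h6
    rw [neg_sub]
    exact h8

theorem lower_final {d' : ℕ} {r : ℝ} (hr : 1 < r) {N : ℕ} (hN : N ≤ d')
    (hP : N = d' ∨ ¬ PosPolyVanishes (d' + 1) r (N + 1)) :
    ∃ c : ℝ, 0 < c ∧ ∀ m : ℕ, 2 ≤ m →
      ENNReal.ofReal (c * ((m : ℝ) ^ (-(r - 1)) * (Real.log m) ^ (r * d' - N))) ≤
        orthowidth (d' + 1) r m := by
  obtain ⟨c, hc, hcore⟩ := core_lower hr hN hP
  have hr1 : 0 ≤ r - 1 := by linarith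
  have hα : 0 ≤ r * d' - N := by
    have h1 : (N : ℝ) ≤ d' := by exact_mod_cast hN
    have h2 : (0 : ℝ) ≤ d' := Nat.cast_nonneg _
    nlinarith
  set α : ℝ := r * d' - N with hαdef
  have hlog2 : 0 < Real.log 2 := Real.log_pos (by norm_num)
  have hdd : (0 : ℝ) < ((d' : ℝ) ^ d') := by
    rcases Nat.eq_zero_or_pos d' with h0 | h0
    · subst h0; simp
    · positivity
  set A : ℝ := 2 ^ (d' + 2) * (d' : ℝ) ^ d' with hA
  have hA0 : 0 < A := by positivity
  set D : ℝ := (((d' : ℝ) + 1) * Real.log 2)⁻¹ with hD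
  have hD0 : 0 < D := by positivity
  refine ⟨c * (A ^ (-(r - 1)) * D ^ α), by positivity, ?_⟩
  intro m hm
  have hm2 : (2 : ℝ) ≤ m := by exact_mod_cast hm
  have hm0 : (0 : ℝ) < m := by linarith
  have hlogm0 : 0 < Real.log m := Real.log_pos (by linarith)
  -- choice of n
  have hex : ∃ n, 2 * m ≤ (n / d' + 1) ^ d' * 2 ^ n := ⟨m + 1, by
    have h1 : 1 ≤ ((m + 1) / d' + 1) ^ d' := Nat.one_le_pow _ _ (Nat.succ_pos _)
    have h2 : m < 2 ^ m := Nat.lt_two_pow_self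
    calc 2 * m ≤ 1 * 2 ^ (m + 1) := by rw [pow_succ]; omega
      _ ≤ _ := Nat.mul_le_mul_right _ h1⟩
  classical
  obtain ⟨n0, hn⟩ : ∃ n0, Nat.find hex = n0 + 1 := by
    have : Nat.find hex ≠ 0 := by
      intro h0
      have := Nat.find_spec hex
      rw [h0] at this
      simp only [Nat.zero_div, zero_add, one_pow, pow_zero, mul_one] at this
      omega
    exact ⟨Nat.find hex - 1, by omega⟩
  have hn1 : 2 * m ≤ ((n0 + 1) / d' + 1) ^ d' * 2 ^ (n0 + 1) := by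
    have := Nat.find_spec hex
    rwa [hn] at this
  have hn0 : (n0 / d' + 1) ^ d' * 2 ^ n0 ≤ 2 * m := by
    have := Nat.find_min hex (m := n0) (by omega)
    omega
  set n : ℕ := n0 + 1 with hndef
  have hnpos : (0 : ℝ) < (n : ℝ) + 1 := by positivity
  -- upper bound of 2^n
  have hup : ((n : ℝ) + 1) ^ d' * 2 ^ n ≤ A * m := by
    have h1 : ((n0 / d' + 1 : ℕ) : ℝ) ^ d' * 2 ^ n0 ≤ 2 * m := by exact_mod_cast hn0
    have h2 := div_succ_mul n0 d'
    have h3 : (n : ℝ) + 1 ≤ 2 * ((n0 : ℝ) + 1) := by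
      rw [hndef]; push_cast; linarith [Nat.cast_nonneg (α := ℝ) n0]
    calc ((n : ℝ) + 1) ^ d' * 2 ^ n ≤ (2 * ((n0 : ℝ) + 1)) ^ d' * 2 ^ n := by
          apply mul_le_mul_of_nonneg_right _ (by positivity)
          exact pow_le_pow_left₀ hnpos.le h3 _
      _ = 2 ^ d' * ((n0 : ℝ) + 1) ^ d' * (2 * 2 ^ n0) := by rw [mul_pow, hndef]; ring
      _ ≤ 2 ^ d' * ((d' : ℝ) ^ d' * ((n0 / d' + 1 : ℕ) : ℝ) ^ d') * (2 * 2 ^ n0) := by
          apply mul_le_mul_of_nonneg_right _ (by positivity)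
          exact mul_le_mul_of_nonneg_left h2 (by positivity)
      _ = 2 ^ (d' + 1) * (d' : ℝ) ^ d' * (((n0 / d' + 1 : ℕ) : ℝ) ^ d' * 2 ^ n0) := by ring
      _ ≤ 2 ^ (d' + 1) * (d' : ℝ) ^ d' * (2 * m) := mul_le_mul_of_nonneg_left h1 (by positivity)
      _ = A * m := by rw [hA]; ring
  have hlow : A ^ (-(r - 1)) * (m : ℝ) ^ (-(r - 1)) * (((n : ℝ) + 1) ^ d') ^ (r - 1) ≤
      ((2 : ℝ) ^ n) ^ (-(r - 1)) := by
    have h1 := Real.rpow_le_rpow (by positivity) hup hr1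
    rw [Real.mul_rpow (by positivity) (by positivity), Real.mul_rpow (by positivity) (by positivity)]
      at h1
    rw [Real.rpow_neg (by positivity), Real.rpow_neg (by positivity), Real.rpow_neg (by positivity)]
    have h2 : (0 : ℝ) < (m : ℝ) ^ (r - 1) := by positivity
    have h3 : (0 : ℝ) < A ^ (r - 1) := by positivity
    have h4 : (0 : ℝ) < ((2 : ℝ) ^ n) ^ (r - 1) := by positivity
    rw [← mul_inv, inv_mul_le_iff₀ (by positivity), ← div_eq_mul_inv, le_div_iff₀ h4]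
    exact h1
  have hlog : Real.log m * D ≤ (n : ℝ) + 1 := by
    rw [hD, ← div_eq_mul_inv, div_le_iff₀ (by positivity)]
    have h1 : m ≤ 2 ^ ((n + 1) * (d' + 1)) := by
      have h2 : (n / d' + 1) ≤ 2 ^ (n + 1) := by
        have h3 : n / d' ≤ n := Nat.div_le_self _ _
        have h4 : n + 1 < 2 ^ (n + 1) := Nat.lt_two_pow_self
        omega
      calc m ≤ 2 * m := by omega
        _ ≤ (n / d' + 1) ^ d' * 2 ^ n := hn1
        _ ≤ (2 ^ (n + 1)) ^ d' * 2 ^ (n + 1) :=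
            Nat.mul_le_mul (Nat.pow_le_pow_left h2 _) (Nat.pow_le_pow_right (by norm_num) (by omega))
        _ = 2 ^ ((n + 1) * (d' + 1)) := by rw [← pow_mul, ← pow_add]; ring_nf
    have h5 : (m : ℝ) ≤ (2 : ℝ) ^ ((n + 1) * (d' + 1)) := by exact_mod_cast h1
    have h6 := Real.log_le_log hm0 h5
    rw [Real.log_pow] at h6
    push_cast at h6
    linarith
  have hlogα : (Real.log m) ^ α * D ^ α ≤ ((n : ℝ) + 1) ^ α := by
    rw [← Real.mul_rpow hlogm0.le hD0.le]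
    exact Real.rpow_le_rpow (by positivity) hlog hα
  -- reduction to a single system
  unfold orthowidth
  refine le_iInf₂ fun u hu => ?_
  set S : ℝ≥0∞ := ⨆ f ∈ W1 (d' + 1) r,
    eLpNorm (fun x => f x - ∑ i, (∫ y, f y * conj (u i y) ∂(muT (d' + 1))) * u i x) ⊤ (muT (d' + 1))
    with hS
  by_cases hStop : S = ⊤
  · rw [hStop]; exact le_top
  · have hSR : S = ENNReal.ofReal S.toReal := (ENNReal.ofReal_toReal hStop).symm
    have hach : Achieves r u S.toReal := by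
      intro f hf
      rw [← hSR, hS]
      exact le_iSup₂ (f := fun f (_ : f ∈ W1 (d' + 1) r) =>
        eLpNorm (fun x => f x - ∑ i, (∫ y, f y * conj (u i y) ∂(muT (d' + 1))) * u i x) ⊤
          (muT (d' + 1))) f hf
    have h1 := hcore n m u S.toReal hu ENNReal.toReal_nonneg hach hn1
    rw [hSR]
    apply ENNReal.ofReal_le_ofReal
    refine le_trans ?_ h1
    calc c * (A ^ (-(r - 1)) * D ^ α) * ((m : ℝ) ^ (-(r - 1)) * (Real.log m) ^ α)
        = c * (A ^ (-(r - 1)) * (m : ℝ) ^ (-(r - 1)) * ((Real.log m) ^ α * D ^ α)) := by ring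
      _ ≤ c * (A ^ (-(r - 1)) * (m : ℝ) ^ (-(r - 1)) * ((n : ℝ) + 1) ^ α) := by
          apply mul_le_mul_of_nonneg_left _ hc.le
          exact mul_le_mul_of_nonneg_left hlogα (by positivity)
      _ = c * ((A ^ (-(r - 1)) * (m : ℝ) ^ (-(r - 1)) * (((n : ℝ) + 1) ^ d') ^ (r - 1)) *
            ((n : ℝ) + 1) ^ (d' - N)) := by rw [← pow_combine hnpos hN]; ring
      _ ≤ c * (((2 : ℝ) ^ n) ^ (-(r - 1)) * ((n : ℝ) + 1) ^ (d' - N)) := by
          apply mul_le_mul_of_nonneg_left _ hc.le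
          exact mul_le_mul_of_nonneg_right hlow (by positivity)

end Pool.Agent.Helper935.OW
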