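import Pool.Agent.Helper935.OW.Defs

open MeasureTheory
open scoped ENNReal ComplexConjugate

namespace Pool.Agent.Helper935.OW

/-- exponential `e^{ikt}` -/
noncomputable def e (k : ℤ) (t : ℝ) : ℂ := Complex.exp (((k : ℝ) * t : ℝ) * Complex.I)

lemma norm_e (k : ℤ) (t : ℝ) : ‖e k t‖ = 1 := Complex.norm_exp_ofReal_mul_I _

lemma e_zero (t : ℝ) : e 0 t = 1 := by simp [e]

lemma e_add (k l : ℤ) (t : ℝ) : e (k + l) t = e k t * e l t := by
  unfold e; rw [← Complex.exp_add]; congr 1; push_cast; ring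

lemma e_arg_zero (k : ℤ) : e k 0 = 1 := by simp [e]

lemma e_arg_add (k : ℤ) (s t : ℝ) : e k (s + t) = e k s * e k t := by
  unfold e; rw [← Complex.exp_add]; congr 1; push_cast; ring

lemma e_arg_sub (k : ℤ) (s t : ℝ) : e k (s - t) = e k s * e (-k) t := by
  unfold e; rw [← Complex.exp_add]; congr 1; push_cast; ring

lemma conj_e (k : ℤ) (t : ℝ) : conj (e k t) = e (-k) t := by
  unfold e; rw [← Complex.exp_conj]; congr 1; simp

lemma e_mul_neg (k : ℤ) (t : ℝ) : e k t * e (-k) t = 1 := by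
  rw [← e_add]; simp [e_zero]

lemma e_ne_zero (k : ℤ) (t : ℝ) : e k t ≠ 0 := Complex.exp_ne_zero _

lemma continuous_e (k : ℤ) : Continuous (e k) := by unfold e; fun_prop

lemma e_periodic (k : ℤ) : Function.Periodic (e k) (2 * Real.pi) := by
  intro t
  rw [e_arg_add]
  have : e k (2 * Real.pi) = 1 := by
    unfold e
    rw [Complex.exp_eq_one_iff]
    exact ⟨k, by push_cast; ring⟩
  rw [this, mul_one]

lemma e_natCast (k : ℕ) (t : ℝ) : e (k : ℤ) t = (e 1 t) ^ k := by
  unfold e; rw [← Complex.exp_nat_mul]; congr 1; push_cast; ring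

lemma mu1_univ : mu1 Set.univ = 1 := by
  have h : (0 : ℝ) < 2 * Real.pi := by positivity
  unfold mu1
  simp only [Measure.smul_apply, Measure.restrict_apply MeasurableSet.univ, Set.univ_inter,
    Real.volume_Ico, smul_eq_mul, sub_zero]
  exact ENNReal.inv_mul_cancel (by simpa using h) ENNReal.ofReal_ne_top

instance : IsProbabilityMeasure mu1 := ⟨mu1_univ⟩

instance (d : ℕ) : IsProbabilityMeasure (muT d) := by
  unfold muT; infer_instance

lemma integral_mu1 (f : ℝ → ℂ) :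
    ∫ t, f t ∂mu1 = (((2 * Real.pi)⁻¹ : ℝ) : ℂ) * ∫ t in (0 : ℝ)..(2 * Real.pi), f t := by
  have h : (0 : ℝ) < 2 * Real.pi := by positivity
  unfold mu1
  rw [integral_smul_measure, intervalIntegral.integral_of_le h.le, integral_Ico_eq_integral_Ioc]
  rw [ENNReal.toReal_inv, ENNReal.toReal_ofReal h.le]
  simp

lemma integral_mu1_real (f : ℝ → ℝ) :
    ∫ t, f t ∂mu1 = (2 * Real.pi)⁻¹ * ∫ t in (0 : ℝ)..(2 * Real.pi), f t := by
  have h : (0 : ℝ) < 2 * Real.pi := by positivity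
  unfold mu1
  rw [integral_smul_measure, intervalIntegral.integral_of_le h.le, integral_Ico_eq_integral_Ioc]
  rw [ENNReal.toReal_inv, ENNReal.toReal_ofReal h.le]
  simp

lemma integral_e (k : ℤ) : ∫ t, e k t ∂mu1 = if k = 0 then 1 else 0 := by
  have h : (0 : ℝ) < 2 * Real.pi := by positivity
  rw [integral_mu1]
  split_ifs with hk
  · subst hk
    simp only [e_zero]
    simp only [intervalIntegral.integral_const, sub_zero, Complex.real_smul, mul_one]
    rw [← Complex.ofReal_mul, inv_mul_cancel₀ h.ne']; simp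
  · have hk' : (k : ℂ) * Complex.I ≠ 0 := mul_ne_zero (by exact_mod_cast hk) Complex.I_ne_zero
    have : ∀ t : ℝ, e k t = Complex.exp ((k : ℂ) * Complex.I * t) := by
      intro t; unfold e; congr 1; push_cast; ring
    simp only [this]
    rw [integral_exp_mul_complex hk']
    have h1 : Complex.exp ((k : ℂ) * Complex.I * ((2 * Real.pi : ℝ) : ℂ)) = 1 := by
      rw [Complex.exp_eq_one_iff]
      exact ⟨k, by push_cast; ring⟩
    rw [h1]
    simp

lemma integrable_of_cont_bdd {f : ℝ → ℂ} (hf : Continuous f) (C : ℝ) (hC : ∀ t, ‖f t‖ ≤ C) :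
    Integrable f mu1 :=
  (integrable_const C).mono' hf.aestronglyMeasurable (Filter.Eventually.of_forall hC)

lemma integrable_e (k : ℤ) : Integrable (e k) mu1 :=
  integrable_of_cont_bdd (continuous_e k) 1 (fun t => (norm_e k t).le)

/-- the Fourier coefficients of the kernel -/
noncomputable def h (r : ℝ) (k : ℤ) : ℂ :=
  if k = 0 then 1 else
    (((|k| : ℤ) : ℝ) ^ (-r) : ℝ) * Complex.exp ((-(Int.sign k : ℝ) * (r * Real.pi / 2) : ℝ) * Complex.I)

lemma h_zero (r : ℝ) : h r 0 = 1 := by simp [h]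

lemma h_pos (r : ℝ) (n : ℕ) : h r ((n : ℤ) + 1) =
    (((n : ℝ) + 1) ^ (-r) : ℝ) * Complex.exp ((-(r * Real.pi / 2) : ℝ) * Complex.I) := by
  unfold h
  rw [if_neg (by positivity)]
  have h1 : Int.sign ((n : ℤ) + 1) = 1 := Int.sign_eq_one_of_pos (by positivity)
  have h2 : |(n : ℤ) + 1| = n + 1 := abs_of_pos (by positivity)
  rw [h1, h2]
  push_cast; ring_nf

lemma h_neg (r : ℝ) (n : ℕ) : h r (-((n : ℤ) + 1)) =
    (((n : ℝ) + 1) ^ (-r) : ℝ) * Complex.exp (((r * Real.pi / 2) : ℝ) * Complex.I) := by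
  unfold h
  rw [if_neg (by omega)]
  have h1 : Int.sign (-((n : ℤ) + 1)) = -1 := by
    rw [Int.sign_neg]; rw [Int.sign_eq_one_of_pos (by positivity)]
  have h2 : |-((n : ℤ) + 1)| = n + 1 := by rw [abs_neg]; exact abs_of_pos (by positivity)
  rw [h1, h2]
  push_cast; ring_nf

lemma norm_h_of_ne (r : ℝ) {k : ℤ} (hk : k ≠ 0) : ‖h r k‖ = ((|k| : ℤ) : ℝ) ^ (-r) := by
  unfold h
  rw [if_neg hk, norm_mul, Complex.norm_exp_ofReal_mul_I, mul_one, Complex.norm_real,
    Real.norm_of_nonneg]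
  positivity

lemma norm_h_le_one {r : ℝ} (hr : 0 ≤ r) (k : ℤ) : ‖h r k‖ ≤ 1 := by
  by_cases hk : k = 0
  · subst hk; simp [h_zero]
  · rw [norm_h_of_ne r hk]
    apply Real.rpow_le_one_of_one_le_of_nonpos
    · have : (1 : ℤ) ≤ |k| := Int.one_le_abs hk
      exact_mod_cast this
    · linarith

/-- termwise form of the kernel -/
lemma term_eq (r t : ℝ) (n : ℕ) :
    ((2 * (((n : ℝ) + 1) ^ (-r) * Real.cos (((n : ℝ) + 1) * t - r * Real.pi / 2)) : ℝ) : ℂ) =
      h r ((n : ℤ) + 1) * e ((n : ℤ) + 1) t + h r (-((n : ℤ) + 1)) * e (-((n : ℤ) + 1)) t := by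
  rw [h_pos, h_neg]
  unfold e
  push_cast
  rw [Complex.cos]
  have e1 : Complex.exp ((((n : ℂ) + 1) * t - r * Real.pi / 2) * Complex.I) =
      Complex.exp (-(r * Real.pi / 2) * Complex.I) * Complex.exp (((n : ℂ) + 1) * t * Complex.I) := by
    rw [← Complex.exp_add]; congr 1; ring
  have e2 : Complex.exp (-(((n : ℂ) + 1) * t - r * Real.pi / 2) * Complex.I) =
      Complex.exp ((r * Real.pi / 2) * Complex.I) * Complex.exp ((-((n : ℂ) + 1)) * t * Complex.I) := by
    rw [← Complex.exp_add]; congr 1; ring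
  rw [e1, e2]
  ring_nf

lemma summable_base {r : ℝ} (hr : 1 < r) : Summable (fun n : ℕ => ((n : ℝ) + 1) ^ (-r)) := by
  have := (summable_nat_add_iff 1).mpr (Real.summable_nat_rpow (p := -r) |>.mpr (by linarith))
  simpa using this

lemma summable_term {r : ℝ} (hr : 1 < r) (t : ℝ) :
    Summable (fun n : ℕ => ((n : ℝ) + 1) ^ (-r) * Real.cos (((n : ℝ) + 1) * t - r * Real.pi / 2)) := by
  apply Summable.of_norm_bounded (summable_base hr)
  intro n
  rw [norm_mul, Real.norm_eq_abs, Real.norm_eq_abs, abs_of_nonneg (by positivity)]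
  exact mul_le_of_le_one_right (by positivity) (Real.abs_cos_le_one _)

/-- finite sums over `|k| <= M` -/
lemma sum_Icc_symm (g : ℤ → ℂ) (M : ℕ) :
    ∑ k ∈ Finset.Icc (-(M : ℤ)) M, g k =
      g 0 + ∑ n ∈ Finset.range M, (g ((n : ℤ) + 1) + g (-((n : ℤ) + 1))) := by
  induction M with
  | zero => simp
  | succ M ih =>
    rw [Finset.sum_range_succ, ← add_assoc, ← ih]
    have : Finset.Icc (-((M + 1 : ℕ) : ℤ)) ((M + 1 : ℕ) : ℤ) =
        insert ((M : ℤ) + 1) (insert (-((M : ℤ) + 1)) (Finset.Icc (-(M : ℤ)) M)) := by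
      ext x
      simp only [Finset.mem_Icc, Finset.mem_insert]
      push_cast
      constructor
      · rintro ⟨h1, h2⟩
        by_cases h3 : x = M + 1
        · left; exact h3
        by_cases h4 : x = -((M : ℤ) + 1)
        · right; left; exact h4
        right; right; omega
      · rintro (h1 | h1 | h1) <;> omega
    rw [this, Finset.sum_insert, Finset.sum_insert]
    · ring
    · simp only [Finset.mem_Icc]; omega
    · simp only [Finset.mem_Icc, Finset.mem_insert]; omega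

lemma tendsto_F1 {r : ℝ} (hr : 1 < r) (t : ℝ) :
    Filter.Tendsto (fun M : ℕ => ∑ k ∈ Finset.Icc (-(M : ℤ)) M, h r k * e k t) Filter.atTop
      (nhds (F1 r t : ℂ)) := by
  have h1 : (F1 r t : ℂ) = h r 0 * e 0 t + ∑' n : ℕ,
      (h r ((n : ℤ) + 1) * e ((n : ℤ) + 1) t + h r (-((n : ℤ) + 1)) * e (-((n : ℤ) + 1)) t) := by
    unfold F1
    rw [← tsum_mul_left]
    push_cast
    rw [h_zero, e_zero, one_mul]
    congr 1
    apply tsum_congr
    intro n
    rw [← term_eq]
    push_cast; ring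
  rw [h1]
  have h2 : Summable (fun n : ℕ => (h r ((n : ℤ) + 1) * e ((n : ℤ) + 1) t +
      h r (-((n : ℤ) + 1)) * e (-((n : ℤ) + 1)) t)) := by
    have := ((summable_term hr t).mul_left 2)
    have h3 := Complex.ofRealCLM.summable this
    refine h3.congr ?_
    intro n
    rw [← term_eq]
    simp
  have h3 := (h2.hasSum.tendsto_sum_nat).const_add (h r 0 * e 0 t)
  refine h3.congr ?_
  intro M
  rw [sum_Icc_symm (fun k => h r k * e k t)]


lemma norm_F1_le {r : ℝ} (hr : 1 < r) : ∃ C : ℝ, 0 < C ∧ ∀ t, |F1 r t| ≤ C := by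
  refine ⟨1 + 2 * ∑' n : ℕ, ((n : ℝ) + 1) ^ (-r), ?_, ?_⟩
  · have : 0 ≤ ∑' n : ℕ, ((n : ℝ) + 1) ^ (-r) := tsum_nonneg (fun n => by positivity)
    linarith
  · intro t
    unfold F1
    have h1 : |∑' k : ℕ, ((k : ℝ) + 1) ^ (-r) * Real.cos (((k : ℝ) + 1) * t - r * Real.pi / 2)| ≤
        ∑' n : ℕ, ((n : ℝ) + 1) ^ (-r) := by
      have h2 := (tsum_of_norm_bounded (summable_base hr).hasSum
        (f := fun k : ℕ => ((k : ℝ) + 1) ^ (-r) * Real.cos (((k : ℝ) + 1) * t - r * Real.pi / 2))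
        (fun n => by
          rw [norm_mul, Real.norm_eq_abs, Real.norm_eq_abs, abs_of_nonneg (by positivity)]
          exact mul_le_of_le_one_right (by positivity) (Real.abs_cos_le_one _)))
      simpa using h2
    calc |1 + 2 * ∑' k : ℕ, ((k : ℝ) + 1) ^ (-r) * Real.cos (((k : ℝ) + 1) * t - r * Real.pi / 2)|
        ≤ |1| + |2 * ∑' k : ℕ, ((k : ℝ) + 1) ^ (-r) * Real.cos (((k : ℝ) + 1) * t - r * Real.pi / 2)| :=
          abs_add_le _ _
      _ ≤ _ := by rw [abs_one, abs_mul, abs_two]; linarith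

lemma continuous_F1 {r : ℝ} (hr : 1 < r) : Continuous (F1 r) := by
  unfold F1
  refine continuous_const.add (continuous_const.mul ?_)
  refine continuous_tsum (u := fun n : ℕ => ((n : ℝ) + 1) ^ (-r)) (fun n => by fun_prop)
    (summable_base hr) ?_
  intro n t
  rw [norm_mul, Real.norm_eq_abs, Real.norm_eq_abs, abs_of_nonneg (by positivity)]
  exact mul_le_of_le_one_right (by positivity) (Real.abs_cos_le_one _)

/-- general termwise integration -/
lemma hasSum_integral_F1 {r : ℝ} (hr : 1 < r) (a : ℝ → ℝ) (ha : Continuous a) (g : ℝ → ℂ)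
    (hg : Continuous g) (hg1 : ∀ t, ‖g t‖ ≤ 1) :
    ∫ t, (F1 r (a t) : ℂ) * g t ∂mu1 = (∫ t, g t ∂mu1) + ∑' n : ℕ,
      (h r ((n : ℤ) + 1) * (∫ t, e ((n : ℤ) + 1) (a t) * g t ∂mu1) +
        h r (-((n : ℤ) + 1)) * (∫ t, e (-((n : ℤ) + 1)) (a t) * g t ∂mu1)) := by
  have hterm : ∀ t, (F1 r (a t) : ℂ) * g t = g t + ∑' n : ℕ,
      (h r ((n : ℤ) + 1) * (e ((n : ℤ) + 1) (a t) * g t) +
        h r (-((n : ℤ) + 1)) * (e (-((n : ℤ) + 1)) (a t) * g t)) := by
    intro t
    unfold F1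
    rw [← tsum_mul_left]
    push_cast
    rw [add_mul, one_mul, ← tsum_mul_right]
    congr 1
    apply tsum_congr
    intro n
    have := term_eq r (a t) n
    push_cast at this
    rw [this]; ring
  have hb : ∀ n : ℕ, ∀ t, ‖h r ((n : ℤ) + 1) * (e ((n : ℤ) + 1) (a t) * g t) +
        h r (-((n : ℤ) + 1)) * (e (-((n : ℤ) + 1)) (a t) * g t)‖ ≤ 2 * ((n : ℝ) + 1) ^ (-r) := by
    intro n t
    have h1 : ‖h r ((n : ℤ) + 1)‖ = ((n : ℝ) + 1) ^ (-r) := by
      rw [norm_h_of_ne r (by omega)]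
      rw [abs_of_pos (by positivity)]
      push_cast; rfl
    have h2 : ‖h r (-((n : ℤ) + 1))‖ = ((n : ℝ) + 1) ^ (-r) := by
      rw [norm_h_of_ne r (by omega)]
      rw [abs_neg, abs_of_pos (by positivity)]
      push_cast; rfl
    refine (norm_add_le _ _).trans ?_
    rw [norm_mul, norm_mul, norm_mul, norm_mul, h1, h2, norm_e, norm_e, one_mul]
    have h3 := hg1 t
    have h4 : (0 : ℝ) ≤ ((n : ℝ) + 1) ^ (-r) := by positivity
    nlinarith [mul_le_mul_of_nonneg_left h3 h4]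
  have hcont : ∀ n : ℕ, Continuous (fun t => h r ((n : ℤ) + 1) * (e ((n : ℤ) + 1) (a t) * g t) +
        h r (-((n : ℤ) + 1)) * (e (-((n : ℤ) + 1)) (a t) * g t)) := by
    intro n
    have h1 := (continuous_e ((n : ℤ) + 1)).comp ha
    have h2 := (continuous_e (-((n : ℤ) + 1))).comp ha
    exact (continuous_const.mul (h1.mul hg)).add (continuous_const.mul (h2.mul hg))
  have hint : ∀ n : ℕ, Integrable (fun t => h r ((n : ℤ) + 1) * (e ((n : ℤ) + 1) (a t) * g t) +
        h r (-((n : ℤ) + 1)) * (e (-((n : ℤ) + 1)) (a t) * g t)) mu1 := fun n =>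
    integrable_of_cont_bdd (hcont n) _ (hb n)
  have hs : Summable (fun n : ℕ => 2 * ((n : ℝ) + 1) ^ (-r)) := (summable_base hr).mul_left 2
  have hsum := hasSum_integral_of_summable_integral_norm hint (by
    refine Summable.of_nonneg_of_le (fun n => integral_nonneg (fun t => norm_nonneg _)) ?_ hs
    intro n
    have := integral_mono (hint n).norm (integrable_const (2 * ((n : ℝ) + 1) ^ (-r))) (hb n)
    simpa using this)
  have hi1 : Integrable g mu1 := integrable_of_cont_bdd hg 1 hg1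
  have hi2 : Integrable (fun t => ∑' n : ℕ,
      (h r ((n : ℤ) + 1) * (e ((n : ℤ) + 1) (a t) * g t) +
        h r (-((n : ℤ) + 1)) * (e (-((n : ℤ) + 1)) (a t) * g t))) mu1 := by
    refine integrable_of_cont_bdd (continuous_tsum hcont hs hb) (∑' n : ℕ, 2 * ((n : ℝ) + 1) ^ (-r)) ?_
    intro t
    exact tsum_of_norm_bounded hs.hasSum (fun n => hb n t)
  simp only [hterm]
  rw [integral_add hi1 hi2]
  congr 1
  rw [← hsum.tsum_eq]
  apply tsum_congr
  intro n
  have h1 := (continuous_e ((n : ℤ) + 1)).comp ha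
  have h2 := (continuous_e (-((n : ℤ) + 1))).comp ha
  rw [integral_add, integral_const_mul, integral_const_mul]
  · exact (integrable_of_cont_bdd (h1.mul hg) 1 (fun t => by
      show ‖e ((n : ℤ) + 1) (a t) * g t‖ ≤ 1
      rw [norm_mul, norm_e, one_mul]; exact hg1 t)).const_mul _
  · exact (integrable_of_cont_bdd (h2.mul hg) 1 (fun t => by
      show ‖e (-((n : ℤ) + 1)) (a t) * g t‖ ≤ 1
      rw [norm_mul, norm_e, one_mul]; exact hg1 t)).const_mul _

lemma tsum_single_aux (r : ℝ) (k : ℤ) (c : ℂ) :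
    (if k = 0 then c else 0) + ∑' n : ℕ,
      (h r ((n : ℤ) + 1) * (if k = (n : ℤ) + 1 then c else 0) +
        h r (-((n : ℤ) + 1)) * (if k = -((n : ℤ) + 1) then c else 0)) = h r k * c := by
  rcases lt_trichotomy k 0 with hk | hk | hk
  · obtain ⟨n, hn⟩ : ∃ n : ℕ, k = -((n : ℤ) + 1) := ⟨(-k - 1).toNat, by omega⟩
    rw [if_neg hk.ne, zero_add, tsum_eq_single n]
    · rw [if_neg (by omega), if_pos hn, hn]; ring
    · intro m hm
      rw [if_neg (by omega), if_neg (by omega)]; ring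
  · subst hk
    rw [if_pos rfl, h_zero, one_mul]
    have : ∀ n : ℕ, (h r ((n : ℤ) + 1) * (if (0 : ℤ) = (n : ℤ) + 1 then c else 0) +
        h r (-((n : ℤ) + 1)) * (if (0 : ℤ) = -((n : ℤ) + 1) then c else 0)) = 0 := by
      intro n
      rw [if_neg (by omega), if_neg (by omega)]; ring
    simp only [this, tsum_zero, add_zero]
  · obtain ⟨n, hn⟩ : ∃ n : ℕ, k = ((n : ℤ) + 1) := ⟨(k - 1).toNat, by omega⟩
    rw [if_neg hk.ne', zero_add, tsum_eq_single n]
    · rw [if_pos hn, if_neg (by omega), hn]; ring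
    · intro m hm
      rw [if_neg (by omega), if_neg (by omega)]; ring

/-- `∫ F_r(x - y) e^{iky} dy = h(k) e^{ikx}` -/
lemma conv_F1 {r : ℝ} (hr : 1 < r) (k : ℤ) (x : ℝ) :
    ∫ y, (F1 r (x - y) : ℂ) * e k y ∂mu1 = h r k * e k x := by
  rw [hasSum_integral_F1 hr (fun y => x - y) (by fun_prop) (e k) (continuous_e k)
    (fun t => (norm_e k t).le)]
  have h1 : ∀ l : ℤ, ∫ y, e l (x - y) * e k y ∂mu1 = if k = l then e k x else 0 := by
    intro l
    have : ∀ y, e l (x - y) * e k y = e l x * e (k - l) y := by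
      intro y
      rw [e_arg_sub, mul_assoc, ← e_add]; congr 2; ring
    simp only [this]
    rw [integral_const_mul, integral_e]
    by_cases hkl : k = l
    · subst hkl; simp
    · rw [if_neg (by omega), if_neg hkl]; simp
  simp only [h1, integral_e]
  have h2 := tsum_single_aux r k (e k x)
  rw [← h2]
  congr 1
  by_cases hk : k = 0
  · subst hk; simp [e_zero]
  · rw [if_neg hk, if_neg hk]

/-- `∫ F_r(x - y) conj e^{ikx} dx = h(k) conj e^{iky}` -/
lemma conv_F1' {r : ℝ} (hr : 1 < r) (k : ℤ) (y : ℝ) :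
    ∫ x, (F1 r (x - y) : ℂ) * e (-k) x ∂mu1 = h r k * e (-k) y := by
  rw [hasSum_integral_F1 hr (fun x => x - y) (by fun_prop) (e (-k)) (continuous_e (-k))
    (fun t => (norm_e (-k) t).le)]
  have h1 : ∀ l : ℤ, ∫ x, e l (x - y) * e (-k) x ∂mu1 = if k = l then e (-k) y else 0 := by
    intro l
    have : ∀ x, e l (x - y) * e (-k) x = e (-l) y * e (l - k) x := by
      intro x
      rw [e_arg_sub, mul_assoc, mul_comm (e (-l) y), ← mul_assoc, ← e_add]
      rw [show l + -k = l - k by ring]; ring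
    simp only [this]
    rw [integral_const_mul, integral_e]
    by_cases hkl : k = l
    · subst hkl; simp
    · rw [if_neg (by omega), if_neg hkl]; simp
  simp only [h1, integral_e]
  have h2 := tsum_single_aux r k (e (-k) y)
  rw [← h2]
  congr 1
  by_cases hk : k = 0
  · subst hk; simp [e_zero]
  · rw [if_neg hk, if_neg (by omega)]

end Pool.Agent.Helper935.OW
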