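import Pool.Agent.Helper935.OW.Fourier

open MeasureTheory
open scoped ENNReal ComplexConjugate

namespace Pool.Agent.Helper935.OW

/-- Abel summation bound -/
lemma abel_bound (g : ℕ → ℝ) (hg : Antitone g) (hg0 : ∀ n, 0 ≤ g n) (z : ℂ) (hz : ‖z‖ = 1) (n : ℕ) :
    ‖(1 - z) * ∑ k ∈ Finset.range n, (g k : ℂ) * z ^ k‖ ≤ 2 * g 0 := by
  cases n with
  | zero => simp; exact hg0 0
  | succ n =>
    have key : ‖(1 - z) * ∑ k ∈ Finset.range (n + 1), (g k : ℂ) * z ^ k + (g n : ℂ) * z ^ (n + 1)‖ ≤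
        2 * g 0 - g n := by
      induction n with
      | zero =>
        simp only [zero_add, Finset.range_one, Finset.sum_singleton, pow_zero, mul_one, pow_one]
        have : (1 - z) * (g 0 : ℂ) + (g 0 : ℂ) * z = (g 0 : ℂ) := by ring
        rw [this, Complex.norm_real, Real.norm_of_nonneg (hg0 0)]; linarith
      | succ n ih =>
        have h1 : (1 - z) * ∑ k ∈ Finset.range (n + 1 + 1), (g k : ℂ) * z ^ k +
            (g (n + 1) : ℂ) * z ^ (n + 1 + 1) =
            ((1 - z) * ∑ k ∈ Finset.range (n + 1), (g k : ℂ) * z ^ k + (g n : ℂ) * z ^ (n + 1)) +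
              ((g (n + 1) - g n : ℝ) : ℂ) * z ^ (n + 1) := by
          rw [Finset.sum_range_succ]; push_cast; ring
        rw [h1]
        refine (norm_add_le _ _).trans ?_
        rw [norm_mul, norm_pow, hz, one_pow, mul_one, Complex.norm_real, Real.norm_eq_abs,
          abs_of_nonpos (by have := hg (Nat.le_succ n); simp only [Nat.succ_eq_add_one] at this; linarith)]
        linarith
    have h2 : (1 - z) * ∑ k ∈ Finset.range (n + 1), (g k : ℂ) * z ^ k =
        ((1 - z) * ∑ k ∈ Finset.range (n + 1), (g k : ℂ) * z ^ k + (g n : ℂ) * z ^ (n + 1)) -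
          (g n : ℂ) * z ^ (n + 1) := by ring
    rw [h2]
    refine (norm_sub_le _ _).trans ?_
    rw [norm_mul (g n : ℂ), norm_pow, hz, one_pow, mul_one, Complex.norm_real,
      Real.norm_of_nonneg (hg0 n)]
    linarith

/-- Fejer weights -/
noncomputable def eta (N : ℕ) (k : ℤ) : ℝ := max 0 (1 - |(k : ℝ)| / N)

lemma eta_nonneg (N : ℕ) (k : ℤ) : 0 ≤ eta N k := le_max_left _ _

lemma eta_le_one (N : ℕ) (k : ℤ) : eta N k ≤ 1 := by
  unfold eta
  apply max_le (by norm_num)
  have : 0 ≤ |(k : ℝ)| / N := by positivity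
  linarith

lemma eta_ge_half {N : ℕ} {k : ℤ} (hk : 2 * |(k : ℝ)| ≤ N) : 1 / 2 ≤ eta N k := by
  unfold eta
  apply le_max_of_le_right
  rcases Nat.eq_zero_or_pos N with h | h
  · subst h; simp; norm_num
  · have hN : (0 : ℝ) < N := by exact_mod_cast h
    have : |(k : ℝ)| / N ≤ 1 / 2 := by rw [div_le_div_iff₀ hN (by norm_num)]; linarith
    linarith

lemma eta_neg (N : ℕ) (k : ℤ) : eta N (-k) = eta N k := by unfold eta; simp

lemma eta_zero (N : ℕ) : eta N 0 = 1 := by unfold eta; simp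

/-- the Fejer kernel -/
noncomputable def fej (N : ℕ) (t : ℝ) : ℂ := ∑ k ∈ Finset.Icc (-(N : ℤ)) N, (eta N k : ℂ) * e k t

lemma fej_identity (N : ℕ) (t : ℝ) :
    ∑ k ∈ Finset.Icc (-(N : ℤ)) N, (((N : ℝ) - |(k : ℝ)| : ℝ) : ℂ) * e k t =
      ((‖∑ j ∈ Finset.range N, e (j : ℤ) t‖ ^ 2 : ℝ) : ℂ) := by
  rw [sum_Icc_symm (fun k => (((N : ℝ) - |(k : ℝ)| : ℝ) : ℂ) * e k t)]
  have habs : ∀ n : ℕ, |(((n : ℤ) + 1 : ℤ) : ℝ)| = (n : ℝ) + 1 := by
    intro n; rw [abs_of_nonneg (by positivity)]; push_cast; ring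
  have habs' : ∀ n : ℕ, |((-((n : ℤ) + 1) : ℤ) : ℝ)| = (n : ℝ) + 1 := by
    intro n; push_cast; rw [abs_neg, abs_of_nonneg (by positivity)]
  simp only [habs, habs']
  induction N with
  | zero => simp
  | succ N ih =>
    have hnorm : ((‖∑ j ∈ Finset.range (N + 1), e (j : ℤ) t‖ ^ 2 : ℝ) : ℂ) =
        ((‖∑ j ∈ Finset.range N, e (j : ℤ) t‖ ^ 2 : ℝ) : ℂ) + 1 +
          ∑ n ∈ Finset.range N, (e ((n : ℤ) + 1) t + e (-((n : ℤ) + 1)) t) := by
      have h1 : ∀ w : ℂ, ((‖w‖ ^ 2 : ℝ) : ℂ) = w * conj w := by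
        intro w; rw [Complex.mul_conj, Complex.normSq_eq_norm_sq]
      rw [h1, h1, Finset.sum_range_succ, map_add]
      have h2 : e (N : ℤ) t * conj (e (N : ℤ) t) = 1 := by rw [conj_e, e_mul_neg]
      have h3 : e (N : ℤ) t * conj (∑ j ∈ Finset.range N, e (j : ℤ) t) =
          ∑ n ∈ Finset.range N, e ((n : ℤ) + 1) t := by
        rw [map_sum, Finset.mul_sum, ← Finset.sum_range_reflect]
        apply Finset.sum_congr rfl
        intro j hj
        rw [Finset.mem_range] at hj
        rw [conj_e, ← e_add]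
        congr 1
        have : ((N - 1 - j : ℕ) : ℤ) = N - 1 - j := by omega
        rw [this]; ring
      have h4 : (∑ j ∈ Finset.range N, e (j : ℤ) t) * conj (e (N : ℤ) t) =
          ∑ n ∈ Finset.range N, e (-((n : ℤ) + 1)) t := by
        rw [Finset.sum_mul, ← Finset.sum_range_reflect]
        apply Finset.sum_congr rfl
        intro j hj
        rw [Finset.mem_range] at hj
        rw [conj_e, ← e_add]
        congr 1
        have : ((N - 1 - j : ℕ) : ℤ) = N - 1 - j := by omega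
        rw [this]; ring
      rw [Finset.sum_add_distrib, ← h3, ← h4]
      linear_combination h2
    rw [hnorm, ← ih, Finset.sum_range_succ]
    have h5 : ∀ x ∈ Finset.range N,
        ((((N + 1 : ℕ) : ℝ) - ((x : ℝ) + 1) : ℝ) : ℂ) * e ((x : ℤ) + 1) t +
          ((((N + 1 : ℕ) : ℝ) - ((x : ℝ) + 1) : ℝ) : ℂ) * e (-((x : ℤ) + 1)) t =
        ((((N : ℝ) - ((x : ℝ) + 1) : ℝ) : ℂ) * e ((x : ℤ) + 1) t +
          (((N : ℝ) - ((x : ℝ) + 1) : ℝ) : ℂ) * e (-((x : ℤ) + 1)) t) +
        (e ((x : ℤ) + 1) t + e (-((x : ℤ) + 1)) t) := by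
      intro x _; push_cast; ring
    rw [Finset.sum_congr rfl h5, Finset.sum_add_distrib]
    simp only [Int.cast_zero, abs_zero, sub_zero, e_zero]
    push_cast
    ring

lemma fej_eq {N : ℕ} (hN : 0 < N) (t : ℝ) :
    fej N t = (((N : ℝ)⁻¹ * ‖∑ j ∈ Finset.range N, e (j : ℤ) t‖ ^ 2 : ℝ) : ℂ) := by
  have hN' : (0 : ℝ) < N := by exact_mod_cast hN
  rw [Complex.ofReal_mul, ← fej_identity, Finset.mul_sum]
  unfold fej
  apply Finset.sum_congr rfl
  intro k hk
  rw [Finset.mem_Icc] at hk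
  have h1 : |(k : ℝ)| ≤ N := by
    rw [abs_le]; constructor
    · have := hk.1; exact_mod_cast this
    · have := hk.2; exact_mod_cast this
  have h2 : eta N k = (N : ℝ)⁻¹ * ((N : ℝ) - |(k : ℝ)|) := by
    unfold eta
    rw [max_eq_right]
    · field_simp
    · have : |(k : ℝ)| / N ≤ 1 := by rw [div_le_one hN']; exact h1
      linarith
  rw [h2]; push_cast; ring

lemma norm_fej {N : ℕ} (hN : 0 < N) (t : ℝ) : ((‖fej N t‖ : ℝ) : ℂ) = fej N t := by
  rw [fej_eq hN, Complex.norm_real, Real.norm_of_nonneg (by positivity)]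

/-- shift invariance of the mean of periodic functions -/
lemma integral_shift {f : ℝ → ℝ} (hf : Function.Periodic f (2 * Real.pi)) (s : ℝ) :
    ∫ t, f (t - s) ∂mu1 = ∫ t, f t ∂mu1 := by
  rw [integral_mu1_real, integral_mu1_real]
  congr 1
  rw [intervalIntegral.integral_comp_sub_right (fun t => f t) s]
  have := hf.intervalIntegral_add_eq (0 - s) 0
  rw [zero_add] at this
  rw [← this]
  congr 1
  ring

lemma periodic_sum (A : Finset ℤ) (c : ℤ → ℂ) :
    Function.Periodic (fun t => ‖∑ k ∈ A, c k * e k t‖) (2 * Real.pi) := by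
  intro t
  simp only
  congr 1
  apply Finset.sum_congr rfl
  intro k _
  rw [e_periodic k t]

lemma continuous_sum_e (A : Finset ℤ) (c : ℤ → ℂ) :
    Continuous (fun t => ∑ k ∈ A, c k * e k t) :=
  continuous_finsetSum _ (fun k _ => continuous_const.mul (continuous_e k))

lemma norm_sum_e_le (A : Finset ℤ) (c : ℤ → ℂ) (t : ℝ) :
    ‖∑ k ∈ A, c k * e k t‖ ≤ ∑ k ∈ A, ‖c k‖ := by
  refine (norm_sum_le _ _).trans (Finset.sum_le_sum (fun k _ => ?_))
  rw [norm_mul, norm_e, mul_one]

lemma integrable_sum_e (A : Finset ℤ) (c : ℤ → ℂ) :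
    Integrable (fun t => ∑ k ∈ A, c k * e k t) mu1 :=
  integrable_of_cont_bdd (continuous_sum_e A c) _ (norm_sum_e_le A c)

lemma integral_norm_fej {N : ℕ} (hN : 0 < N) : ∫ t, ‖fej N t‖ ∂mu1 = 1 := by
  have h1 : ((∫ t, ‖fej N t‖ ∂mu1 : ℝ) : ℂ) = 1 := by
    have h0 := integral_ofReal (𝕜 := ℂ) (f := fun t => ‖fej N t‖) (μ := mu1)
    have : ∀ t, ((‖fej N t‖ : ℝ) : ℂ) = fej N t := norm_fej hN
    simp only [Complex.coe_algebraMap, this] at h0
    rw [← h0]
    unfold fej
    rw [integral_finsetSum _ (fun k _ => (integrable_e k).const_mul _)]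
    simp only [integral_const_mul, integral_e]
    rw [Finset.sum_eq_single 0]
    · simp [eta_zero N]
    · intro k _ hk; rw [if_neg hk, mul_zero]
    · intro hk; exact absurd (Finset.mem_Icc.mpr ⟨by omega, by omega⟩) hk
  exact_mod_cast h1

/-- one-sided kernel `sum_{1 <= k <= N} eta(k) e^{ikt}` -/
noncomputable def osk (N : ℕ) (t : ℝ) : ℂ :=
  ∑ n ∈ Finset.range N, (eta N ((n : ℤ) + 1) : ℂ) * e ((n : ℤ) + 1) t

lemma norm_osk_le_N (N : ℕ) (t : ℝ) : ‖osk N t‖ ≤ N := by
  unfold osk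
  refine (norm_sum_le _ _).trans ?_
  calc ∑ n ∈ Finset.range N, ‖(eta N ((n : ℤ) + 1) : ℂ) * e ((n : ℤ) + 1) t‖
      ≤ ∑ n ∈ Finset.range N, (1 : ℝ) := by
        apply Finset.sum_le_sum
        intro n _
        rw [norm_mul, norm_e, mul_one, Complex.norm_real, Real.norm_of_nonneg (eta_nonneg _ _)]
        exact eta_le_one _ _
    _ = N := by simp

lemma norm_osk_le_abel (N : ℕ) (t : ℝ) : ‖1 - e 1 t‖ * ‖osk N t‖ ≤ 2 := by
  have h1 : osk N t = e 1 t * ∑ n ∈ Finset.range N, (eta N ((n : ℤ) + 1) : ℂ) * (e 1 t) ^ n := by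
    unfold osk
    rw [Finset.mul_sum]
    apply Finset.sum_congr rfl
    intro n _
    rw [e_add, e_natCast]; ring
  have h2 := abel_bound (fun n => eta N ((n : ℤ) + 1)) (by
    intro a b hab
    simp only [eta]
    apply max_le_max le_rfl
    have h3 : |((((a : ℤ) + 1 : ℤ)) : ℝ)| ≤ |((((b : ℤ) + 1 : ℤ)) : ℝ)| := by
      rw [abs_of_nonneg (by positivity), abs_of_nonneg (by positivity)]
      push_cast
      have : (a : ℝ) ≤ b := by exact_mod_cast hab
      linarith
    have h4 : |((((a : ℤ) + 1 : ℤ)) : ℝ)| / N ≤ |((((b : ℤ) + 1 : ℤ)) : ℝ)| / N := by gcongr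
    linarith) (fun n => eta_nonneg _ _) (e 1 t) (norm_e 1 t) N
  rw [h1, norm_mul (e 1 t), norm_e, one_mul, ← norm_mul]
  refine h2.trans ?_
  have := eta_le_one N (((0 : ℕ) : ℤ) + 1)
  linarith

lemma norm_one_sub_e (t : ℝ) : ‖1 - e 1 t‖ = 2 * |Real.sin (t / 2)| := by
  have h1 : ‖1 - e 1 t‖ ^ 2 = (2 * |Real.sin (t / 2)|) ^ 2 := by
    rw [mul_pow, sq_abs, ← Complex.normSq_eq_norm_sq, Complex.normSq_apply]
    have hre : (1 - e 1 t).re = 1 - Real.cos t := by
      unfold e
      rw [Complex.sub_re, Complex.one_re, Complex.exp_ofReal_mul_I_re]; simp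
    have him : (1 - e 1 t).im = - Real.sin t := by
      unfold e
      rw [Complex.sub_im, Complex.one_im, Complex.exp_ofReal_mul_I_im]; simp
    rw [hre, him]
    have h2 : Real.cos t = 1 - 2 * Real.sin (t / 2) ^ 2 := by
      have := Real.cos_two_mul (t / 2)
      rw [show 2 * (t / 2) = t by ring] at this
      rw [this, Real.cos_sq']; ring
    have h3 := Real.sin_sq_add_cos_sq t
    have h4 : Real.sin t ^ 2 = 1 - Real.cos t ^ 2 := by linarith
    have h5 : (1 - Real.cos t) * (1 - Real.cos t) + -Real.sin t * -Real.sin t =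
        2 - 2 * Real.cos t := by nlinarith
    rw [h5, h2]; ring
  have h2 := (sq_eq_sq₀ (norm_nonneg _) (by positivity)).mp h1
  exact h2

lemma norm_osk_le {N : ℕ} {t : ℝ} (ht0 : 0 < t) (htpi : t ≤ Real.pi) : ‖osk N t‖ ≤ Real.pi / t := by
  have h1 := norm_osk_le_abel N t
  rw [norm_one_sub_e] at h1
  have h2 : t / Real.pi ≤ Real.sin (t / 2) := by
    have := Real.mul_le_sin (x := t / 2) (by linarith) (by linarith)
    calc t / Real.pi = 2 / Real.pi * (t / 2) := by ring
      _ ≤ _ := this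
  have h3 : 0 ≤ Real.sin (t / 2) := le_trans (by positivity) h2
  rw [abs_of_nonneg h3] at h1
  have hpi := Real.pi_pos
  have h4 : t / Real.pi * ‖osk N t‖ ≤ 1 := by
    have := mul_le_mul_of_nonneg_right h2 (norm_nonneg (osk N t))
    linarith
  rw [le_div_iff₀ ht0]
  rw [div_mul_eq_mul_div, div_le_one hpi] at h4
  linarith

lemma osk_neg (N : ℕ) (t : ℝ) : ‖osk N (-t)‖ = ‖osk N t‖ := by
  have : osk N (-t) = conj (osk N t) := by
    unfold osk
    rw [map_sum]
    apply Finset.sum_congr rfl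
    intro n _
    rw [map_mul, conj_e, Complex.conj_ofReal]
    congr 1
    unfold e; congr 1; push_cast; ring
  rw [this, RCLike.norm_conj]

lemma osk_eq_sum (N : ℕ) (t : ℝ) : osk N t = ∑ k ∈ Finset.Icc (-(N : ℤ)) N,
    (if 0 < k then (eta N k : ℂ) else 0) * e k t := by
  rw [sum_Icc_symm (fun k => (if 0 < k then (eta N k : ℂ) else 0) * e k t)]
  unfold osk
  rw [if_neg (lt_irrefl _), zero_mul, zero_add]
  apply Finset.sum_congr rfl
  intro n _
  rw [if_pos (by positivity), if_neg (by omega)]; ring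

lemma continuous_osk (N : ℕ) : Continuous (osk N) := by
  have : osk N = fun t => ∑ k ∈ Finset.Icc (-(N : ℤ)) N,
    (if 0 < k then (eta N k : ℂ) else 0) * e k t := funext (osk_eq_sum N)
  rw [this]
  exact continuous_sum_e _ _

lemma periodic_osk (N : ℕ) : Function.Periodic (fun t => ‖osk N t‖) (2 * Real.pi) := by
  have : (fun t => ‖osk N t‖) = fun t => ‖∑ k ∈ Finset.Icc (-(N : ℤ)) N,
    (if 0 < k then (eta N k : ℂ) else 0) * e k t‖ := by
    funext t; rw [osk_eq_sum N]
  rw [this]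
  exact periodic_sum _ _

lemma integral_norm_osk {N : ℕ} (hN : 0 < N) : ∫ t, ‖osk N t‖ ∂mu1 ≤ 2 + Real.log N := by
  have hN' : (1 : ℝ) ≤ N := by exact_mod_cast hN
  have hpi := Real.pi_pos
  have hpi3 := Real.pi_gt_three
  have hcont : Continuous (fun t => ‖osk N t‖) := (continuous_osk N).norm
  rw [integral_mu1_real]
  have h1 : ∫ t in (0 : ℝ)..(2 * Real.pi), ‖osk N t‖ = ∫ t in (-Real.pi)..Real.pi, ‖osk N t‖ := by
    have := (periodic_osk N).intervalIntegral_add_eq 0 (-Real.pi)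
    rw [zero_add] at this
    rw [this]; congr 1; ring
  have h2 : ∫ t in (-Real.pi)..Real.pi, ‖osk N t‖ = 2 * ∫ t in (0 : ℝ)..Real.pi, ‖osk N t‖ := by
    rw [← intervalIntegral.integral_add_adjacent_intervals (b := 0)
      (hcont.intervalIntegrable _ _) (hcont.intervalIntegrable _ _)]
    have h3 : ∫ t in (-Real.pi)..0, ‖osk N t‖ = ∫ t in (0 : ℝ)..Real.pi, ‖osk N t‖ := by
      have := intervalIntegral.integral_comp_neg (fun t => ‖osk N t‖) (a := 0) (b := Real.pi)
      simp only [neg_zero, osk_neg] at this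
      exact this.symm
    rw [h3]; ring
  have hinv : (1 : ℝ) / N ≤ 1 := by rw [div_le_one (by linarith)]; exact hN'
  have hinv0 : (0 : ℝ) < 1 / N := by positivity
  have h3 : ∫ t in (0 : ℝ)..Real.pi, ‖osk N t‖ ≤ 1 + Real.pi * (Real.log Real.pi + Real.log N) := by
    rw [← intervalIntegral.integral_add_adjacent_intervals (b := 1 / (N : ℝ))
      (hcont.intervalIntegrable _ _) (hcont.intervalIntegrable _ _)]
    apply add_le_add
    · calc ∫ t in (0 : ℝ)..(1 / N), ‖osk N t‖ ≤ ∫ _t in (0 : ℝ)..(1 / N), (N : ℝ) := by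
            apply intervalIntegral.integral_mono_on hinv0.le (hcont.intervalIntegrable _ _)
              (by simp)
            intro t _
            exact norm_osk_le_N N t
        _ = 1 := by
            rw [intervalIntegral.integral_const, smul_eq_mul, sub_zero]
            field_simp
    · calc ∫ t in (1 / (N : ℝ))..Real.pi, ‖osk N t‖ ≤ ∫ t in (1 / (N : ℝ))..Real.pi, Real.pi * (1 / t) := by
            apply intervalIntegral.integral_mono_on (by linarith) (hcont.intervalIntegrable _ _)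
            · apply ContinuousOn.intervalIntegrable
              intro t ht
              rw [Set.uIcc_of_le (by linarith)] at ht
              have : t ≠ 0 := by have := ht.1; linarith
              exact (continuousAt_const.mul (continuousAt_const.div continuousAt_id this)).continuousWithinAt
            intro t ht
            have := norm_osk_le (N := N) (t := t) (by linarith [ht.1]) ht.2
            calc ‖osk N t‖ ≤ Real.pi / t := this
              _ = Real.pi * (1 / t) := by ring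
        _ = Real.pi * (Real.log Real.pi + Real.log N) := by
            rw [intervalIntegral.integral_const_mul, integral_one_div_of_pos hinv0 hpi]
            rw [Real.log_div hpi.ne' hinv0.ne', Real.log_div one_ne_zero (by linarith), Real.log_one]
            ring
  rw [h1, h2]
  have hlogpi : Real.log Real.pi ≤ 3 / 2 := by
    have h5 : Real.log Real.pi ≤ Real.pi / Real.exp 1 := by
      have h6 := Real.add_one_le_exp (Real.log Real.pi - 1)
      rw [Real.exp_sub, Real.exp_log hpi] at h6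
      linarith
    have h7 : Real.pi / Real.exp 1 ≤ 3 / 2 := by
      rw [div_le_iff₀ (Real.exp_pos 1)]
      have := Real.exp_one_gt_d9
      have := Real.pi_lt_d2
      linarith
    linarith
  have h6 : (2 * Real.pi)⁻¹ * (2 * ∫ t in (0 : ℝ)..Real.pi, ‖osk N t‖) ≤
      (2 * Real.pi)⁻¹ * (2 * (1 + Real.pi * (Real.log Real.pi + Real.log N))) := by gcongr
  refine h6.trans ?_
  have h7 : (2 * Real.pi)⁻¹ * (2 * (1 + Real.pi * (Real.log Real.pi + Real.log N))) =
      1 / Real.pi + Real.log Real.pi + Real.log N := by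
    field_simp
    ring
  rw [h7]
  have h8 : 1 / Real.pi ≤ 1 / 3 := by
    apply one_div_le_one_div_of_le (by norm_num) hpi3.le
  linarith

end Pool.Agent.Helper935.OW
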