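import Pool.Agent.Helper935.OW.Comb

open scoped ComplexConjugate
open Polynomial

namespace Pool.Agent.Helper935.OW

/-- number of minus signs -/
def neg {d : ℕ} (ε : Fin d → Bool) : ℕ := (Finset.univ.filter (fun j => ε j = false)).card

/-- the point `exp (i pi r)` -/
noncomputable def zz (r : ℝ) : ℂ := Complex.exp (Real.pi * r * Complex.I)

lemma chi_false (r : ℝ) : chi r false = chi r true * zz r := by
  unfold chi zz
  simp only [Bool.false_eq_true, if_false, if_true]
  rw [← Complex.exp_add]; congr 1; push_cast; ring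

lemma chi_true_ne (r : ℝ) : chi r true ≠ 0 := by
  intro h; have := norm_chi r true; rw [h] at this; simp at this

lemma neg_cons {d : ℕ} (b : Bool) (ε : Fin d → Bool) :
    neg (Fin.cons b ε : Fin (d + 1) → Bool) = (if b then 0 else 1) + neg ε := by
  unfold neg
  rw [Fin.card_filter_univ_succ]
  cases b <;> simp [add_comm]

lemma cnt_cons {d : ℕ} (b : Option Bool) (l : Fin d → Option Bool) :
    cnt (Fin.cons b l : Fin (d + 1) → Option Bool) = (if b = none then 1 else 0) + cnt l := by
  unfold cnt
  rw [Fin.card_filter_univ_succ]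
  by_cases h : b = none <;> simp [h, add_comm]

/-- number of coordinates where evaluation at minus is used -/
def cntf {d : ℕ} (l : Fin d → Option Bool) : ℕ :=
  (Finset.univ.filter (fun j => l j = some false)).card

lemma cntf_cons {d : ℕ} (b : Option Bool) (l : Fin d → Option Bool) :
    cntf (Fin.cons b l : Fin (d + 1) → Option Bool) = (if b = some false then 1 else 0) + cntf l := by
  unfold cntf
  rw [Fin.card_filter_univ_succ]
  by_cases h : b = some false <;> simp [h, add_comm]

lemma Lam_cons {d : ℕ} (r : ℝ) (b : Option Bool) (l : Fin d → Option Bool) (c : Bool)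
    (ε : Fin d → Bool) :
    Lam r (Fin.cons b l : Fin (d + 1) → Option Bool) (Fin.cons c ε : Fin (d + 1) → Bool) =
      lam r b c * Lam r l ε := by
  unfold Lam
  rw [Fin.prod_univ_succ]
  simp

lemma sum_cons {d : ℕ} {α : Type*} [Fintype α] {R : Type*} [AddCommMonoid R]
    (f : (Fin (d + 1) → α) → R) :
    ∑ ε : Fin (d + 1) → α, f ε = ∑ b : α, ∑ ε : Fin d → α, f (Fin.cons b ε) := by
  rw [← Fintype.sum_prod_type']
  exact (Fintype.sum_equiv (Fin.consEquiv (fun _ => α)) (fun p => f (Fin.cons p.1 p.2)) f
    (fun _ => rfl)).symm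

lemma cnt_add_cntf_le {d : ℕ} (l : Fin d → Option Bool) : cnt l + cntf l ≤ d := by
  unfold cnt cntf
  rw [← Finset.card_union_of_disjoint]
  · exact (Finset.card_le_univ _).trans (by simp)
  · rw [Finset.disjoint_filter]
    intro j _ h1 h2
    rw [h1] at h2; exact absurd h2 (by simp)

/-- evaluation of symmetric tensors -/
lemma sum_sym {d : ℕ} (r : ℝ) (l : Fin d → Option Bool) (w : ℕ → ℂ) :
    ∑ ε, w (neg ε) * Lam r l ε = (chi r true) ^ (cnt l) *
      ∑ b ∈ Finset.range (cnt l + 1), ((cnt l).choose b : ℂ) * zz r ^ b * w (cntf l + b) := by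
  induction d generalizing w with
  | zero =>
    have h1 : cnt l = 0 := by unfold cnt; simp
    have h2 : cntf l = 0 := by unfold cntf; simp
    rw [h1, h2]
    simp [neg, Lam]
  | succ d ih =>
    obtain ⟨b, l', rfl⟩ : ∃ b l', l = Fin.cons b l' := ⟨l 0, Fin.tail l, (Fin.cons_self_tail l).symm⟩
    rw [sum_cons]
    simp only [Lam_cons, neg_cons, cnt_cons, cntf_cons]
    have h1 : ∀ c : Bool, ∑ ε : Fin d → Bool, w ((if c = true then 0 else 1) + neg ε) *
        (lam r b c * Lam r l' ε) = lam r b c * ((chi r true) ^ (cnt l') *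
      ∑ b ∈ Finset.range (cnt l' + 1), ((cnt l').choose b : ℂ) * zz r ^ b *
        w ((if c = true then 0 else 1) + (cntf l' + b))) := by
      intro c
      rw [← ih l' (fun i => w ((if c = true then 0 else 1) + i)), Finset.mul_sum]
      apply Finset.sum_congr rfl; intro ε _; ring
    simp only [h1]
    rw [Fintype.sum_bool]
    rcases b with _ | b
    · -- phase functional
      simp only [lam, if_true, reduceCtorEq, if_false, zero_add, Bool.false_eq_true]
      rw [chi_false]
      set c := cnt l'
      set a := cntf l'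
      rw [add_comm 1 c, pow_succ]
      have hP : ∑ b ∈ Finset.range (c + 1 + 1), ((c + 1).choose b : ℂ) * zz r ^ b * w (a + b) =
          ∑ b ∈ Finset.range (c + 1), (c.choose b : ℂ) * zz r ^ b * w (a + b) +
          zz r * ∑ b ∈ Finset.range (c + 1), (c.choose b : ℂ) * zz r ^ b * w (1 + (a + b)) := by
        rw [Finset.sum_range_succ']
        have h2 : ∀ k ∈ Finset.range (c + 1), (((c + 1).choose (k + 1) : ℕ) : ℂ) * zz r ^ (k + 1) * w (a + (k + 1)) =
            (c.choose k : ℂ) * zz r ^ (k + 1) * w (a + (k + 1)) +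
            (c.choose (k + 1) : ℂ) * zz r ^ (k + 1) * w (a + (k + 1)) := by
          intro k _
          rw [Nat.choose_succ_succ]; push_cast; ring
        rw [Finset.sum_congr rfl h2, Finset.sum_add_distrib]
        have h3 : ∑ b ∈ Finset.range (c + 1), (c.choose b : ℂ) * zz r ^ b * w (a + b) =
            ∑ k ∈ Finset.range (c + 1), (c.choose (k + 1) : ℂ) * zz r ^ (k + 1) * w (a + (k + 1)) +
              w a := by
          rw [Finset.sum_range_succ']
          have h4 : ∑ k ∈ Finset.range (c + 1), (c.choose (k + 1) : ℂ) * zz r ^ (k + 1) * w (a + (k + 1)) =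
            ∑ k ∈ Finset.range c, (c.choose (k + 1) : ℂ) * zz r ^ (k + 1) * w (a + (k + 1)) := by
            rw [Finset.sum_range_succ, Nat.choose_succ_self]; simp
          rw [h4]; simp
        rw [h3, Finset.mul_sum]
        have h5 : ∀ k ∈ Finset.range (c + 1), zz r * ((c.choose k : ℂ) * zz r ^ k * w (1 + (a + k))) =
            (c.choose k : ℂ) * zz r ^ (k + 1) * w (a + (k + 1)) := by
          intro k _
          rw [show 1 + (a + k) = a + (k + 1) by ring]; ring
        rw [Finset.sum_congr rfl h5]
        simp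
        ring
      rw [hP]; ring
    · cases b
      · simp only [lam, Bool.true_eq_false, if_false, if_true, reduceCtorEq, zero_add, zero_mul,
          Bool.false_eq_true, one_mul]
        congr 1
        apply Finset.sum_congr rfl; intro k _
        rw [add_assoc]
      · simp [lam]

/-- polynomial with binomial weights -/
noncomputable def Pol (n : ℕ) (w : ℕ → ℂ) : ℂ[X] :=
  ∑ i ∈ Finset.range (n + 1), C ((n.choose i : ℂ) * w i) * X ^ i

lemma eval_Pol (n : ℕ) (w : ℕ → ℂ) (z : ℂ) :
    (Pol n w).eval z = ∑ b ∈ Finset.range (n + 1), (n.choose b : ℂ) * z ^ b * w b := by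
  unfold Pol
  rw [eval_finsetSum]
  apply Finset.sum_congr rfl; intro i _
  simp; ring

lemma derivative_Pol (n : ℕ) (w : ℕ → ℂ) :
    derivative (Pol (n + 1) w) = C ((n : ℂ) + 1) * Pol n (fun i => w (i + 1)) := by
  unfold Pol
  rw [derivative_sum, Finset.sum_range_succ', Finset.mul_sum]
  simp only [pow_zero, mul_one, derivative_C, add_zero]
  apply Finset.sum_congr rfl; intro i _
  rw [derivative_C_mul_X_pow, ← mul_assoc, ← C_mul]
  simp only [Nat.add_sub_cancel]
  congr 2
  have h1 : ((n + 1).choose (i + 1) : ℂ) * ((i : ℂ) + 1) = ((n : ℂ) + 1) * (n.choose i : ℂ) := by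
    have := Nat.add_one_mul_choose_eq n i
    have h2 : (((n + 1) * n.choose i : ℕ) : ℂ) = (((n + 1).choose (i + 1) * (i + 1) : ℕ) : ℂ) := by
      rw [this]
    push_cast at h2
    exact h2.symm
  push_cast
  linear_combination w (i + 1) * h1

lemma Pol_sub (n : ℕ) (w : ℕ → ℂ) :
    C ((n : ℂ) + 1) * Pol n w = C ((n : ℂ) + 1) * Pol (n + 1) w - X * derivative (Pol (n + 1) w) := by
  ext i
  rw [coeff_C_mul, coeff_sub, coeff_C_mul]
  have hc : ∀ (n : ℕ) (w : ℕ → ℂ) (i : ℕ), (Pol n w).coeff i = (n.choose i : ℂ) * w i := by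
    intro n w i
    unfold Pol
    rw [finsetSum_coeff]
    simp only [coeff_C_mul, coeff_X_pow]
    by_cases hi : i ∈ Finset.range (n + 1)
    · rw [Finset.sum_eq_single i]
      · simp
      · intro j _ hj; rw [if_neg (Ne.symm hj)]; ring
      · intro h; exact absurd hi h
    · rw [Finset.sum_eq_zero]
      · rw [Finset.mem_range, not_lt] at hi
        rw [Nat.choose_eq_zero_of_lt (by omega)]; simp
      · intro j hj
        rw [if_neg (by rintro rfl; exact hi hj)]; ring
  cases i with
  | zero =>
    rw [coeff_X_mul_zero, hc, hc]; simp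
  | succ i =>
    rw [coeff_X_mul, coeff_derivative, hc, hc]
    have h1 : ((n : ℂ) + 1) * (n.choose (i + 1) : ℂ) = ((n : ℂ) - i) * ((n + 1).choose (i + 1) : ℂ) := by
      rcases lt_or_ge n (i + 1) with h | h
      · rw [Nat.choose_eq_zero_of_lt h]
        rcases Nat.lt_or_ge n i with h' | h'
        · rw [Nat.choose_eq_zero_of_lt (by omega)]; simp
        · have : n = i := by omega
          subst this; simp
      · have h2 := Nat.add_one_mul_choose_eq n i
        have h3 : (((n + 1) * n.choose i : ℕ) : ℂ) = (((n + 1).choose (i + 1) * (i + 1) : ℕ) : ℂ) := by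
          rw [h2]
        have h4 : ((n + 1).choose (i + 1) : ℂ) = (n.choose i : ℂ) + (n.choose (i + 1) : ℂ) := by
          rw [Nat.choose_succ_succ]; push_cast; ring
        push_cast at h3
        rw [h4] at h3 ⊢
        linear_combination -h3
    push_cast
    linear_combination w (i + 1) * h1

lemma dvd_derivative (p : ℂ[X]) (z : ℂ) (N : ℕ) (hp : (X - C z) ^ (N + 1) ∣ p) :
    (X - C z) ^ N ∣ derivative p := by
  obtain ⟨q, rfl⟩ := hp
  rw [derivative_mul, derivative_pow_succ]
  simp only [derivative_sub, derivative_X, derivative_C, sub_zero, mul_one]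
  refine ⟨C ((N : ℂ) + 1) * q + (X - C z) * derivative q, ?_⟩
  ring

lemma Pol_reduce (n : ℕ) (w : ℕ → ℂ) (z : ℂ) (N : ℕ) (hp : (X - C z) ^ (N + 1) ∣ Pol (n + 1) w) :
    (X - C z) ^ N ∣ Pol n (fun i => w (i + 1)) ∧ (X - C z) ^ N ∣ Pol n w := by
  have hn : ((n : ℂ) + 1) ≠ 0 := by exact_mod_cast Nat.succ_ne_zero n
  have hunit : IsUnit (C ((n : ℂ) + 1) : ℂ[X]) := isUnit_C.mpr (isUnit_iff_ne_zero.mpr hn)
  have h1 := dvd_derivative _ z N hp
  constructor
  · rw [derivative_Pol] at h1
    exact (hunit.dvd_mul_left).mp h1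
  · have h2 : (X - C z) ^ N ∣ C ((n : ℂ) + 1) * Pol n w := by
      rw [Pol_sub]
      apply dvd_sub
      · exact ((pow_dvd_pow _ (Nat.le_succ N)).trans hp).mul_left _
      · exact h1.mul_left _
    exact (hunit.dvd_mul_left).mp h2

lemma Pol_reduce_iter (c k a : ℕ) (hak : a ≤ k) (w : ℕ → ℂ) (z : ℂ) (N : ℕ)
    (hp : (X - C z) ^ (N + k) ∣ Pol (c + k) w) :
    (X - C z) ^ N ∣ Pol c (fun i => w (a + i)) := by
  induction k generalizing a w with
  | zero =>
    have : a = 0 := by omega
    subst this
    simpa using hp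
  | succ k ih =>
    have h1 := Pol_reduce (c + k) w z (N + k) (by rw [← add_assoc] at hp; exact hp)
    rcases Nat.eq_zero_or_pos a with h0 | h0
    · subst h0
      exact ih 0 (by omega) w h1.2
    · obtain ⟨a', rfl⟩ : ∃ a', a = a' + 1 := ⟨a - 1, by omega⟩
      have := ih a' (by omega) (fun i => w (i + 1)) h1.1
      refine (this.trans (dvd_of_eq ?_))
      congr 1; funext i; congr 1; ring

/-- from polynomials to balanced tensors -/
theorem bal_of_poly {d : ℕ} {r : ℝ} {N : ℕ} (hN : N ≤ d + 1) (h : PosPolyVanishes d r N) :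
    Bal d r (d + 1 - N) := by
  obtain ⟨P, hdeg, hpos, hdvd⟩ := h
  set w : ℕ → ℂ := fun a => ((P.coeff a / (d.choose a : ℝ) : ℝ) : ℂ) with hw
  refine ⟨fun ε => P.coeff (neg ε) / (d.choose (neg ε) : ℝ), ?_, ?_⟩
  · intro ε
    have h1 : neg ε ≤ d := by unfold neg; exact (Finset.card_le_univ _).trans (by simp)
    have h2 : 0 < d.choose (neg ε) := Nat.choose_pos h1
    have := hpos _ h1
    positivity
  · intro l hl
    have h1 := sum_sym r l w
    have h2 : ∀ ε : Fin d → Bool, ((P.coeff (neg ε) / (d.choose (neg ε) : ℝ) : ℝ) : ℂ) = w (neg ε) :=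
      fun ε => rfl
    simp only [h2]
    rw [h1]
    have h3 : Pol d w = P.map (algebraMap ℝ ℂ) := by
      ext i
      rw [coeff_map]
      unfold Pol
      rw [finsetSum_coeff]
      simp only [coeff_C_mul, coeff_X_pow]
      by_cases hi : i ∈ Finset.range (d + 1)
      · rw [Finset.sum_eq_single i]
        · simp only [if_true, mul_one, hw]
          have h4 : 0 < d.choose i := Nat.choose_pos (by rw [Finset.mem_range] at hi; omega)
          have h5 : ((d.choose i : ℕ) : ℂ) ≠ 0 := by exact_mod_cast h4.ne'
          push_cast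
          field_simp
          simp
        · intro j _ hj; rw [if_neg (Ne.symm hj)]; ring
        · intro h; exact absurd hi h
      · rw [Finset.sum_eq_zero]
        · rw [Finset.mem_range, not_lt] at hi
          rw [coeff_eq_zero_of_natDegree_lt (by omega)]; simp
        · intro j hj
          rw [if_neg (by rintro rfl; exact hi hj)]; ring
    have hcd := cnt_add_cntf_le l
    have h4 : (X - C (zz r)) ^ (1 + (d - cnt l)) ∣ Pol (cnt l + (d - cnt l)) w := by
      rw [show cnt l + (d - cnt l) = d by omega, h3]
      refine (pow_dvd_pow _ ?_).trans hdvd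
      omega
    have h5 := Pol_reduce_iter (cnt l) (d - cnt l) (cntf l) (by omega) w (zz r) 1 h4
    rw [pow_one, dvd_iff_isRoot, IsRoot.def, eval_Pol] at h5
    rw [h5, mul_zero]

/-- from balanced tensors to polynomials -/
theorem poly_of_bal {d : ℕ} {r : ℝ} {M : ℕ} (h : Bal d r M) :
    PosPolyVanishes d r (d + 1 - M) := by
  classical
  obtain ⟨v, hv, hbal⟩ := h
  set P : ℝ[X] := ∑ ε : Fin d → Bool, C (v ε) * X ^ (neg ε) with hP
  have hcoeff : ∀ a, P.coeff a = ∑ ε : Fin d → Bool, if neg ε = a then v ε else 0 := by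
    intro a
    rw [hP, finsetSum_coeff]
    apply Finset.sum_congr rfl; intro ε _
    rw [coeff_C_mul, coeff_X_pow]
    by_cases h : neg ε = a
    · rw [if_pos h, if_pos h.symm, mul_one]
    · rw [if_neg h, if_neg (Ne.symm h), mul_zero]
  have hpos : ∀ a ≤ d, 0 < P.coeff a := by
    intro a ha
    rw [hcoeff]
    obtain ⟨t, -, ht⟩ := Finset.exists_subset_card_eq (s := (Finset.univ : Finset (Fin d))) (n := a)
      (by simpa using ha)
    apply Finset.sum_pos' (fun ε _ => by split_ifs; exact (hv ε).le; exact le_rfl)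
    refine ⟨fun j => decide (j ∉ t), Finset.mem_univ _, ?_⟩
    have : neg (fun j => decide (j ∉ t)) = a := by
      unfold neg
      rw [← ht]; congr 1; ext j; simp
    rw [if_pos this]; exact hv _
  refine ⟨P, ?_, hpos, ?_⟩
  · apply le_antisymm
    · apply natDegree_sum_le_of_forall_le
      intro ε _
      refine (natDegree_C_mul_X_pow_le _ _).trans ?_
      unfold neg; exact (Finset.card_le_univ _).trans (by simp)
    · exact le_natDegree_of_ne_zero (hpos d le_rfl).ne'
  · -- expansion around the root
    have h1 : P.map (algebraMap ℝ ℂ) = ∑ ε : Fin d → Bool, C ((v ε : ℝ) : ℂ) *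
        ∏ j, ((C ((chi r true)⁻¹ * lam r none (ε j)) : ℂ[X]) + (X - C (zz r)) * C (lam r (some false) (ε j))) := by
      rw [hP, Polynomial.map_sum]
      apply Finset.sum_congr rfl; intro ε _
      rw [Polynomial.map_mul, map_C, Polynomial.map_pow, map_X]
      congr 1
      have h2 : ∀ j, ((C ((chi r true)⁻¹ * lam r none (ε j)) : ℂ[X]) +
          (X - C (zz r)) * C (lam r (some false) (ε j))) = if ε j = false then X else 1 := by
        intro j
        rcases hε : ε j with _ | _
        · simp only [lam, if_true]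
          rw [chi_false, ← mul_assoc, inv_mul_cancel₀ (chi_true_ne r), one_mul]
          simp
        · simp only [lam, Bool.true_eq_false, if_false]
          rw [inv_mul_cancel₀ (chi_true_ne r)]
          simp
      simp only [h2]
      rw [Finset.prod_ite]
      simp [neg]
    rw [h1]
    simp only [Finset.prod_add, Finset.mul_sum]
    rw [Finset.sum_comm]
    apply Finset.dvd_sum
    intro t _
    have h3 : ∑ ε : Fin d → Bool, C ((v ε : ℝ) : ℂ) *
        ((∏ i ∈ t, (C ((chi r true)⁻¹ * lam r none (ε i)) : ℂ[X])) *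
          ∏ i ∈ Finset.univ \ t, ((X - C (zz r)) * C (lam r (some false) (ε i)))) =
        (X - C (zz r)) ^ (Finset.univ \ t).card * C ((chi r true)⁻¹ ^ t.card *
          ∑ ε : Fin d → Bool, (v ε : ℂ) * Lam r (fun j => if j ∈ t then none else some false) ε) := by
      rw [Finset.mul_sum, map_sum, Finset.mul_sum]
      apply Finset.sum_congr rfl; intro ε _
      rw [Finset.prod_mul_distrib, Finset.prod_const]
      have h4 : Lam r (fun j => if j ∈ t then none else some false) ε =
          (∏ i ∈ t, lam r none (ε i)) * ∏ i ∈ Finset.univ \ t, lam r (some false) (ε i) := by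
        unfold Lam
        rw [← Finset.prod_sdiff (Finset.subset_univ t), mul_comm]
        congr 1
        · apply Finset.prod_congr rfl; intro i hi
          show lam r (if i ∈ t then none else some false) (ε i) = _
          rw [if_pos hi]
        · apply Finset.prod_congr rfl; intro i hi
          rw [Finset.mem_sdiff] at hi
          show lam r (if i ∈ t then none else some false) (ε i) = _
          rw [if_neg hi.2]
      rw [h4]
      simp only [map_mul, map_prod, Finset.prod_mul_distrib, Finset.prod_const, map_pow]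
      ring
    rw [h3]
    have hcard : t.card + (Finset.univ \ t).card = d := by
      rw [Finset.card_sdiff_of_subset (Finset.subset_univ t)]
      have := Finset.card_le_univ t
      simp only [Finset.card_univ, Fintype.card_fin] at this ⊢
      omega
    by_cases hM : M ≤ t.card
    · rw [hbal _ (by
        unfold cnt
        refine hM.trans (le_of_eq ?_)
        congr 1
        ext j
        by_cases hj : j ∈ t <;> simp [hj])]
      simp
    · apply Dvd.dvd.mul_right
      apply pow_dvd_pow
      omega

end Pool.Agent.Helper935.OW
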