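import Pool.Agent.Helper935.OW.Dual
import Pool.Agent.Helper935.OW.Kernels
import Pool.Agent.Helper935.OW.Poly

open MeasureTheory
open scoped ENNReal ComplexConjugate

namespace Pool.Agent.Helper935.OW

variable {d : ℕ}

/-- the box of frequencies -/
noncomputable def bx (d N : ℕ) : Finset (Fin d → ℤ) := Fintype.piFinset fun _ => Finset.Icc (-(N : ℤ)) N

lemma sum_bx_prod (N : ℕ) (f : Fin d → ℤ → ℂ) :
    ∑ k ∈ bx d N, ∏ j, f j (k j) = ∏ j, ∑ l ∈ Finset.Icc (-(N : ℤ)) N, f j l := by
  unfold bx
  rw [Finset.prod_univ_sum]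

lemma integral_norm_prod (g : Fin d → ℝ → ℂ) :
    ∫ x, ‖∏ j, g j (x j)‖ ∂(muT d) = ∏ j, ∫ t, ‖g j t‖ ∂mu1 := by
  have h1 : ∀ x : Fin d → ℝ, ‖∏ j, g j (x j)‖ = ∏ j, ‖g j (x j)‖ := fun x => norm_prod _ _
  simp only [h1]
  unfold muT
  exact integral_fintype_prod_eq_prod (fun j t => ‖g j t‖)

/-- hypothesis: the system `u` achieves error at most `R` -/
def Achieves {m : ℕ} (r : ℝ) (u : Fin m → (Fin d → ℝ) → ℂ) (R : ℝ) : Prop :=
  ∀ f ∈ W1 d r,
      eLpNorm (fun x => f x - ∑ i, (∫ y, f y * conj (u i y) ∂(muT d)) * u i x) ⊤ (muT d) ≤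
        ENNReal.ofReal R

theorem dual_product {m : ℕ} {r : ℝ} (hr : 1 < r) {u : Fin m → (Fin d → ℝ) → ℂ}
    (hu : IsONSystem u) {R : ℝ} (hR0 : 0 ≤ R) (hR : Achieves r u R) {N : ℕ} (hN : 0 < N)
    (c : Fin d → ℤ → ℂ) (B : Fin d → ℝ)
    (hB : ∀ j, ∫ t, ‖∑ l ∈ Finset.Icc (-(N : ℤ)) N, c j l * e (-l) t‖ ∂mu1 ≤ B j) :
    ‖∑ k ∈ bx d N, (((1 - pm u k : ℝ) : ℂ) * ∏ j, (h r (k j) * eta N (k j) * c j (k j)))‖ ≤
      R * ∏ j, B j := by
  have key := dual_bound hr hu hR0 hR (bx d N) (fun k => ∏ j, (eta N (k j) : ℂ))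
    (fun k => ∏ j, c j (k j)) (B := ∏ j, B j) ?_ ?_
  · refine le_trans (le_of_eq ?_) key
    congr 1
    apply Finset.sum_congr rfl; intro k _
    congr 1
    unfold H
    rw [← Finset.prod_mul_distrib, ← Finset.prod_mul_distrib]
  · intro y
    have h1 : ∀ x : Fin d → ℝ, ∑ k ∈ bx d N, (∏ j, (eta N (k j) : ℂ)) * E k (x - y) =
        ∏ j, (fun t => fej N (t - y j)) (x j) := by
      intro x
      unfold E
      simp only [← Finset.prod_mul_distrib]
      rw [sum_bx_prod N (fun j l => (eta N l : ℂ) * e l ((x - y) j))]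
      rfl
    simp only [h1]
    rw [integral_norm_prod (fun j t => fej N (t - y j))]
    have h2 : ∀ j, ∫ t, ‖fej N (t - y j)‖ ∂mu1 = 1 := by
      intro j
      rw [integral_shift (f := fun t => ‖fej N t‖) (periodic_sum _ _) (y j), integral_norm_fej hN]
    simp only [h2]
    simp
  · intro y
    have h1 : ∀ x : Fin d → ℝ, ∑ k ∈ bx d N, (∏ j, c j (k j)) * E (-k) (x - y) =
        ∏ j, (fun t => ∑ l ∈ Finset.Icc (-(N : ℤ)) N, c j l * e (-l) (t - y j)) (x j) := by
      intro x
      unfold E
      simp only [← Finset.prod_mul_distrib, Pi.neg_apply]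
      rw [sum_bx_prod N (fun j l => c j l * e (-l) ((x - y) j))]
      rfl
    simp only [h1]
    rw [integral_norm_prod (fun j t => ∑ l ∈ Finset.Icc (-(N : ℤ)) N, c j l * e (-l) (t - y j))]
    apply Finset.prod_le_prod
    · intro j _; exact integral_nonneg (fun t => norm_nonneg _)
    · intro j _
      have hper : Function.Periodic (fun t => ‖∑ l ∈ Finset.Icc (-(N : ℤ)) N, c j l * e (-l) t‖)
          (2 * Real.pi) := by
        intro t
        simp only
        congr 1
        apply Finset.sum_congr rfl; intro l _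
        rw [e_periodic (-l) t]
      rw [integral_shift hper (y j)]
      exact hB j

/-- coefficient functions for the three kinds of one-coordinate functionals -/
noncomputable def cc (r : ℝ) (N : ℕ) : Option Bool → ℤ → ℂ
  | none, k => if k = 0 then 0 else (eta N k : ℂ)
  | some true, k => if 0 < k then (eta N k : ℂ) * (chi r true)⁻¹ else 0
  | some false, k => if k < 0 then (eta N k : ℂ) * (chi r false)⁻¹ else 0

lemma chi_ne (r : ℝ) (b : Bool) : chi r b ≠ 0 := by
  intro h; have := norm_chi r b; rw [h] at this; simp at this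

lemma h_mul_cc (r : ℝ) (N : ℕ) (o : Option Bool) (k : ℤ) (hk : k ≠ 0) :
    h r k * cc r N o k = ((((|k| : ℤ) : ℝ) ^ (-r) * eta N k : ℝ) : ℂ) * lam r o (decide (0 < k)) := by
  have hh : h r k = ((((|k| : ℤ) : ℝ) ^ (-r) : ℝ) : ℂ) * chi r (decide (0 < k)) := by
    unfold h
    rw [if_neg hk]
    congr 1
    unfold chi
    rcases lt_or_gt_of_ne hk with h1 | h1
    · rw [Int.sign_eq_neg_one_of_neg h1]
      have : ¬ (0 < k) := by omega
      simp only [this, decide_false, Bool.false_eq_true, if_false]
      push_cast; ring_nf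
    · rw [Int.sign_eq_one_of_pos h1]
      simp only [h1, decide_true, if_true]
      push_cast; ring_nf
  rw [hh]
  rcases o with _ | b
  · simp only [cc, if_neg hk, lam]; push_cast; ring
  · cases b
    · simp only [cc, lam]
      rcases lt_or_gt_of_ne hk with h1 | h1
      · have : ¬ (0 < k) := by omega
        simp only [this, decide_false, if_true, h1]
        have := chi_ne r false
        push_cast
        field_simp
      · have h2 : ¬ (k < 0) := by omega
        simp only [h1, decide_true, Bool.true_eq_false, if_false, h2, mul_zero]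
    · simp only [cc, lam]
      rcases lt_or_gt_of_ne hk with h1 | h1
      · have : ¬ (0 < k) := by omega
        simp only [this, decide_false, if_false, Bool.false_eq_true, mul_zero]
      · simp only [h1, decide_true, if_true]
        have := chi_ne r true
        push_cast
        field_simp

lemma h_mul_cc_zero (r : ℝ) (N : ℕ) (o : Option Bool) : h r 0 * cc r N o 0 = 0 := by
  rcases o with _ | b
  · simp [cc]
  · cases b <;> simp [cc]

lemma sum_Icc_neg (N : ℕ) (g : ℤ → ℂ) :
    ∑ l ∈ Finset.Icc (-(N : ℤ)) N, g (-l) = ∑ l ∈ Finset.Icc (-(N : ℤ)) N, g l := by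
  rw [sum_Icc_symm, sum_Icc_symm]
  simp only [neg_zero, neg_neg]
  congr 1
  apply Finset.sum_congr rfl; intro n _; ring

lemma integral_cc_le (r : ℝ) {N : ℕ} (hN : 0 < N) (o : Option Bool) :
    ∫ t, ‖∑ l ∈ Finset.Icc (-(N : ℤ)) N, cc r N o l * e (-l) t‖ ∂mu1 ≤
      if o = none then 2 else 2 + Real.log N := by
  rcases o with _ | b
  · simp only [if_true]
    have h1 : ∀ t, ∑ l ∈ Finset.Icc (-(N : ℤ)) N, cc r N none l * e (-l) t = fej N t - 1 := by
      intro t
      have h2 : fej N t = ∑ l ∈ Finset.Icc (-(N : ℤ)) N, (eta N l : ℂ) * e (-l) t := by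
        unfold fej
        rw [← sum_Icc_neg N (fun k => (eta N k : ℂ) * e k t)]
        simp only [eta_neg]
      rw [h2, sum_Icc_symm, sum_Icc_symm]
      simp only [cc, if_true, zero_mul, eta_zero, neg_zero, e_zero]
      have h3 : ∀ n : ℕ, ¬ ((n : ℤ) + 1 = 0) := fun n => by omega
      have h4 : ∀ n : ℕ, ¬ (-((n : ℤ) + 1) = 0) := fun n => by omega
      simp only [h3, h4, if_false]
      push_cast; ring
    simp only [h1]
    have hi : Integrable (fun t => fej N t) mu1 := integrable_sum_e _ _
    calc ∫ t, ‖fej N t - 1‖ ∂mu1 ≤ ∫ t, (‖fej N t‖ + 1) ∂mu1 := by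
          refine integral_mono_of_nonneg (Filter.Eventually.of_forall fun t => norm_nonneg _)
            (hi.norm.add (integrable_const _)) (Filter.Eventually.of_forall fun t => ?_)
          have := norm_sub_le (fej N t) 1
          simpa using this
      _ = 2 := by
          rw [integral_add hi.norm (integrable_const _), integral_norm_fej hN]
          simp; norm_num
  · simp only [reduceCtorEq, if_false]
    have hlog := integral_norm_osk hN
    cases b
    · have h1 : ∀ t, ‖∑ l ∈ Finset.Icc (-(N : ℤ)) N, cc r N (some false) l * e (-l) t‖ = ‖osk N t‖ := by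
        intro t
        have h2 : ∑ l ∈ Finset.Icc (-(N : ℤ)) N, cc r N (some false) l * e (-l) t =
            (chi r false)⁻¹ * osk N t := by
          rw [sum_Icc_symm (fun l => cc r N (some false) l * e (-l) t)]
          unfold osk
          rw [Finset.mul_sum]
          simp only [cc, lt_irrefl, if_false, zero_mul, zero_add]
          apply Finset.sum_congr rfl; intro n _
          rw [if_neg (by omega), if_pos (by omega), neg_neg, eta_neg]; ring
        rw [h2, norm_mul, norm_inv, norm_chi, inv_one, one_mul]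
      simp only [h1]; exact hlog
    · have h1 : ∀ t, ‖∑ l ∈ Finset.Icc (-(N : ℤ)) N, cc r N (some true) l * e (-l) t‖ = ‖osk N t‖ := by
        intro t
        have h2 : ∑ l ∈ Finset.Icc (-(N : ℤ)) N, cc r N (some true) l * e (-l) t =
            (chi r true)⁻¹ * osk N (-t) := by
          rw [sum_Icc_symm (fun l => cc r N (some true) l * e (-l) t)]
          unfold osk
          rw [Finset.mul_sum]
          simp only [cc, lt_irrefl, if_false, zero_mul, zero_add]
          apply Finset.sum_congr rfl; intro n _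
          rw [if_pos (by omega), if_neg (by omega)]
          have : e (-((n : ℤ) + 1)) t = e ((n : ℤ) + 1) (-t) := by
            unfold e; congr 1; push_cast; ring
          rw [this]; ring
        rw [h2, norm_mul, norm_inv, norm_chi, inv_one, one_mul, osk_neg]
      simp only [h1]; exact hlog

end Pool.Agent.Helper935.OW
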