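import Pool.Agent.Helper935.OW.Lower

open MeasureTheory
open scoped ENNReal ComplexConjugate

namespace Pool.Agent.Helper935.OW

/-- signed frequency -/
def fr {d : ℕ} (ε : Fin d → Bool) (κ : Fin d → ℕ) : Fin d → ℤ :=
  fun j => if ε j then (κ j : ℤ) else -(κ j : ℤ)

lemma abs_fr {d : ℕ} (ε : Fin d → Bool) (κ : Fin d → ℕ) (j : Fin d) : |fr ε κ j| = κ j := by
  unfold fr; split_ifs <;> simp

lemma fr_injective {d : ℕ} (ε : Fin d → Bool) : Function.Injective (fr ε) := by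
  intro κ κ' h
  funext j
  have h1 := abs_fr ε κ j
  have h2 := abs_fr ε κ' j
  rw [h] at h1
  have : (κ j : ℤ) = κ' j := by rw [← h1, ← h2]
  exact_mod_cast this

/-- dyadic box -/
def box {d : ℕ} (s : Fin d → ℕ) : Finset (Fin d → ℕ) :=
  Fintype.piFinset fun j => Finset.Ico (2 ^ (s j)) (2 ^ (s j + 1))

lemma card_box {d : ℕ} (s : Fin d → ℕ) : (box s).card = 2 ^ (∑ j, s j) := by
  unfold box
  rw [Fintype.card_piFinset]
  simp only [Nat.card_Ico]
  rw [← Finset.prod_pow_eq_pow_sum]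
  apply Finset.prod_congr rfl; intro j _
  rw [pow_succ]; omega

lemma mem_box {d : ℕ} {s κ : Fin d → ℕ} :
    κ ∈ box s ↔ ∀ j, 2 ^ (s j) ≤ κ j ∧ κ j < 2 ^ (s j + 1) := by
  unfold box; simp [Fintype.mem_piFinset]

lemma box_disjoint {d : ℕ} {s s' : Fin d → ℕ} (h : s ≠ s') : Disjoint (box s) (box s') := by
  rw [Finset.disjoint_left]
  intro κ h1 h2
  rw [mem_box] at h1 h2
  apply h
  funext j
  have h3 := Nat.log_eq_of_pow_le_of_lt_pow (h1 j).1 (h1 j).2
  have h4 := Nat.log_eq_of_pow_le_of_lt_pow (h2 j).1 (h2 j).2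
  rw [← h3, ← h4]

/-- index set for the dyadic boxes of a layer -/
def TT (d' n : ℕ) : Finset (Fin d' → ℕ) := Fintype.piFinset fun _ => Finset.range (n / d' + 1)

/-- the multi-index of level `n` -/
def ss {d' : ℕ} (n : ℕ) (τ : Fin d' → ℕ) : Fin (d' + 1) → ℕ :=
  Fin.cons (n - ∑ j, τ j) τ

lemma sum_tau_le {d' n : ℕ} {τ : Fin d' → ℕ} (h : τ ∈ TT d' n) : ∑ j, τ j ≤ n := by
  unfold TT at h
  rw [Fintype.mem_piFinset] at h
  calc ∑ j, τ j ≤ ∑ _j : Fin d', (n / d') := Finset.sum_le_sum (fun j _ => by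
        have := h j; rw [Finset.mem_range] at this; omega)
    _ = d' * (n / d') := by simp
    _ ≤ n := Nat.mul_div_le n d'

lemma sum_ss {d' n : ℕ} {τ : Fin d' → ℕ} (h : τ ∈ TT d' n) : ∑ j, ss n τ j = n := by
  unfold ss
  rw [Fin.sum_univ_succ]
  simp only [Fin.cons_zero, Fin.cons_succ]
  have := sum_tau_le h
  omega

lemma ss_injective {d' n : ℕ} : Function.Injective (ss n : (Fin d' → ℕ) → _) := by
  intro τ τ' h
  have h1 := congrArg Fin.tail h
  unfold ss at h1
  rwa [Fin.tail_cons, Fin.tail_cons] at h1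

/-- the union of the boxes -/
def AA (d' n : ℕ) : Finset (Fin (d' + 1) → ℕ) := (TT d' n).biUnion fun τ => box (ss n τ)

lemma card_AA (d' n : ℕ) : (AA d' n).card = (n / d' + 1) ^ d' * 2 ^ n := by
  unfold AA
  rw [Finset.card_biUnion]
  · rw [Finset.sum_congr rfl (g := fun _ => 2 ^ n)]
    · rw [Finset.sum_const, smul_eq_mul]
      congr 1
      unfold TT
      rw [Fintype.card_piFinset]
      simp
    · intro τ hτ
      rw [card_box, sum_ss hτ]
  · intro τ _ τ' _ hne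
    exact box_disjoint (fun h => hne (ss_injective h))

lemma sum_pm_fr_le {d m : ℕ} {u : Fin m → (Fin d → ℝ) → ℂ} (hu : IsONSystem u) (ε : Fin d → Bool)
    (A : Finset (Fin d → ℕ)) : ∑ κ ∈ A, pm u (fr ε κ) ≤ m := by
  have := sum_pm_le hu (A.image (fr ε))
  rwa [Finset.sum_image (fun x _ y _ h => fr_injective ε h)] at this

/-- weights -/
noncomputable def ww {d : ℕ} (r : ℝ) (N : ℕ) (k : Fin d → ℤ) : ℝ :=
  ∏ j, (if k j = 0 then 0 else ((((|k j| : ℤ) : ℝ) ^ (-r) * eta N (k j) * eta N (k j))))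

lemma ww_nonneg {d : ℕ} (r : ℝ) (N : ℕ) (k : Fin d → ℤ) : 0 ≤ ww r N k := by
  unfold ww
  apply Finset.prod_nonneg
  intro j _
  split_ifs
  · exact le_rfl
  · have := eta_nonneg N (k j)
    have h2 : (0 : ℝ) ≤ ((|k j| : ℤ) : ℝ) := by positivity
    positivity

lemma prod_eq_ww {d : ℕ} (r : ℝ) (N : ℕ) (l : Fin d → Option Bool) (k : Fin d → ℤ) :
    ∏ j, (h r (k j) * eta N (k j) * cc r N (l j) (k j)) =
      (ww r N k : ℂ) * Lam r l (fun j => decide (0 < k j)) := by
  unfold ww Lam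
  rw [Complex.ofReal_prod, ← Finset.prod_mul_distrib]
  apply Finset.prod_congr rfl; intro j _
  by_cases hk : k j = 0
  · rw [if_pos hk, hk]
    have := h_mul_cc_zero r N (l j)
    rw [Complex.ofReal_zero, zero_mul]
    linear_combination (eta N 0 : ℂ) * this
  · rw [if_neg hk]
    have := h_mul_cc r N (l j) (k j) hk
    rw [Complex.ofReal_mul] at this
    rw [Complex.ofReal_mul, Complex.ofReal_mul]
    linear_combination (eta N (k j) : ℂ) * this

lemma ww_ge {d n : ℕ} {r : ℝ} (hr : 1 < r) {s κ : Fin d → ℕ} (hs : ∑ j, s j = n) (hκ : κ ∈ box s)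
    (ε : Fin d → Bool) :
    ((2 : ℝ) ^ (n + d)) ^ (-r) * (1 / 4) ^ d ≤ ww r (2 ^ (n + 2)) (fr ε κ) := by
  rw [mem_box] at hκ
  have h1 : ((2 : ℝ) ^ (n + d)) ^ (-r) * (1 / 4) ^ d =
      ∏ j, ((((2 : ℝ) ^ (s j + 1)) ^ (-r)) * (1 / 2) * (1 / 2)) := by
    simp only [Finset.prod_mul_distrib, Finset.prod_const, Finset.card_univ, Fintype.card_fin]
    rw [Real.finsetProd_rpow _ _ (fun j _ => by positivity)]
    rw [Finset.prod_pow_eq_pow_sum, Finset.sum_add_distrib, hs]
    simp only [Finset.sum_const, Finset.card_univ, Fintype.card_fin, smul_eq_mul, mul_one]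
    rw [mul_assoc, ← mul_pow]
    norm_num
  rw [h1]
  unfold ww
  apply Finset.prod_le_prod
  · intro j _; positivity
  · intro j _
    have h2 := hκ j
    have hpos : 0 < κ j := lt_of_lt_of_le (by positivity) h2.1
    have hne : fr ε κ j ≠ 0 := by
      have := abs_fr ε κ j
      intro h0
      rw [h0] at this
      simp at this
      omega
    rw [if_neg hne, abs_fr]
    have hsj : s j ≤ n := by
      rw [← hs]; exact Finset.single_le_sum (fun i _ => Nat.zero_le (s i)) (Finset.mem_univ j)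
    have heta : 1 / 2 ≤ eta (2 ^ (n + 2)) (fr ε κ j) := by
      apply eta_ge_half
      have h3 : |((fr ε κ j : ℤ) : ℝ)| = (κ j : ℝ) := by
        have := abs_fr ε κ j
        have h4 : ((|fr ε κ j| : ℤ) : ℝ) = ((κ j : ℤ) : ℝ) := by rw [this]
        push_cast at h4; exact h4
      rw [h3]
      have h5 : 2 * κ j ≤ 2 ^ (n + 2) := by
        have : 2 ^ (s j + 1) ≤ 2 ^ (n + 1) := Nat.pow_le_pow_right (by norm_num) (by omega)
        have h6 : 2 ^ (n + 2) = 2 * 2 ^ (n + 1) := by ring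
        omega
      exact_mod_cast h5
    have hk : ((2 : ℝ) ^ (s j + 1)) ^ (-r) ≤ (((κ j : ℤ)) : ℝ) ^ (-r) := by
      apply Real.rpow_le_rpow_of_nonpos
      · have : (0 : ℝ) < (κ j : ℝ) := by exact_mod_cast hpos
        simpa using this
      · have : (κ j : ℝ) ≤ ((2 ^ (s j + 1) : ℕ) : ℝ) := by exact_mod_cast h2.2.le
        push_cast at this ⊢; exact this
      · linarith
    gcongr

/-- Lower bound from a Farkas functional. -/
theorem lower1 {d' : ℕ} {r : ℝ} (hr : 1 < r) {M : ℕ} (hM : M ≤ d' + 1) (hB : ¬ Bal (d' + 1) r M) :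
    ∃ c : ℝ, 0 < c ∧ ∀ (n m : ℕ) (u : Fin m → (Fin (d' + 1) → ℝ) → ℂ) (R : ℝ),
      IsONSystem u → 0 ≤ R → Achieves r u R → 2 * m ≤ (n / d' + 1) ^ d' * 2 ^ n →
      c * ((2 : ℝ) ^ n) ^ (1 - r) * ((n / d' + 1 : ℕ) : ℝ) ^ d' ≤
        R * ((n : ℝ) + 1) ^ (d' + 1 - M) := by
  obtain ⟨y, hy0, hyn, ε0, hε0⟩ := farkas hB
  set Q : (Fin (d' + 1) → Bool) → ℝ := fun ε => (∑ l, y l * Lam r l ε).re with hQ
  set Y : ℝ := ∑ l, ‖y l‖ with hY
  have hY0 : 0 ≤ Y := Finset.sum_nonneg (fun _ _ => norm_nonneg _)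
  set c : ℝ := ((2 : ℝ) ^ (d' + 1)) ^ (-r) * (1 / 4) ^ (d' + 1) * Q ε0 / 2 /
    ((Y + 1) * 2 ^ (d' + 1) * 4 ^ (d' + 1 - M)) with hc
  have hQ0 : 0 < Q ε0 := hε0
  refine ⟨c, by positivity, ?_⟩
  intro n m u R hu hR0 hR hm
  set N : ℕ := 2 ^ (n + 2) with hN
  have hNpos : 0 < N := by positivity
  -- the functional inequality
  have hlam : ∀ l : Fin (d' + 1) → Option Bool, M ≤ cnt l →
      ‖∑ k ∈ bx (d' + 1) N, (((1 - pm u k : ℝ) : ℂ) *
        ∏ j, (h r (k j) * eta N (k j) * cc r N (l j) (k j)))‖ ≤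
      R * (2 ^ (d' + 1) * (4 * ((n : ℝ) + 1)) ^ (d' + 1 - M)) := by
    intro l hl
    have h1 := dual_product hr hu hR0 hR hNpos (fun j => cc r N (l j))
      (fun j => if l j = none then 2 else 2 + Real.log N) (fun j => integral_cc_le r hNpos (l j))
    refine h1.trans ?_
    apply mul_le_mul_of_nonneg_left _ hR0
    rw [Finset.prod_ite]
    simp only [Finset.prod_const]
    have hcnt : (Finset.univ.filter (fun j => l j = none)).card = cnt l := rfl
    have hcnt' : (Finset.univ.filter (fun j => ¬ l j = none)).card = d' + 1 - cnt l := by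
      have := Finset.card_filter_add_card_filter_not (s := (Finset.univ : Finset (Fin (d' + 1))))
        (fun j => l j = none)
      rw [hcnt] at this
      simp only [Finset.card_univ, Fintype.card_fin] at this
      omega
    rw [hcnt, hcnt']
    have hcle : cnt l ≤ d' + 1 := by
      unfold cnt; exact (Finset.card_le_univ _).trans (by simp)
    have hlog : 2 + Real.log N ≤ 4 * ((n : ℝ) + 1) := by
      have : Real.log N = (n + 2) * Real.log 2 := by
        rw [hN]; push_cast; rw [Real.log_pow]; push_cast; ring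
      rw [this]
      have h2 := Real.log_two_lt_d9
      have h3 : (0 : ℝ) ≤ n := by positivity
      nlinarith
    have hlog0 : 0 ≤ 2 + Real.log N := by
      have : 0 ≤ Real.log N := Real.log_natCast_nonneg N
      linarith
    have h4 : (1 : ℝ) ≤ 4 * ((n : ℝ) + 1) := by
      have : (0 : ℝ) ≤ n := by positivity
      linarith
    apply mul_le_mul
    · exact pow_le_pow_right₀ (by norm_num) hcle
    · calc (2 + Real.log N) ^ (d' + 1 - cnt l) ≤ (4 * ((n : ℝ) + 1)) ^ (d' + 1 - cnt l) :=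
            pow_le_pow_left₀ hlog0 hlog _
        _ ≤ (4 * ((n : ℝ) + 1)) ^ (d' + 1 - M) := pow_le_pow_right₀ h4 (by omega)
    · positivity
    · positivity
  have hsum : ‖∑ l : Fin (d' + 1) → Option Bool, y l * ∑ k ∈ bx (d' + 1) N, (((1 - pm u k : ℝ) : ℂ) *
        ∏ j, (h r (k j) * eta N (k j) * cc r N (l j) (k j)))‖ ≤
      Y * (R * (2 ^ (d' + 1) * (4 * ((n : ℝ) + 1)) ^ (d' + 1 - M))) := by
    refine (norm_sum_le _ _).trans ?_
    rw [hY, Finset.sum_mul]
    apply Finset.sum_le_sum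
    intro l _
    rw [norm_mul]
    by_cases hl : M ≤ cnt l
    · exact mul_le_mul_of_nonneg_left (hlam l hl) (norm_nonneg _)
    · rw [hy0 l (by omega)]; simp
  have hre : (∑ l : Fin (d' + 1) → Option Bool, y l * ∑ k ∈ bx (d' + 1) N, (((1 - pm u k : ℝ) : ℂ) *
        ∏ j, (h r (k j) * eta N (k j) * cc r N (l j) (k j)))).re =
      ∑ k ∈ bx (d' + 1) N, (1 - pm u k) * ww r N k * Q (fun j => decide (0 < k j)) := by
    have h1 : ∑ l : Fin (d' + 1) → Option Bool, y l * ∑ k ∈ bx (d' + 1) N, (((1 - pm u k : ℝ) : ℂ) *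
        ∏ j, (h r (k j) * eta N (k j) * cc r N (l j) (k j))) =
        ∑ k ∈ bx (d' + 1) N, (((1 - pm u k) * ww r N k : ℝ) : ℂ) *
          ∑ l, y l * Lam r l (fun j => decide (0 < k j)) := by
      simp only [Finset.mul_sum]
      rw [Finset.sum_comm]
      apply Finset.sum_congr rfl; intro k _
      apply Finset.sum_congr rfl; intro l _
      rw [prod_eq_ww]; push_cast; ring
    rw [h1, Complex.re_sum]
    apply Finset.sum_congr rfl; intro k _
    rw [Complex.re_ofReal_mul]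
  -- lower bound of the real part
  have hlow : (((2 : ℝ) ^ (n + (d' + 1))) ^ (-r) * (1 / 4) ^ (d' + 1)) * Q ε0 * ((AA d' n).card - m) ≤
      ∑ k ∈ bx (d' + 1) N, (1 - pm u k) * ww r N k * Q (fun j => decide (0 < k j)) := by
    have hsub : (AA d' n).image (fr ε0) ⊆ bx (d' + 1) N := by
      intro k hk
      rw [Finset.mem_image] at hk
      obtain ⟨κ, hκ, rfl⟩ := hk
      unfold AA at hκ
      rw [Finset.mem_biUnion] at hκ
      obtain ⟨τ, hτ, hκ⟩ := hκ
      rw [mem_box] at hκ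
      unfold bx
      rw [Fintype.mem_piFinset]
      intro j
      rw [Finset.mem_Icc, ← abs_le, abs_fr]
      have h1 := (hκ j).2
      have h2 : ss n τ j ≤ n := by
        calc ss n τ j ≤ ∑ i, ss n τ i :=
              Finset.single_le_sum (fun i _ => Nat.zero_le _) (Finset.mem_univ j)
          _ = n := sum_ss hτ
      have h3 : 2 ^ (ss n τ j + 1) ≤ 2 ^ (n + 2) := Nat.pow_le_pow_right (by norm_num) (by omega)
      have h4 : κ j ≤ N := by rw [hN]; omega
      exact_mod_cast h4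
    calc (((2 : ℝ) ^ (n + (d' + 1))) ^ (-r) * (1 / 4) ^ (d' + 1)) * Q ε0 * ((AA d' n).card - m)
        ≤ (((2 : ℝ) ^ (n + (d' + 1))) ^ (-r) * (1 / 4) ^ (d' + 1)) * Q ε0 *
            ∑ κ ∈ AA d' n, (1 - pm u (fr ε0 κ)) := by
          apply mul_le_mul_of_nonneg_left _ (by positivity)
          rw [Finset.sum_sub_distrib]
          have := sum_pm_fr_le hu ε0 (AA d' n)
          simp only [Finset.sum_const, nsmul_eq_mul, mul_one]
          linarith
      _ = ∑ κ ∈ AA d' n, (1 - pm u (fr ε0 κ)) *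
            (((2 : ℝ) ^ (n + (d' + 1))) ^ (-r) * (1 / 4) ^ (d' + 1)) * Q ε0 := by
          rw [Finset.mul_sum]; apply Finset.sum_congr rfl; intro κ _; ring
      _ ≤ ∑ κ ∈ AA d' n, (1 - pm u (fr ε0 κ)) * ww r N (fr ε0 κ) *
            Q (fun j => decide (0 < fr ε0 κ j)) := by
          apply Finset.sum_le_sum
          intro κ hκ
          unfold AA at hκ
          rw [Finset.mem_biUnion] at hκ
          obtain ⟨τ, hτ, hκ⟩ := hκ
          have hsgn : (fun j => decide (0 < fr ε0 κ j)) = ε0 := by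
            funext j
            have hpos : 0 < κ j := lt_of_lt_of_le (by positivity) ((mem_box.mp hκ) j).1
            unfold fr
            rcases hb : ε0 j with _ | _
            · simp
            · simp [hpos]
          rw [hsgn]
          have h1 := ww_ge hr (sum_ss hτ) hκ ε0
          have h2 : 0 ≤ 1 - pm u (fr ε0 κ) := by have := pm_le_one hu (fr ε0 κ); linarith
          apply mul_le_mul_of_nonneg_right _ hQ0.le
          exact mul_le_mul_of_nonneg_left h1 h2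
      _ = ∑ k ∈ (AA d' n).image (fr ε0), (1 - pm u k) * ww r N k * Q (fun j => decide (0 < k j)) := by
          rw [Finset.sum_image (fun x _ y _ h => fr_injective ε0 h)]
      _ ≤ _ := by
          apply Finset.sum_le_sum_of_subset_of_nonneg hsub
          intro k _ _
          have h2 : 0 ≤ 1 - pm u k := by have := pm_le_one hu k; linarith
          exact mul_nonneg (mul_nonneg h2 (ww_nonneg r N k)) (hyn _)
  have hfin : (((2 : ℝ) ^ (n + (d' + 1))) ^ (-r) * (1 / 4) ^ (d' + 1)) * Q ε0 * ((AA d' n).card - m) ≤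
      (Y + 1) * (R * (2 ^ (d' + 1) * (4 * ((n : ℝ) + 1)) ^ (d' + 1 - M))) := by
    have h1 := (Complex.re_le_norm _).trans hsum
    rw [hre] at h1
    refine hlow.trans (h1.trans ?_)
    apply mul_le_mul_of_nonneg_right (by linarith)
    positivity
  have hcard : (((n / d' + 1 : ℕ) : ℝ) ^ d' * 2 ^ n) / 2 ≤ ((AA d' n).card : ℝ) - m := by
    rw [card_AA]
    have : (2 * m : ℝ) ≤ (((n / d' + 1 : ℕ) : ℝ) ^ d' * 2 ^ n) := by exact_mod_cast hm
    push_cast at this ⊢
    linarith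
  have hpow : ((2 : ℝ) ^ (n + (d' + 1))) ^ (-r) * 2 ^ n =
      ((2 : ℝ) ^ (d' + 1)) ^ (-r) * ((2 : ℝ) ^ n) ^ (1 - r) := by
    rw [pow_add, Real.mul_rpow (by positivity) (by positivity), sub_eq_add_neg,
      Real.rpow_add (by positivity), Real.rpow_one]
    ring
  rw [hc]
  rw [div_mul_eq_mul_div, div_mul_eq_mul_div, div_le_iff₀ (by positivity)]
  calc ((2 : ℝ) ^ (d' + 1)) ^ (-r) * (1 / 4) ^ (d' + 1) * Q ε0 / 2 * ((2 : ℝ) ^ n) ^ (1 - r) *
        ((n / d' + 1 : ℕ) : ℝ) ^ d'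
      = (((2 : ℝ) ^ (d' + 1)) ^ (-r) * ((2 : ℝ) ^ n) ^ (1 - r)) * ((1 / 4) ^ (d' + 1) * Q ε0 *
          ((n / d' + 1 : ℕ) : ℝ) ^ d' / 2) := by ring
    _ = (((2 : ℝ) ^ (n + (d' + 1))) ^ (-r) * (1 / 4) ^ (d' + 1)) * Q ε0 *
          ((((n / d' + 1 : ℕ) : ℝ) ^ d' * 2 ^ n) / 2) := by rw [← hpow]; ring
    _ ≤ (((2 : ℝ) ^ (n + (d' + 1))) ^ (-r) * (1 / 4) ^ (d' + 1)) * Q ε0 * ((AA d' n).card - m) := by
        apply mul_le_mul_of_nonneg_left hcard (by positivity)
    _ ≤ _ := hfin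
    _ = R * ((n : ℝ) + 1) ^ (d' + 1 - M) * ((Y + 1) * 2 ^ (d' + 1) * 4 ^ (d' + 1 - M)) := by
        rw [mul_pow]; ring

end Pool.Agent.Helper935.OW
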