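import Pool.Agent.Helper935.OW.Fourier

open MeasureTheory
open scoped ENNReal ComplexConjugate

namespace Pool.Agent.Helper935.OW

variable {d : ℕ}

/-- multivariate exponential -/
noncomputable def E (k : Fin d → ℤ) (x : Fin d → ℝ) : ℂ := ∏ j, e (k j) (x j)

/-- Fourier coefficients of the multivariate kernel -/
noncomputable def H (r : ℝ) (k : Fin d → ℤ) : ℂ := ∏ j, h r (k j)

lemma norm_E (k : Fin d → ℤ) (x : Fin d → ℝ) : ‖E k x‖ = 1 := by
  unfold E; rw [norm_prod]; simp [norm_e]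

lemma E_zero (x : Fin d → ℝ) : E 0 x = 1 := by simp [E, e_zero]

lemma E_add (k l : Fin d → ℤ) (x : Fin d → ℝ) : E (k + l) x = E k x * E l x := by
  unfold E; rw [← Finset.prod_mul_distrib]; simp [e_add]

lemma E_arg_sub (k : Fin d → ℤ) (x y : Fin d → ℝ) : E k (x - y) = E k x * E (-k) y := by
  unfold E; rw [← Finset.prod_mul_distrib]; simp [e_arg_sub]

lemma conj_E (k : Fin d → ℤ) (x : Fin d → ℝ) : conj (E k x) = E (-k) x := by
  unfold E; rw [map_prod]; simp [conj_e]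

lemma continuous_E (k : Fin d → ℤ) : Continuous (E k) := by
  unfold E
  exact continuous_finsetProd _ (fun j _ => (continuous_e (k j)).comp (continuous_apply j))

lemma integrable_of_cont_bddT {f : (Fin d → ℝ) → ℂ} (hf : Continuous f) (C : ℝ)
    (hC : ∀ t, ‖f t‖ ≤ C) : Integrable f (muT d) :=
  (integrable_const C).mono' hf.aestronglyMeasurable (Filter.Eventually.of_forall hC)

lemma integrable_E (k : Fin d → ℤ) : Integrable (E k) (muT d) :=
  integrable_of_cont_bddT (continuous_E k) 1 (fun t => (norm_E k t).le)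

lemma integral_E (k : Fin d → ℤ) : ∫ x, E k x ∂(muT d) = if k = 0 then 1 else 0 := by
  unfold E muT
  rw [integral_fintype_prod_eq_prod (fun j t => e (k j) t)]
  simp only [integral_e]
  by_cases hk : k = 0
  · subst hk; simp
  · rw [if_neg hk]
    obtain ⟨j, hj⟩ : ∃ j, k j ≠ 0 := by
      by_contra hcon; push Not at hcon; exact hk (funext hcon)
    exact Finset.prod_eq_zero (Finset.mem_univ j) (by simp [hj])

lemma continuous_FF {r : ℝ} (hr : 1 < r) : Continuous (FF d r) := by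
  unfold FF
  exact continuous_finsetProd _ (fun j _ => (continuous_F1 hr).comp (continuous_apply j))

lemma norm_FF_le {r : ℝ} (hr : 1 < r) : ∃ C : ℝ, 0 < C ∧ ∀ x : Fin d → ℝ, |FF d r x| ≤ C := by
  obtain ⟨C, hC, h1⟩ := norm_F1_le hr
  refine ⟨C ^ d, by positivity, fun x => ?_⟩
  unfold FF
  rw [Finset.abs_prod]
  calc ∏ j, |F1 r (x j)| ≤ ∏ _j : Fin d, C := Finset.prod_le_prod (fun _ _ => abs_nonneg _)
        (fun j _ => h1 _)
    _ = C ^ d := by simp

lemma conv_FF {r : ℝ} (hr : 1 < r) (k : Fin d → ℤ) (x : Fin d → ℝ) :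
    ∫ y, (FF d r (x - y) : ℂ) * E k y ∂(muT d) = H r k * E k x := by
  have h1 : ∀ y : Fin d → ℝ, (FF d r (x - y) : ℂ) * E k y =
      ∏ j, ((F1 r (x j - y j) : ℂ) * e (k j) (y j)) := by
    intro y
    unfold FF E
    push_cast
    rw [Finset.prod_mul_distrib]; rfl
  simp only [h1]
  unfold muT
  rw [integral_fintype_prod_eq_prod (fun j t => (F1 r (x j - t) : ℂ) * e (k j) t)]
  simp only [conv_F1 hr]
  unfold H E
  rw [Finset.prod_mul_distrib]

lemma conv_FF' {r : ℝ} (hr : 1 < r) (k : Fin d → ℤ) (y : Fin d → ℝ) :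
    ∫ x, (FF d r (x - y) : ℂ) * E (-k) x ∂(muT d) = H r k * E (-k) y := by
  have h1 : ∀ x : Fin d → ℝ, (FF d r (x - y) : ℂ) * E (-k) x =
      ∏ j, ((F1 r (x j - y j) : ℂ) * e (-(k j)) (x j)) := by
    intro y
    unfold FF E
    push_cast
    rw [Finset.prod_mul_distrib]; rfl
  simp only [h1]
  unfold muT
  rw [integral_fintype_prod_eq_prod (fun j t => (F1 r (t - y j) : ℂ) * e (-(k j)) t)]
  simp only [conv_F1' hr]
  unfold H E
  rw [Finset.prod_mul_distrib]; rfl

lemma memLp_E (k : Fin d → ℤ) : MemLp (E k) 2 (muT d) :=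
  MemLp.of_bound (continuous_E k).aestronglyMeasurable 1
    (Filter.Eventually.of_forall (fun x => (norm_E k x).le))

/-- `E k` in `L_2` -/
noncomputable def EL (k : Fin d → ℤ) : Lp ℂ 2 (muT d) := (memLp_E k).toLp (E k)

lemma inner_toLp {f g : (Fin d → ℝ) → ℂ} (hf : MemLp f 2 (muT d)) (hg : MemLp g 2 (muT d)) :
    inner ℂ (hf.toLp f) (hg.toLp g) = ∫ x, g x * conj (f x) ∂(muT d) := by
  rw [L2.inner_def]
  apply integral_congr_ae
  filter_upwards [hf.coeFn_toLp, hg.coeFn_toLp] with x h1 h2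
  rw [h1, h2]
  simp

lemma orthonormal_EL : Orthonormal ℂ (EL : (Fin d → ℤ) → Lp ℂ 2 (muT d)) := by
  rw [orthonormal_iff_ite]
  intro k l
  unfold EL
  rw [inner_toLp]
  have : ∀ x, E l x * conj (E k x) = E (l - k) x := by
    intro x; rw [conj_E, ← E_add]; rfl
  simp only [this, integral_E]
  by_cases hkl : k = l
  · subst hkl; simp
  · rw [if_neg hkl, if_neg (by rw [sub_eq_zero]; exact fun h => hkl h.symm)]

lemma orthonormal_toLp {m : ℕ} {u : Fin m → (Fin d → ℝ) → ℂ} (hu : IsONSystem u) :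
    Orthonormal ℂ (fun i => (hu.1 i).toLp (u i)) := by
  rw [orthonormal_iff_ite]
  intro i j
  rw [inner_toLp, hu.2 j i]
  by_cases hij : i = j
  · subst hij; simp
  · rw [if_neg hij, if_neg (fun h => hij h.symm)]

/-- Fourier mass of the system at frequency `k` -/
noncomputable def pm {m : ℕ} (u : Fin m → (Fin d → ℝ) → ℂ) (k : Fin d → ℤ) : ℝ :=
  ∑ i, ‖∫ y, E k y * conj (u i y) ∂(muT d)‖ ^ 2

lemma pm_nonneg {m : ℕ} (u : Fin m → (Fin d → ℝ) → ℂ) (k : Fin d → ℤ) : 0 ≤ pm u k :=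
  Finset.sum_nonneg (fun i _ => by positivity)

lemma pm_le_one {m : ℕ} {u : Fin m → (Fin d → ℝ) → ℂ} (hu : IsONSystem u) (k : Fin d → ℤ) :
    pm u k ≤ 1 := by
  have h1 := (orthonormal_toLp hu).sum_inner_products_le (EL k) (s := Finset.univ)
  have h2 : ‖(EL k : Lp ℂ 2 (muT d))‖ = 1 := orthonormal_EL.1 k
  rw [h2, one_pow] at h1
  refine le_trans (le_of_eq ?_) h1
  unfold pm
  apply Finset.sum_congr rfl
  intro i _
  unfold EL
  rw [inner_toLp]

lemma sum_pm_le {m : ℕ} {u : Fin m → (Fin d → ℝ) → ℂ} (hu : IsONSystem u)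
    (A : Finset (Fin d → ℤ)) : ∑ k ∈ A, pm u k ≤ m := by
  unfold pm
  rw [Finset.sum_comm]
  have : ∀ i : Fin m, ∑ k ∈ A, ‖∫ y, E k y * conj (u i y) ∂(muT d)‖ ^ 2 ≤ 1 := by
    intro i
    have h1 := orthonormal_EL.sum_inner_products_le ((hu.1 i).toLp (u i)) (s := A)
    have h2 : ‖(hu.1 i).toLp (u i)‖ = 1 := (orthonormal_toLp hu).1 i
    rw [h2, one_pow] at h1
    refine le_trans (le_of_eq ?_) h1
    apply Finset.sum_congr rfl
    intro k _
    have h3 : inner ℂ ((hu.1 i).toLp (u i)) (EL k) = ∫ y, E k y * conj (u i y) ∂(muT d) := by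
      unfold EL; rw [inner_toLp]
    rw [← h3, norm_inner_symm]
  calc ∑ i : Fin m, ∑ k ∈ A, ‖∫ y, E k y * conj (u i y) ∂(muT d)‖ ^ 2
      ≤ ∑ _i : Fin m, (1 : ℝ) := Finset.sum_le_sum (fun i _ => this i)
    _ = m := by simp

end Pool.Agent.Helper935.OW
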