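import Pool.Agent.Helper935.OW.Multi

open scoped ComplexConjugate

namespace Pool.Agent.Helper935.OW

section greedy

variable {G : Type*} [AddCommGroup G] [DecidableEq G]

/-- autocorrelation -/
noncomputable def corr (ρ : Finset G) (z : G → ℂ) (g : G) : ℂ := ∑ k ∈ ρ, z (k + g) * conj (z k)

lemma corr_insert (ρ : Finset G) (z : G → ℂ) (hz : ∀ k, k ∉ ρ → z k = 0) {x : G} (hx : x ∉ ρ)
    (c : ℂ) {g : G} (hg : g ≠ 0) :
    corr (insert x ρ) (fun k => if k = x then c else z k) g =
      corr ρ z g + (z (x + g) * conj c + c * conj (z (x - g))) := by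
  unfold corr
  rw [Finset.sum_insert hx]
  have h1 : x + g ≠ x := by simpa using hg
  beta_reduce
  rw [if_neg h1]
  simp only [if_true]
  have h2 : ∑ k ∈ ρ, (if k + g = x then c else z (k + g)) * conj (if k = x then c else z k) =
      ∑ k ∈ ρ, z (k + g) * conj (z k) + c * conj (z (x - g)) := by
    have h3 : ∀ k ∈ ρ, (if k + g = x then c else z (k + g)) * conj (if k = x then c else z k) =
        z (k + g) * conj (z k) + (if k = x - g then c * conj (z k) else 0) := by
      intro k hk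
      have hkx : k ≠ x := fun h => hx (h ▸ hk)
      rw [if_neg hkx]
      by_cases h : k + g = x
      · have h' : k = x - g := by rw [← h]; simp
        rw [if_pos h, if_pos h', h, hz x hx]; ring
      · have h' : k ≠ x - g := by rintro rfl; apply h; simp
        rw [if_neg h, if_neg h']; ring
    rw [Finset.sum_congr rfl h3, Finset.sum_add_distrib]
    congr 1
    rw [Finset.sum_ite_eq' ρ (x - g) (fun k => c * conj (z k))]
    split_ifs with h
    · rfl
    · rw [hz _ h]; simp
  rw [h2]; ring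

lemma greedy (D : Finset G) (hD : (0 : G) ∉ D) (a : G → ℂ) {A : ℝ} (hA : 0 ≤ A) {w : ℝ}
    (hw0 : 0 ≤ w) (hw1 : w ≤ 1) (ρ : Finset G) (ha : ∀ k ∈ ρ, ‖a k‖ ≤ A) :
    ∃ ζ : G → ℝ, (∀ k ∈ ρ, ζ k = 1 - w ∨ ζ k = -w) ∧ (∀ k, k ∉ ρ → ζ k = 0) ∧
      ∑ g ∈ D, ‖corr ρ (fun k => (ζ k : ℂ) * a k) g‖ ^ 2 ≤ 2 * (ρ.card : ℝ) ^ 2 * A ^ 4 := by
  induction ρ using Finset.induction_on with
  | empty => exact ⟨fun _ => 0, by simp, by simp, by simp [corr]⟩
  | insert x ρ hx ih =>
    obtain ⟨ζ, h1, h2, h3⟩ := ih (fun k hk => ha k (Finset.mem_insert_of_mem hk))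
    set z : G → ℂ := fun k => (ζ k : ℂ) * a k with hz
    have hz0 : ∀ k, k ∉ ρ → z k = 0 := by intro k hk; simp only [hz]; rw [h2 k hk]; simp
    have hzb : ∀ k, ‖z k‖ ≤ if k ∈ ρ then A else 0 := by
      intro k
      split_ifs with hk
      · simp only [hz]
        rw [norm_mul, Complex.norm_real, Real.norm_eq_abs]
        have h4 : |ζ k| ≤ 1 := by
          rcases h1 k hk with h | h <;> rw [h, abs_le] <;> constructor <;> linarith
        have h5 := ha k (Finset.mem_insert_of_mem hk)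
        calc |ζ k| * ‖a k‖ ≤ 1 * A := mul_le_mul h4 h5 (norm_nonneg _) (by norm_num)
          _ = A := one_mul A
      · rw [hz0 k hk]; simp
    set Dg : G → ℂ := fun g => z (x + g) * conj (a x) + a x * conj (z (x - g)) with hDg
    set R : ℝ := (∑ g ∈ D, conj (corr ρ z g) * Dg g).re with hR
    -- choice of the sign
    obtain ⟨y, hy, hyR, hy1⟩ : ∃ y : ℝ, (y = 1 - w ∨ y = -w) ∧ y * R ≤ 0 ∧ |y| ≤ 1 := by
      rcases le_total 0 R with hR0 | hR0
      · exact ⟨-w, Or.inr rfl, by nlinarith, by rw [abs_le]; constructor <;> linarith⟩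
      · exact ⟨1 - w, Or.inl rfl, by nlinarith, by rw [abs_le]; constructor <;> linarith⟩
    refine ⟨fun k => if k = x then y else ζ k, ?_, ?_, ?_⟩
    · intro k hk
      beta_reduce
      by_cases hkx : k = x
      · rw [if_pos hkx]; exact hy
      · rw [if_neg hkx]
        exact h1 k ((Finset.mem_insert.mp hk).resolve_left hkx)
    · intro k hk
      rw [Finset.mem_insert, not_or] at hk
      beta_reduce
      rw [if_neg hk.1]; exact h2 k hk.2
    · have hfun : (fun k => (((if k = x then y else ζ k) : ℝ) : ℂ) * a k) =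
          fun k => if k = x then (y : ℂ) * a x else z k := by
        funext k
        by_cases hkx : k = x
        · beta_reduce; rw [if_pos hkx, if_pos hkx, hkx]
        · beta_reduce; rw [if_neg hkx, if_neg hkx]
      rw [hfun]
      have hcorr : ∀ g ∈ D, corr (insert x ρ) (fun k => if k = x then (y : ℂ) * a x else z k) g =
          corr ρ z g + (y : ℂ) * Dg g := by
        intro g hg
        rw [corr_insert ρ z hz0 hx _ (by rintro rfl; exact hD hg)]
        simp only [hDg, map_mul, Complex.conj_ofReal]; ring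
      have hnorm : ∀ g ∈ D, ‖corr (insert x ρ) (fun k => if k = x then (y : ℂ) * a x else z k) g‖ ^ 2 =
          ‖corr ρ z g‖ ^ 2 + 2 * y * (conj (corr ρ z g) * Dg g).re + y ^ 2 * ‖Dg g‖ ^ 2 := by
        intro g hg
        rw [hcorr g hg]
        rw [← Complex.normSq_eq_norm_sq, ← Complex.normSq_eq_norm_sq, ← Complex.normSq_eq_norm_sq,
          Complex.normSq_add]
        rw [map_mul, Complex.normSq_ofReal]
        have h6 : (corr ρ z g * conj ((y : ℂ) * Dg g)).re = y * (conj (corr ρ z g) * Dg g).re := by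
          rw [map_mul, Complex.conj_ofReal]
          have : corr ρ z g * ((y : ℂ) * conj (Dg g)) = (y : ℂ) * conj (conj (corr ρ z g) * Dg g) := by
            rw [map_mul, Complex.conj_conj]; ring
          rw [this, Complex.re_ofReal_mul, Complex.conj_re]
        rw [h6]; ring
      rw [Finset.sum_congr rfl hnorm, Finset.sum_add_distrib, Finset.sum_add_distrib]
      have h7 : ∑ g ∈ D, 2 * y * (conj (corr ρ z g) * Dg g).re = 2 * (y * R) := by
        rw [hR, Complex.re_sum, ← Finset.mul_sum]; ring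
      have h8 : ∑ g ∈ D, y ^ 2 * ‖Dg g‖ ^ 2 ≤ 4 * (ρ.card : ℝ) * A ^ 4 := by
        have hax := ha x (Finset.mem_insert_self x ρ)
        have h9 : ∀ g ∈ D, y ^ 2 * ‖Dg g‖ ^ 2 ≤
            2 * A ^ 4 * (if x + g ∈ ρ then 1 else 0) + 2 * A ^ 4 * (if x - g ∈ ρ then 1 else 0) := by
          intro g _
          have hy2 : y ^ 2 ≤ 1 := by
            rw [← sq_abs]; exact pow_le_one₀ (abs_nonneg _) hy1
          have hn : ‖Dg g‖ ≤ A * ‖z (x + g)‖ + A * ‖z (x - g)‖ := by
            simp only [hDg]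
            refine (norm_add_le _ _).trans ?_
            rw [norm_mul (z (x + g)) _, norm_mul (a x) _, RCLike.norm_conj, RCLike.norm_conj]
            have h10 := mul_le_mul_of_nonneg_right hax (norm_nonneg (z (x + g)))
            have h11 := mul_le_mul_of_nonneg_right hax (norm_nonneg (z (x - g)))
            linarith
          have h12 := hzb (x + g)
          have h13 := hzb (x - g)
          have h14 : ‖Dg g‖ ^ 2 ≤ 2 * (A * ‖z (x + g)‖) ^ 2 + 2 * (A * ‖z (x - g)‖) ^ 2 := by
            have h15 : ‖Dg g‖ ^ 2 ≤ (A * ‖z (x + g)‖ + A * ‖z (x - g)‖) ^ 2 :=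
              pow_le_pow_left₀ (norm_nonneg _) hn 2
            nlinarith [sq_nonneg (A * ‖z (x + g)‖ - A * ‖z (x - g)‖)]
          have h16 : ∀ u : G, (A * ‖z u‖) ^ 2 ≤ A ^ 4 * (if u ∈ ρ then 1 else 0) := by
            intro u
            have h17 := hzb u
            split_ifs at h17 ⊢ with hu
            · have : (A * ‖z u‖) ^ 2 ≤ (A * A) ^ 2 :=
                pow_le_pow_left₀ (by positivity) (mul_le_mul_of_nonneg_left h17 hA) 2
              calc (A * ‖z u‖) ^ 2 ≤ (A * A) ^ 2 := this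
                _ = A ^ 4 * 1 := by ring
            · have : ‖z u‖ = 0 := le_antisymm h17 (norm_nonneg _)
              rw [this]; simp
          have h18 := h16 (x + g)
          have h19 := h16 (x - g)
          have h20 : y ^ 2 * ‖Dg g‖ ^ 2 ≤ 1 * ‖Dg g‖ ^ 2 :=
            mul_le_mul_of_nonneg_right hy2 (by positivity)
          linarith
        refine (Finset.sum_le_sum h9).trans ?_
        rw [Finset.sum_add_distrib, ← Finset.mul_sum, ← Finset.mul_sum]
        have h21 : ∑ g ∈ D, (if x + g ∈ ρ then (1 : ℝ) else 0) ≤ ρ.card := by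
          rw [Finset.sum_boole]
          have : (D.filter (fun g => x + g ∈ ρ)).card ≤ ρ.card :=
            Finset.card_le_card_of_injOn (fun g => x + g)
              (fun g hg => (Finset.mem_filter.mp hg).2) (fun a _ b _ h => by simpa using h)
          exact_mod_cast this
        have h22 : ∑ g ∈ D, (if x - g ∈ ρ then (1 : ℝ) else 0) ≤ ρ.card := by
          rw [Finset.sum_boole]
          have : (D.filter (fun g => x - g ∈ ρ)).card ≤ ρ.card :=
            Finset.card_le_card_of_injOn (fun g => x - g)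
              (fun g hg => (Finset.mem_filter.mp hg).2) (fun a _ b _ h => by simpa using h)
          exact_mod_cast this
        have hA4 : 0 ≤ A ^ 4 := by positivity
        nlinarith
      rw [h7, Finset.card_insert_of_notMem hx]
      push_cast
      have hA4 : 0 ≤ A ^ 4 := by positivity
      have hc : (0 : ℝ) ≤ ρ.card := by positivity
      nlinarith

end greedy

variable {d : ℕ}

/-- Rounding of a fractional weight to a subset, uniformly small exponential sum. -/
theorem rounding (ρ D : Finset (Fin d → ℤ)) (hD : ∀ k ∈ ρ, ∀ l ∈ ρ, k - l ∈ D)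
    (a : (Fin d → ℤ) → ℂ) {A : ℝ} (hA : 0 ≤ A) (ha : ∀ k ∈ ρ, ‖a k‖ ≤ A) {w : ℝ}
    (hw0 : 0 ≤ w) (hw1 : w ≤ 1) :
    ∃ S ⊆ ρ, ∀ x : Fin d → ℝ,
      ‖∑ k ∈ S, a k * E k x - (w : ℂ) * ∑ k ∈ ρ, a k * E k x‖ ^ 2 ≤
        A ^ 2 * ρ.card * (1 + Real.sqrt (2 * D.card)) := by
  classical
  obtain ⟨ζ, h1, h2, h3⟩ := greedy (D.erase 0) (Finset.notMem_erase 0 D) a hA hw0 hw1 ρ ha
  refine ⟨ρ.filter (fun k => ζ k = 1 - w), Finset.filter_subset _ _, ?_⟩
  intro x
  set z : (Fin d → ℤ) → ℂ := fun k => (ζ k : ℂ) * a k with hz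
  have hZ : ∑ k ∈ ρ.filter (fun k => ζ k = 1 - w), a k * E k x - (w : ℂ) * ∑ k ∈ ρ, a k * E k x =
      ∑ k ∈ ρ, z k * E k x := by
    rw [Finset.sum_filter, Finset.mul_sum, ← Finset.sum_sub_distrib]
    apply Finset.sum_congr rfl; intro k hk
    by_cases hk1 : ζ k = 1 - w
    · rw [if_pos hk1]; simp only [hz, hk1]; push_cast; ring
    · rw [if_neg hk1]
      have hk2 := (h1 k hk).resolve_left hk1
      simp only [hz, hk2]; push_cast; ring
  rw [hZ]
  have hzb : ∀ k ∈ ρ, ‖z k‖ ≤ A := by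
    intro k hk
    simp only [hz]
    rw [norm_mul, Complex.norm_real, Real.norm_eq_abs]
    have h4 : |ζ k| ≤ 1 := by
      rcases h1 k hk with h | h <;> rw [h, abs_le] <;> constructor <;> linarith
    calc |ζ k| * ‖a k‖ ≤ 1 * A := mul_le_mul h4 (ha k hk) (norm_nonneg _) (by norm_num)
      _ = A := one_mul A
  have hz0 : ∀ k, k ∉ ρ → z k = 0 := by intro k hk; simp only [hz]; rw [h2 k hk]; simp
  -- square of the modulus
  have hsq : ((‖∑ k ∈ ρ, z k * E k x‖ ^ 2 : ℝ) : ℂ) = ∑ g ∈ D, E g x * corr ρ z g := by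
    rw [← Complex.normSq_eq_norm_sq, ← Complex.mul_conj, map_sum, Finset.sum_mul_sum]
    unfold corr
    simp only [Finset.mul_sum]
    rw [Finset.sum_comm (s := D), Finset.sum_comm (s := ρ) (t := ρ)]
    apply Finset.sum_congr rfl; intro l hl
    -- reindex k = l + g
    have h5 : ∀ g ∈ D, E g x * (z (l + g) * conj (z l)) =
        (fun k => E (k - l) x * (z k * conj (z l))) (l + g) := by
      intro g _; simp
    rw [Finset.sum_congr rfl h5]
    have h6 : ∑ g ∈ D, (fun k => E (k - l) x * (z k * conj (z l))) (l + g) =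
        ∑ k ∈ D.image (fun g => l + g), E (k - l) x * (z k * conj (z l)) := by
      rw [Finset.sum_image (fun a _ b _ h => by simpa using h)]
    rw [h6]
    have h7 : ρ ⊆ D.image (fun g => l + g) := by
      intro k hk
      rw [Finset.mem_image]
      exact ⟨k - l, hD k hk l hl, by simp⟩
    rw [← Finset.sum_subset h7]
    · apply Finset.sum_congr rfl; intro k _
      rw [map_mul, conj_E, sub_eq_add_neg, E_add]; ring
    · intro k _ hk
      rw [hz0 k hk]; simp
  have hle : ‖∑ k ∈ ρ, z k * E k x‖ ^ 2 ≤ ∑ g ∈ D, ‖corr ρ z g‖ := by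
    have h8 : ‖((‖∑ k ∈ ρ, z k * E k x‖ ^ 2 : ℝ) : ℂ)‖ = ‖∑ k ∈ ρ, z k * E k x‖ ^ 2 := by
      rw [Complex.norm_real, Real.norm_of_nonneg (by positivity)]
    rw [← h8, hsq]
    refine (norm_sum_le _ _).trans (Finset.sum_le_sum fun g _ => ?_)
    rw [norm_mul, norm_E, one_mul]
  refine hle.trans ?_
  have hcorr0 : ‖corr ρ z 0‖ ≤ A ^ 2 * ρ.card := by
    unfold corr
    refine (norm_sum_le _ _).trans ?_
    calc ∑ k ∈ ρ, ‖z (k + 0) * conj (z k)‖ ≤ ∑ _k ∈ ρ, A ^ 2 := by
          apply Finset.sum_le_sum; intro k hk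
          rw [add_zero, norm_mul, RCLike.norm_conj, pow_two]
          exact mul_le_mul (hzb k hk) (hzb k hk) (norm_nonneg _) hA
      _ = A ^ 2 * ρ.card := by simp; ring
  have hrest : ∑ g ∈ D.erase 0, ‖corr ρ z g‖ ≤ A ^ 2 * ρ.card * Real.sqrt (2 * D.card) := by
    have h9 : (∑ g ∈ D.erase 0, ‖corr ρ z g‖) ^ 2 ≤ (A ^ 2 * ρ.card * Real.sqrt (2 * D.card)) ^ 2 := by
      have h10 := sq_sum_le_card_mul_sum_sq (s := D.erase 0) (f := fun g => ‖corr ρ z g‖)
      refine h10.trans ?_
      rw [mul_pow, Real.sq_sqrt (by positivity)]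
      have h11 : ((D.erase 0).card : ℝ) ≤ D.card := by
        exact_mod_cast Finset.card_le_card (Finset.erase_subset 0 D)
      have h12 : (0 : ℝ) ≤ ∑ g ∈ D.erase 0, ‖corr ρ z g‖ ^ 2 := Finset.sum_nonneg (fun _ _ => by positivity)
      calc ((D.erase 0).card : ℝ) * ∑ g ∈ D.erase 0, ‖corr ρ z g‖ ^ 2
          ≤ (D.card : ℝ) * (2 * (ρ.card : ℝ) ^ 2 * A ^ 4) := mul_le_mul h11 h3 h12 (by positivity)
        _ = (A ^ 2 * ρ.card) ^ 2 * (2 * D.card) := by ring
    exact (sq_le_sq₀ (Finset.sum_nonneg fun _ _ => norm_nonneg _) (by positivity)).mp h9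
  by_cases h0 : (0 : Fin d → ℤ) ∈ D
  · rw [← Finset.add_sum_erase D _ h0]
    calc ‖corr ρ z 0‖ + ∑ g ∈ D.erase 0, ‖corr ρ z g‖
        ≤ A ^ 2 * ρ.card + A ^ 2 * ρ.card * Real.sqrt (2 * D.card) := add_le_add hcorr0 hrest
      _ = _ := by ring
  · rw [Finset.erase_eq_of_notMem h0] at hrest
    have : 0 ≤ A ^ 2 * (ρ.card : ℝ) := by positivity
    calc ∑ g ∈ D, ‖corr ρ z g‖ ≤ A ^ 2 * ρ.card * Real.sqrt (2 * D.card) := hrest
      _ ≤ _ := by nlinarith

end Pool.Agent.Helper935.OW
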