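import Pool.Agent.Helper935.OW.Dual

open MeasureTheory
open scoped ENNReal ComplexConjugate

namespace Pool.Agent.Helper935.OW

variable {d : ℕ}

lemma isONSystem_E {m : ℕ} {k : Fin m → (Fin d → ℤ)} (hk : Function.Injective k) :
    IsONSystem (fun i => E (k i)) := by
  refine ⟨fun i => memLp_E _, ?_⟩
  intro i j
  have : ∀ x, E (k i) x * conj (E (k j) x) = E (k i - k j) x := by
    intro x; rw [conj_E, ← E_add]; rfl
  simp only [this, integral_E]
  by_cases hij : i = j
  · subst hij; simp
  · rw [if_neg hij, if_neg]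
    rw [sub_eq_zero]; exact fun h => hij (hk h)

/-- coefficient of a convolution -/
lemma integral_conv {r : ℝ} (hr : 1 < r) {φ : (Fin d → ℝ) → ℂ} (hφ : Integrable φ (muT d))
    (k : Fin d → ℤ) :
    ∫ x, (∫ y, (FF d r (x - y) : ℂ) * φ y ∂(muT d)) * conj (E k x) ∂(muT d) =
      H r k * ∫ y, φ y * E (-k) y ∂(muT d) := by
  obtain ⟨C, hC, hCb⟩ := norm_FF_le (d := d) hr
  have hcF : Continuous (fun p : (Fin d → ℝ) × (Fin d → ℝ) => (FF d r (p.1 - p.2) : ℂ)) :=
    Complex.continuous_ofReal.comp ((continuous_FF hr).comp (by fun_prop))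
  have h1 : ∀ x, (∫ y, (FF d r (x - y) : ℂ) * φ y ∂(muT d)) * conj (E k x) =
      ∫ y, (FF d r (x - y) : ℂ) * φ y * E (-k) x ∂(muT d) := by
    intro x
    rw [conj_E, ← integral_mul_const]
  simp only [h1]
  have hint : Integrable (Function.uncurry fun x y => (FF d r (x - y) : ℂ) * φ y * E (-k) x)
      ((muT d).prod (muT d)) := by
    have h2 : Integrable (fun p : (Fin d → ℝ) × (Fin d → ℝ) => φ p.2) ((muT d).prod (muT d)) :=
      hφ.comp_snd (muT d)
    refine (h2.norm.const_mul C).mono' ?_ ?_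
    · have h3 := hcF.aestronglyMeasurable (μ := (muT d).prod (muT d))
      have h4 : Continuous (fun p : (Fin d → ℝ) × (Fin d → ℝ) => E (-k) p.1) :=
        (continuous_E (-k)).comp continuous_fst
      exact (h3.mul h2.aestronglyMeasurable).mul h4.aestronglyMeasurable
    · filter_upwards with p
      simp only [Function.uncurry]
      rw [norm_mul, norm_mul, norm_E, mul_one, Complex.norm_real]
      exact mul_le_mul_of_nonneg_right (hCb _) (norm_nonneg _)
  rw [integral_integral_swap hint]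
  have h5 : ∀ y, ∫ x, (FF d r (x - y) : ℂ) * φ y * E (-k) x ∂(muT d) =
      H r k * (φ y * E (-k) y) := by
    intro y
    have h6 : ∀ x, (FF d r (x - y) : ℂ) * φ y * E (-k) x = φ y * ((FF d r (x - y) : ℂ) * E (-k) x) := by
      intro x; ring
    simp only [h6]
    rw [integral_const_mul, conv_FF' hr]; ring
  simp only [h5]
  rw [integral_const_mul]

/-- approximation by a set of exponentials -/
theorem orthowidth_le_of_kernel {m : ℕ} {r : ℝ} (hr : 1 < r) (K : Finset (Fin d → ℤ))
    (hK : K.card = m) {B : ℝ} (hB0 : 0 ≤ B)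
    (hB : ∀ x : Fin d → ℝ, ‖(FF d r x : ℂ) - ∑ k ∈ K, H r k * E k x‖ ≤ B) :
    orthowidth d r m ≤ ENNReal.ofReal B := by
  subst hK
  set k : Fin K.card → (Fin d → ℤ) := fun i => (K.equivFin.symm i : Fin d → ℤ) with hk
  have hinj : Function.Injective k := by
    intro i j hij
    exact K.equivFin.symm.injective (Subtype.ext hij)
  have hsum : ∀ g : (Fin d → ℤ) → ℂ, ∑ i, g (k i) = ∑ l ∈ K, g l := by
    intro g
    rw [← Finset.sum_coe_sort K g]
    exact Equiv.sum_comp K.equivFin.symm (fun l : K => g l)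
  unfold orthowidth
  refine iInf₂_le_of_le (fun i => E (k i)) (isONSystem_E hinj) ?_
  refine iSup₂_le ?_
  rintro f ⟨φ, hφ, hφ1, rfl⟩
  obtain ⟨C, hC, hCb⟩ := norm_FF_le (d := d) hr
  have hval : ∀ x, (∫ y, (FF d r (x - y) : ℂ) * φ y ∂(muT d)) -
      ∑ i, (∫ y, (∫ z, (FF d r (y - z) : ℂ) * φ z ∂(muT d)) * conj (E (k i) y) ∂(muT d)) * E (k i) x =
      ∫ y, ((FF d r (x - y) : ℂ) - ∑ l ∈ K, H r l * E l (x - y)) * φ y ∂(muT d) := by
    intro x
    have h0 : ∀ i, (∫ y, (∫ z, (FF d r (y - z) : ℂ) * φ z ∂(muT d)) * conj (E (k i) y) ∂(muT d)) * E (k i) x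
        = (fun l => (H r l * ∫ y, φ y * E (-l) y ∂(muT d)) * E l x) (k i) := by
      intro i
      rw [integral_conv hr hφ]
    simp only [h0]
    rw [hsum (fun l => (H r l * ∫ y, φ y * E (-l) y ∂(muT d)) * E l x)]
    have h1 : ∀ y, ((FF d r (x - y) : ℂ) - ∑ l ∈ K, H r l * E l (x - y)) * φ y =
        (FF d r (x - y) : ℂ) * φ y - ∑ l ∈ K, (H r l * E l x) * (φ y * E (-l) y) := by
      intro y
      rw [sub_mul, Finset.sum_mul]
      congr 1
      apply Finset.sum_congr rfl; intro l _
      rw [E_arg_sub]; ring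
    simp only [h1]
    have hi2 : ∀ l, Integrable (fun y => φ y * E (-l) y) (muT d) := by
      intro l
      refine hφ.norm.mono' (hφ.aestronglyMeasurable.mul (continuous_E (-l)).aestronglyMeasurable) ?_
      filter_upwards with y
      rw [norm_mul, norm_E, mul_one]
    have hi1 : Integrable (fun y => (FF d r (x - y) : ℂ) * φ y) (muT d) := by
      refine (hφ.norm.const_mul C).mono' ?_ ?_
      · have h2 : Continuous (fun y : Fin d → ℝ => (FF d r (x - y) : ℂ)) :=
          Complex.continuous_ofReal.comp ((continuous_FF hr).comp (by fun_prop))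
        exact h2.aestronglyMeasurable.mul hφ.aestronglyMeasurable
      · filter_upwards with y
        rw [norm_mul, Complex.norm_real]
        exact mul_le_mul_of_nonneg_right (hCb _) (norm_nonneg _)
    rw [integral_sub hi1 (integrable_finsetSum _ (fun l _ => (hi2 l).const_mul _)),
      integral_finsetSum _ (fun l _ => (hi2 l).const_mul _)]
    congr 1
    apply Finset.sum_congr rfl; intro l _
    rw [integral_const_mul]; ring
  rw [eLpNorm_exponent_top]
  apply eLpNormEssSup_le_of_ae_bound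
  filter_upwards with x
  rw [hval]
  calc ‖∫ y, ((FF d r (x - y) : ℂ) - ∑ l ∈ K, H r l * E l (x - y)) * φ y ∂(muT d)‖
      ≤ ∫ y, ‖((FF d r (x - y) : ℂ) - ∑ l ∈ K, H r l * E l (x - y)) * φ y‖ ∂(muT d) :=
        norm_integral_le_integral_norm _
    _ ≤ ∫ y, B * ‖φ y‖ ∂(muT d) := by
        refine integral_mono_of_nonneg (Filter.Eventually.of_forall fun y => norm_nonneg _)
          (hφ.norm.const_mul _) (Filter.Eventually.of_forall fun y => ?_)
        simp only
        rw [norm_mul]
        exact mul_le_mul_of_nonneg_right (hB _) (norm_nonneg _)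
    _ = B * ∫ y, ‖φ y‖ ∂(muT d) := integral_const_mul _ _
    _ ≤ B * 1 := mul_le_mul_of_nonneg_left hφ1 hB0
    _ = B := mul_one B

end Pool.Agent.Helper935.OW
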