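import Mathlib

namespace Pool.Agent.Helper935.OW

/-- finite sums -/
noncomputable def PS (f : ℕ → ℝ) : ℕ → ℝ := fun l => ∑ i ∈ Finset.range l, f i

/-- shift to the right -/
noncomputable def SH (n : ℕ) (f : ℕ → ℝ) : ℕ → ℝ := fun l => if n ≤ l then f (l - n) else 0

/-- difference with step `H` -/
noncomputable def DH (H : ℕ) (f : ℕ → ℝ) : ℕ → ℝ := fun l => f l - SH H f l

lemma PS_SH (n : ℕ) (f : ℕ → ℝ) : PS (SH n f) = SH n (PS f) := by
  funext l
  unfold PS SH
  by_cases h : n ≤ l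
  · rw [if_pos h]
    obtain ⟨j, rfl⟩ := Nat.exists_eq_add_of_le h
    rw [Finset.sum_range_add, Nat.add_sub_cancel_left]
    rw [Finset.sum_eq_zero (fun i hi => by rw [Finset.mem_range] at hi; rw [if_neg (by omega)]), zero_add]
    apply Finset.sum_congr rfl; intro i _
    rw [if_pos (by omega), Nat.add_sub_cancel_left]
  · rw [if_neg h]
    apply Finset.sum_eq_zero; intro i hi
    rw [Finset.mem_range] at hi; rw [if_neg (by omega)]

lemma PS_DH (H : ℕ) (f : ℕ → ℝ) : PS (DH H f) = DH H (PS f) := by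
  funext l
  have h1 : PS (DH H f) l = PS f l - PS (SH H f) l := by
    unfold PS DH; rw [Finset.sum_sub_distrib]
  rw [h1, PS_SH]; rfl

lemma PS_DH_iter (H D : ℕ) (f : ℕ → ℝ) : PS ((DH H)^[D] f) = (DH H)^[D] (PS f) := by
  have h : Function.Commute PS (DH H) := fun f => PS_DH H f
  exact (h.iterate_right D) f

lemma SH_bound {n : ℕ} {f : ℕ → ℝ} {B : ℝ} (hB : 0 ≤ B) (hf : ∀ l, |f l| ≤ B) (l : ℕ) :
    |SH n f l| ≤ B := by
  unfold SH; split_ifs
  · exact hf _
  · simpa using hB

lemma DH_bound {H : ℕ} {f : ℕ → ℝ} {B : ℝ} (hB : 0 ≤ B) (hf : ∀ l, |f l| ≤ B) (l : ℕ) :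
    |DH H f l| ≤ 2 * B := by
  unfold DH
  have := abs_sub (f l) (SH H f l)
  linarith [hf l, SH_bound (n := H) hB hf l]

lemma DH_iter_bound (H D : ℕ) (f : ℕ → ℝ) {B : ℝ} (hB : 0 ≤ B) (hf : ∀ l, |f l| ≤ B) (l : ℕ) :
    |(DH H)^[D] f l| ≤ 2 ^ D * B := by
  induction D generalizing f B l with
  | zero => simpa using hf l
  | succ D ih =>
    rw [Function.iterate_succ_apply]
    have := ih (DH H f) (B := 2 * B) (by positivity) (fun l => DH_bound hB hf l) l
    rw [pow_succ]; linarith

lemma window_bound {H : ℕ} {f : ℕ → ℝ} {B : ℝ} (hB : 0 ≤ B) (hf : ∀ l, |f l| ≤ B) (l : ℕ) :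
    |PS (DH H f) l| ≤ H * B := by
  rw [PS_DH]
  unfold DH SH PS
  by_cases h : H ≤ l
  · rw [if_pos h]
    have h1 : ∑ i ∈ Finset.range l, f i - ∑ i ∈ Finset.range (l - H), f i =
        ∑ i ∈ Finset.range H, f (l - H + i) := by
      have h2 : l = (l - H) + H := by omega
      conv_lhs => rw [h2]
      rw [Finset.sum_range_add, Nat.add_sub_cancel]; ring
    rw [h1]
    refine (Finset.abs_sum_le_sum_abs _ _).trans ?_
    calc ∑ i ∈ Finset.range H, |f (l - H + i)| ≤ ∑ _i ∈ Finset.range H, B :=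
          Finset.sum_le_sum (fun i _ => hf _)
      _ = H * B := by simp
  · rw [if_neg h, sub_zero]
    refine (Finset.abs_sum_le_sum_abs _ _).trans ?_
    calc ∑ i ∈ Finset.range l, |f i| ≤ ∑ _i ∈ Finset.range l, B :=
          Finset.sum_le_sum (fun i _ => hf _)
      _ = l * B := by simp
      _ ≤ H * B := by
          apply mul_le_mul_of_nonneg_right _ hB
          exact_mod_cast (not_le.mp h).le

lemma PS_iter_bound (H : ℕ) (k D : ℕ) (hk : k ≤ D) (f : ℕ → ℝ) {B : ℝ} (hB : 0 ≤ B)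
    (hf : ∀ l, |f l| ≤ B) (l : ℕ) : |PS^[k] ((DH H)^[D] f) l| ≤ 2 ^ (D - k) * (H : ℝ) ^ k * B := by
  induction k generalizing D f B l with
  | zero => simpa using DH_iter_bound H D f hB hf l
  | succ k ih =>
    obtain ⟨D, rfl⟩ : ∃ D', D = D' + 1 := ⟨D - 1, by omega⟩
    rw [Function.iterate_succ_apply PS k, Function.iterate_succ_apply (DH H) D, PS_DH_iter]
    have := ih D (by omega) (PS (DH H f)) (B := H * B) (by positivity)
      (fun l => window_bound hB hf l) l
    refine this.trans (le_of_eq ?_)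
    rw [show D + 1 - (k + 1) = D - k by omega, pow_succ]; ring

lemma PS_iter_SH (n k : ℕ) (f : ℕ → ℝ) : PS^[k] (SH n f) = SH n (PS^[k] f) := by
  have h : Function.Commute PS (SH n) := fun f => PS_SH n f
  exact (h.iterate_left k) f

lemma PS_smul (c : ℝ) (f : ℕ → ℝ) : PS (fun l => c * f l) = fun l => c * PS f l := by
  funext l; unfold PS; rw [Finset.mul_sum]

lemma PS_iter_smul (c : ℝ) (k : ℕ) (f : ℕ → ℝ) :
    PS^[k] (fun l => c * f l) = fun l => c * PS^[k] f l := by
  induction k generalizing f with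
  | zero => rfl
  | succ k ih => rw [Function.iterate_succ_apply, PS_smul, ih, Function.iterate_succ_apply]

/-- values of the iterated difference of a geometric sequence -/
lemma DH_geo {q : ℝ} (hq0 : 0 < q) (hq1 : q < 1) (H D : ℕ) :
    (∀ l, D * H ≤ l → (DH H)^[D] (fun l => q ^ l) l = (1 - (q ^ H)⁻¹) ^ D * q ^ l) ∧
    (∀ l, l < D * H → |(DH H)^[D] (fun l => q ^ l) l| ≤ 2 ^ D * ((q ^ H)⁻¹) ^ (D - 1) * q ^ l) := by
  set X : ℝ := (q ^ H)⁻¹ with hX
  have hX1 : 1 ≤ X := by
    rw [hX]; apply (one_le_inv₀ (by positivity)).mpr; exact pow_le_one₀ hq0.le hq1.le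
  have hshift : ∀ l, H ≤ l → q ^ (l - H) = X * q ^ l := by
    intro l hl
    obtain ⟨j, rfl⟩ := Nat.exists_eq_add_of_le hl
    rw [Nat.add_sub_cancel_left, pow_add, hX]; field_simp
  induction D with
  | zero => simp
  | succ D ih =>
    obtain ⟨ih1, ih2⟩ := ih
    have hall : ∀ l, |(DH H)^[D] (fun l => q ^ l) l| ≤ 2 ^ D * X ^ D * q ^ l := by
      intro l
      rcases le_or_gt (D * H) l with h | h
      · rw [ih1 l h, abs_mul, abs_pow, abs_of_pos (show (0 : ℝ) < q ^ l by positivity)]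
        apply mul_le_mul_of_nonneg_right _ (by positivity)
        have h1 : |1 - X| ≤ X := by rw [abs_of_nonpos (by linarith)]; linarith
        calc |1 - X| ^ D ≤ X ^ D := pow_le_pow_left₀ (abs_nonneg _) h1 _
          _ = 1 * X ^ D := by ring
          _ ≤ 2 ^ D * X ^ D := by
              apply mul_le_mul_of_nonneg_right _ (by positivity)
              exact one_le_pow₀ (by norm_num)
      · refine (ih2 l h).trans ?_
        apply mul_le_mul_of_nonneg_right _ (by positivity)
        apply mul_le_mul_of_nonneg_left _ (by positivity)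
        exact pow_le_pow_right₀ hX1 (by omega)
    constructor
    · intro l hl
      rw [Function.iterate_succ_apply']
      unfold DH SH
      have hHl : H ≤ l := by
        have : H ≤ (D + 1) * H := Nat.le_mul_of_pos_left H (by omega)
        omega
      rw [if_pos hHl]
      have h1 : D * H ≤ l := by rw [Nat.add_mul] at hl; omega
      have h2 : D * H ≤ l - H := by rw [Nat.add_mul, one_mul] at hl; omega
      have h3 := ih1 l h1
      have h4 := ih1 (l - H) h2
      unfold DH SH at h3 h4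
      rw [h3, h4, hshift l hHl]; ring
    · intro l hl
      rw [Function.iterate_succ_apply']
      have h0 : DH H ((DH H)^[D] (fun l => q ^ l)) l = (DH H)^[D] (fun l => q ^ l) l -
        SH H ((DH H)^[D] (fun l => q ^ l)) l := rfl
      rw [h0]
      refine (abs_sub _ _).trans ?_
      have h1 := hall l
      have h2 : |SH H ((DH H)^[D] (fun l => q ^ l)) l| ≤ 2 ^ D * X ^ D * q ^ l := by
        unfold SH
        by_cases h : H ≤ l
        · rw [if_pos h]
          have h3 : l - H < D * H := by rw [Nat.add_mul, one_mul] at hl; omega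
          refine (ih2 (l - H) h3).trans ?_
          rw [hshift l h]
          have hD : 1 ≤ D := by
            rcases Nat.eq_zero_or_pos D with h5 | h5
            · subst h5; simp at h3
            · exact h5
          have h6 : X ^ (D - 1) * X = X ^ D := by
            rw [← pow_succ]; congr 1; omega
          calc 2 ^ D * X ^ (D - 1) * (X * q ^ l) = 2 ^ D * (X ^ (D - 1) * X) * q ^ l := by ring
            _ = 2 ^ D * X ^ D * q ^ l := by rw [h6]
            _ ≤ _ := le_rfl
        · rw [if_neg h, abs_zero]; positivity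
      rw [Nat.add_sub_cancel]
      calc |(DH H)^[D] (fun l => q ^ l) l| + |SH H ((DH H)^[D] (fun l => q ^ l)) l|
          ≤ 2 ^ D * X ^ D * q ^ l + 2 ^ D * X ^ D * q ^ l := add_le_add h1 h2
        _ = 2 ^ (D + 1) * X ^ D * q ^ l := by rw [pow_succ]; ring

/-- the profile: `y τ = 1` for large `τ` and `y` is small before. -/
theorem exists_profile {q : ℝ} (hq0 : 0 < q) (hq1 : q < 1) (D : ℕ) {ηη : ℝ} (hη : 0 < ηη) :
    ∃ (y : ℕ → ℝ) (T : ℕ) (C : ℝ), 0 < C ∧ (∀ τ, T ≤ τ → y τ = 1) ∧ (∀ τ, τ < T → |y τ| ≤ ηη) ∧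
      ∀ n : ℕ, ∃ a : ℕ → ℕ → ℝ, (∀ l, a 0 l = if n ≤ l then q ^ l * y (l - n) else 0) ∧
        (∀ k l, a k l = a (k + 1) l - a (k + 1) (l + 1)) ∧
        (∀ k l, k ≤ D → |a k l| ≤ C * q ^ n) := by
  -- choose H
  obtain ⟨H, hH⟩ : ∃ H : ℕ, max 2 (4 ^ D / ηη) ≤ (q ^ H)⁻¹ := by
    have h1 : 1 < q⁻¹ := (one_lt_inv₀ hq0).mpr hq1
    obtain ⟨H, hH⟩ := pow_unbounded_of_one_lt (max 2 (4 ^ D / ηη)) h1
    exact ⟨H, by rw [← inv_pow]; exact hH.le⟩
  set X : ℝ := (q ^ H)⁻¹ with hX
  have hX2 : 2 ≤ X := (le_max_left _ _).trans hH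
  have hX4 : 4 ^ D / ηη ≤ X := (le_max_right _ _).trans hH
  obtain ⟨hgeo1, hgeo2⟩ := DH_geo hq0 hq1 H D
  have hne : (1 - X) ^ D ≠ 0 := pow_ne_zero _ (by linarith)
  set c : ℝ := ((1 - X) ^ D)⁻¹ with hc
  have hcabs : |c| ≤ 1 := by
    rw [hc, abs_inv, abs_pow]
    apply inv_le_one_of_one_le₀
    apply one_le_pow₀
    rw [abs_of_nonpos (by linarith)]; linarith
  refine ⟨fun τ => c * ((DH H)^[D] (fun l => q ^ l) τ) / q ^ τ, D * H, 2 ^ D * (H + 1) ^ D,
    by positivity, ?_, ?_, ?_⟩
  · intro τ hτ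
    simp only
    have h1 := hgeo1 τ hτ
    rw [← hX] at h1
    have : q ^ τ ≠ 0 := by positivity
    rw [h1, hc, ← mul_assoc, inv_mul_cancel₀ hne, one_mul, div_self this]
  · intro τ hτ
    simp only
    rw [abs_div, abs_mul, abs_of_pos (show (0 : ℝ) < q ^ τ by positivity), div_le_iff₀ (by positivity)]
    have h1 := hgeo2 τ hτ
    have hD : 1 ≤ D := by
      rcases Nat.eq_zero_or_pos D with h5 | h5
      · subst h5; simp at hτ
      · exact h5
    have h2 : |c| = ((X - 1) ^ D)⁻¹ := by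
      rw [hc, abs_inv, abs_pow, abs_of_nonpos (by linarith : 1 - X ≤ 0)]
      congr 2; ring
    have h3 : (X / 2) ^ D ≤ (X - 1) ^ D := pow_le_pow_left₀ (by linarith) (by linarith) _
    have h4 : ((X - 1) ^ D)⁻¹ ≤ ((X / 2) ^ D)⁻¹ := inv_anti₀ (by positivity) h3
    have h5 : ((X / 2) ^ D)⁻¹ * (2 ^ D * X ^ (D - 1)) ≤ ηη := by
      have h6 : X ^ D = X ^ (D - 1) * X := by rw [← pow_succ]; congr 1; omega
      rw [div_pow, inv_div, h6]
      have hXp : 0 < X := by linarith
      have h7 : 2 ^ D / (X ^ (D - 1) * X) * (2 ^ D * X ^ (D - 1)) = (2 ^ D * 2 ^ D) / X := by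
        field_simp
      rw [h7, ← mul_pow, div_le_iff₀ hXp]
      rw [div_le_iff₀ hη] at hX4
      have : ((2 : ℝ) * 2) ^ D = 4 ^ D := by norm_num
      rw [this]; linarith
    rw [h2]
    calc ((X - 1) ^ D)⁻¹ * |(DH H)^[D] (fun l => q ^ l) τ|
        ≤ ((X / 2) ^ D)⁻¹ * (2 ^ D * X ^ (D - 1) * q ^ τ) := by
          apply mul_le_mul h4 h1 (abs_nonneg _) (by positivity)
      _ = ((X / 2) ^ D)⁻¹ * (2 ^ D * X ^ (D - 1)) * q ^ τ := by ring
      _ ≤ ηη * q ^ τ := mul_le_mul_of_nonneg_right h5 (by positivity)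
  · intro n
    refine ⟨fun k l => (-1) ^ k * PS^[k] (fun l => (q ^ n * c) * SH n ((DH H)^[D] (fun l => q ^ l)) l) l,
      ?_, ?_, ?_⟩
    · intro l
      simp only [pow_zero, one_mul, Function.iterate_zero, id_eq]
      unfold SH
      by_cases h : n ≤ l
      · rw [if_pos h, if_pos h]
        obtain ⟨j, rfl⟩ := Nat.exists_eq_add_of_le h
        rw [Nat.add_sub_cancel_left, pow_add]
        have : q ^ j ≠ 0 := by positivity
        field_simp
      · rw [if_neg h, if_neg h, mul_zero]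
    · intro k l
      simp only
      rw [Function.iterate_succ_apply' PS k]
      have : ∀ g : ℕ → ℝ, PS g (l + 1) = PS g l + g l := by
        intro g; unfold PS; rw [Finset.sum_range_succ]
      rw [this, pow_succ]; ring
    · intro k l hk
      simp only
      rw [PS_iter_smul, PS_iter_SH, abs_mul, abs_pow, abs_neg, abs_one, one_pow, one_mul, abs_mul,
        abs_mul, abs_of_pos (show (0 : ℝ) < q ^ n by positivity)]
      have h1 : ∀ l, |PS^[k] ((DH H)^[D] (fun l => q ^ l)) l| ≤ 2 ^ D * ((H : ℝ) + 1) ^ D := by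
        intro l
        have h2 := PS_iter_bound H k D hk (fun l => q ^ l) (B := 1) (by norm_num)
          (fun l => by rw [abs_of_pos (by positivity)]; exact pow_le_one₀ hq0.le hq1.le) l
        refine h2.trans ?_
        rw [mul_one]
        apply mul_le_mul
        · exact pow_le_pow_right₀ (by norm_num) (by omega)
        · calc (H : ℝ) ^ k ≤ ((H : ℝ) + 1) ^ k := pow_le_pow_left₀ (by positivity) (by linarith) _
            _ ≤ ((H : ℝ) + 1) ^ D := pow_le_pow_right₀ (by
                have : (0 : ℝ) ≤ H := by positivity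
                linarith) hk
        · positivity
        · positivity
      have h3 := SH_bound (n := n) (by positivity) h1 l
      calc q ^ n * |c| * |SH n (PS^[k] ((DH H)^[D] (fun l => q ^ l))) l|
          ≤ q ^ n * 1 * (2 ^ D * ((H : ℝ) + 1) ^ D) := by
            apply mul_le_mul _ h3 (abs_nonneg _) (by positivity)
            apply mul_le_mul_of_nonneg_left hcabs (by positivity)
        _ = 2 ^ D * (H + 1) ^ D * q ^ n := by ring


/-- tail sums -/
noncomputable def TS (f : ℕ → ℝ) : ℕ → ℝ := fun l => ∑' i, f (l + i)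

lemma TS_step {f : ℕ → ℝ} (hf : Summable f) (l : ℕ) : f l = TS f l - TS f (l + 1) := by
  unfold TS
  have h1 : Summable (fun i => f (l + i)) := by
    have := (summable_nat_add_iff l).mpr hf
    refine this.congr (fun i => by rw [add_comm])
  rw [h1.tsum_eq_zero_add]
  simp only [add_zero]
  have : ∀ i, f (l + (i + 1)) = f (l + 1 + i) := fun i => by congr 1; ring
  simp only [this]
  ring

/-- comparison function -/
noncomputable def cmp (q : ℝ) (n i : ℕ) : ℝ := if i < n then 1 else q ^ (i - n)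

lemma cmp_hasSum {q : ℝ} (hq0 : 0 < q) (hq1 : q < 1) (n : ℕ) :
    HasSum (cmp q n) ((1 - q)⁻¹ + n) := by
  have h1 : HasSum (fun i => cmp q n (i + n)) ((1 - q)⁻¹) := by
    have h2 := hasSum_geometric_of_lt_one hq0.le hq1
    convert h2 using 2 with i
    unfold cmp
    rw [if_neg (by omega), Nat.add_sub_cancel]
  have h3 := (hasSum_nat_add_iff n).mp h1
  have h4 : ∑ i ∈ Finset.range n, cmp q n i = n := by
    rw [Finset.sum_congr rfl (g := fun _ => (1 : ℝ))]
    · simp
    · intro i hi; unfold cmp; rw [if_pos (Finset.mem_range.mp hi)]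
  rwa [h4] at h3

lemma pow_max_le {q : ℝ} (hq0 : 0 < q) (hq1 : q < 1) (n l i : ℕ) :
    q ^ (max (l + i) n) ≤ q ^ (max l n) * cmp q n i := by
  unfold cmp
  split_ifs with h
  · rw [mul_one]
    apply pow_le_pow_of_le_one hq0.le hq1.le
    omega
  · rw [← pow_add]
    apply pow_le_pow_of_le_one hq0.le hq1.le
    omega

lemma TS_bound {q : ℝ} (hq0 : 0 < q) (hq1 : q < 1) (n : ℕ) {f : ℕ → ℝ} {B : ℝ} (hB : 0 ≤ B)
    (hf : ∀ l, |f l| ≤ B * q ^ (max l n)) :
    Summable f ∧ ∀ l, |TS f l| ≤ (B * ((1 - q)⁻¹ * (n + 1))) * q ^ (max l n) := by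
  have hcs := cmp_hasSum hq0 hq1 n
  have hq1' : 0 < 1 - q := by linarith
  have hinv : 1 ≤ (1 - q)⁻¹ := (one_le_inv₀ hq1').mpr (by linarith)
  have key : ∀ l, Summable (fun i => f (l + i)) ∧
      |TS f l| ≤ (B * q ^ (max l n)) * ((1 - q)⁻¹ + n) := by
    intro l
    have h1 : ∀ i, ‖f (l + i)‖ ≤ (B * q ^ (max l n)) * cmp q n i := by
      intro i
      refine (hf (l + i)).trans ?_
      rw [mul_assoc]
      exact mul_le_mul_of_nonneg_left (pow_max_le hq0 hq1 n l i) hB
    have h2 := hcs.mul_left (B * q ^ (max l n))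
    exact ⟨Summable.of_norm_bounded h2.summable h1, tsum_of_norm_bounded h2 h1⟩
  constructor
  · have := (key 0).1
    simpa using this
  · intro l
    refine (key l).2.trans ?_
    have h3 : (1 - q)⁻¹ + n ≤ (1 - q)⁻¹ * (n + 1) := by
      have : (0 : ℝ) ≤ n := by positivity
      nlinarith
    calc (B * q ^ (max l n)) * ((1 - q)⁻¹ + n) ≤ (B * q ^ (max l n)) * ((1 - q)⁻¹ * (n + 1)) :=
          mul_le_mul_of_nonneg_left h3 (by positivity)
      _ = _ := by ring

/-- antiderivatives of the truncated geometric sequence -/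
theorem exists_geo {q : ℝ} (hq0 : 0 < q) (hq1 : q < 1) (n : ℕ) :
    ∃ a : ℕ → ℕ → ℝ, (∀ l, a 0 l = if n ≤ l then q ^ l else 0) ∧
        (∀ k l, a k l = a (k + 1) l - a (k + 1) (l + 1)) ∧
        (∀ k l, |a k l| ≤ ((1 - q)⁻¹) ^ k * ((n : ℝ) + 1) ^ (k - 1) * q ^ n) := by
  have hq1' : 0 < 1 - q := by linarith
  have hinv : 1 ≤ (1 - q)⁻¹ := (one_le_inv₀ hq1').mpr (by linarith)
  set f : ℕ → ℝ := fun l => (1 - q)⁻¹ * q ^ (max l n) with hf
  have hbd : ∀ k l, |TS^[k] f l| ≤ ((1 - q)⁻¹) ^ (k + 1) * ((n : ℝ) + 1) ^ k * q ^ (max l n) := by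
    intro k
    induction k with
    | zero =>
      intro l
      simp only [Function.iterate_zero, id_eq, hf, zero_add, pow_one, pow_zero, mul_one]
      rw [abs_of_nonneg (by positivity)]
    | succ k ih =>
      intro l
      rw [Function.iterate_succ_apply']
      refine ((TS_bound hq0 hq1 n (by positivity) ih).2 l).trans (le_of_eq ?_)
      rw [pow_succ, pow_succ, pow_succ]; ring
  refine ⟨fun k l => if k = 0 then (if n ≤ l then q ^ l else 0) else TS^[k - 1] f l, ?_, ?_, ?_⟩
  · intro l; simp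
  · intro k l
    rcases Nat.eq_zero_or_pos k with hk | hk
    · subst hk
      simp only [if_true, zero_add, one_ne_zero, if_false, Nat.sub_self, Function.iterate_zero, id_eq, hf]
      by_cases h : n ≤ l
      · rw [if_pos h, max_eq_left h, max_eq_left (by omega), pow_succ]
        field_simp
      · rw [if_neg h, max_eq_right (by omega), max_eq_right (by omega)]; ring
    · obtain ⟨k, rfl⟩ : ∃ k', k = k' + 1 := ⟨k - 1, by omega⟩
      simp only [Nat.succ_ne_zero, if_false, Nat.add_sub_cancel]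
      rw [Function.iterate_succ_apply']
      exact TS_step (TS_bound hq0 hq1 n (by positivity) (hbd k)).1 l
  · intro k l
    rcases Nat.eq_zero_or_pos k with hk | hk
    · subst hk
      simp only [if_true, pow_zero, one_mul, Nat.zero_sub]
      split_ifs with h
      · rw [abs_of_nonneg (by positivity)]
        exact pow_le_pow_of_le_one hq0.le hq1.le h
      · rw [abs_zero]; positivity
    · obtain ⟨k, rfl⟩ : ∃ k', k = k' + 1 := ⟨k - 1, by omega⟩
      simp only [Nat.succ_ne_zero, if_false, Nat.add_sub_cancel]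
      refine (hbd k l).trans ?_
      apply mul_le_mul_of_nonneg_left _ (by positivity)
      exact pow_le_pow_of_le_one hq0.le hq1.le (le_max_right _ _)

end Pool.Agent.Helper935.OW
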