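import Pool.Agent.Helper935.OW.Rounding
import Pool.Agent.Helper935.OW.Weights
import Pool.Agent.Helper935.OW.Block
import Pool.Agent.Helper935.OW.Up1
import Pool.Agent.Helper935.OW.Lower

open scoped ComplexConjugate

namespace Pool.Agent.Helper935.OW

variable {d : ℕ}

/-- the dyadic block of integers -/
noncomputable def bs (b : Bool) (s : ℕ) : Finset ℤ :=
  (Finset.Icc (-((2 : ℤ) ^ s)) ((2 : ℤ) ^ s)).filter (fun k => lev k = s ∧ sg k = b)

lemma lev_le_iff (k : ℤ) (s : ℕ) : lev k ≤ s ↔ k.natAbs < 2 ^ s := Nat.size_le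

lemma mem_bs {b : Bool} {s : ℕ} {k : ℤ} : k ∈ bs b s ↔ lev k = s ∧ sg k = b := by
  unfold bs
  rw [Finset.mem_filter, Finset.mem_Icc]
  constructor
  · exact fun h => h.2
  · intro h
    refine ⟨?_, h⟩
    have h1 := (lev_le_iff k s).mp h.1.le
    have h2 : (k.natAbs : ℤ) < (2 : ℤ) ^ s := by exact_mod_cast h1
    constructor <;> omega

lemma card_bs_le (b : Bool) (s : ℕ) : (bs b s).card ≤ 2 ^ s := by
  have h1 := Finset.card_le_card_of_injOn (s := bs b s) (t := Finset.range (2 ^ s)) Int.natAbs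
    (by
      intro k hk
      have := (mem_bs.mp hk).1
      have h2 := (lev_le_iff k s).mp this.le
      simpa using h2)
    (by
      intro k hk l hl hkl
      have h2 := (mem_bs.mp hk).2
      have h3 := (mem_bs.mp hl).2
      rw [← h3] at h2
      unfold sg at h2
      rw [decide_eq_decide] at h2
      by_cases hk0 : 0 ≤ k
      · have hl0 := h2.mp hk0
        omega
      · have hl0 : ¬ 0 ≤ l := fun h => hk0 (h2.mpr h)
        omega)
  simpa using h1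

/-- dyadic block in dimension `d` -/
noncomputable def blk (ε : Fin d → Bool) (s : Fin d → ℕ) : Finset (Fin d → ℤ) :=
  Fintype.piFinset (fun j => bs (ε j) (s j))

/-- levels -/
def levs (k : Fin d → ℤ) : Fin d → ℕ := fun j => lev (k j)

/-- signs -/
def sgs (k : Fin d → ℤ) : Fin d → Bool := fun j => sg (k j)

/-- total level -/
def LL (k : Fin d → ℤ) : ℕ := ∑ j, lev (k j)

lemma mem_blk {ε : Fin d → Bool} {s : Fin d → ℕ} {k : Fin d → ℤ} :
    k ∈ blk ε s ↔ levs k = s ∧ sgs k = ε := by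
  unfold blk
  rw [Fintype.mem_piFinset]
  simp only [mem_bs]
  unfold levs sgs
  constructor
  · intro h
    exact ⟨funext fun j => (h j).1, funext fun j => (h j).2⟩
  · rintro ⟨h1, h2⟩ j
    exact ⟨congrFun h1 j, congrFun h2 j⟩

lemma LL_of_mem {ε : Fin d → Bool} {s : Fin d → ℕ} {k : Fin d → ℤ} (hk : k ∈ blk ε s) :
    LL k = ∑ j, s j := by
  have h := (mem_blk.mp hk).1
  rw [← h]; rfl

lemma card_blk_le (ε : Fin d → Bool) (s : Fin d → ℕ) : (blk ε s).card ≤ 2 ^ (∑ j, s j) := by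
  unfold blk
  rw [Fintype.card_piFinset, ← Finset.prod_pow_eq_pow_sum]
  exact Finset.prod_le_prod (fun _ _ => Nat.zero_le _) (fun j _ => card_bs_le _ _)

lemma sum_blk (r : ℝ) (ε : Fin d → Bool) (s : Fin d → ℕ) (x : Fin d → ℝ) :
    ∑ k ∈ blk ε s, H r k * E k x = ∏ j, Blk r (ε j) (s j) (x j) := by
  unfold blk Blk
  rw [Finset.prod_univ_sum]
  apply Finset.sum_congr rfl
  intro k _
  unfold H E
  rw [Finset.prod_mul_distrib]

/-- difference set of a block -/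
noncomputable def dset (s : Fin d → ℕ) : Finset (Fin d → ℤ) :=
  Fintype.piFinset (fun j => Finset.Icc (-((2 : ℤ) ^ (s j))) ((2 : ℤ) ^ (s j)))

lemma sub_mem_dset {ε : Fin d → Bool} {s : Fin d → ℕ} :
    ∀ k ∈ blk ε s, ∀ l ∈ blk ε s, k - l ∈ dset s := by
  intro k hk l hl
  unfold dset
  rw [Fintype.mem_piFinset]
  intro j
  unfold blk at hk hl
  rw [Fintype.mem_piFinset] at hk hl
  have h1 := mem_bs.mp (hk j)
  have h2 := mem_bs.mp (hl j)
  have h3 := (lev_le_iff _ _).mp h1.1.le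
  have h4 := (lev_le_iff _ _).mp h2.1.le
  have h5 : (((k j).natAbs : ℕ) : ℤ) < (2 : ℤ) ^ (s j) := by exact_mod_cast h3
  have h6 : (((l j).natAbs : ℕ) : ℤ) < (2 : ℤ) ^ (s j) := by exact_mod_cast h4
  have h7 := h1.2
  rw [← h2.2] at h7
  unfold sg at h7
  rw [decide_eq_decide] at h7
  rw [Finset.mem_Icc, Pi.sub_apply]
  by_cases hk0 : 0 ≤ k j
  · have hl0 := h7.mp hk0
    omega
  · have hl0 : ¬ 0 ≤ l j := fun h => hk0 (h7.mpr h)
    omega

lemma card_dset_le (s : Fin d → ℕ) : (dset s).card ≤ 4 ^ d * 2 ^ (∑ j, s j) := by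
  unfold dset
  rw [Fintype.card_piFinset, ← Finset.prod_pow_eq_pow_sum]
  have h1 : (4 : ℕ) ^ d = ∏ _j : Fin d, 4 := by simp
  rw [h1, ← Finset.prod_mul_distrib]
  refine Finset.prod_le_prod (fun _ _ => Nat.zero_le _) (fun j _ => ?_)
  rw [Int.card_Icc]
  have h2 : (1 : ℤ) ≤ (2 : ℤ) ^ (s j) := one_le_pow₀ (by norm_num)
  have h3 : ((2 : ℤ) ^ (s j) + 1 - -((2 : ℤ) ^ (s j))).toNat ≤ (4 * (2 : ℤ) ^ (s j)).toNat :=
    Int.toNat_le_toNat (by linarith)
  refine h3.trans (le_of_eq ?_)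
  have h4 : (4 * (2 : ℤ) ^ (s j)) = ((4 * 2 ^ (s j) : ℕ) : ℤ) := by push_cast; ring
  rw [h4, Int.toNat_natCast]

lemma norm_h_lev {r : ℝ} (hr : 0 ≤ r) (k : ℤ) :
    ‖h r k‖ ≤ (2 : ℝ) ^ r * ((2 : ℝ) ^ (lev k)) ^ (-r) := by
  by_cases hk : k = 0
  · subst hk
    rw [h_zero, (lev_zero_iff 0).mpr rfl, pow_zero, Real.one_rpow, mul_one, norm_one]
    exact Real.one_le_rpow (by norm_num) hr
  · rw [norm_h_of_ne r hk]
    obtain ⟨s, hs⟩ : ∃ s, lev k = s + 1 := by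
      have : lev k ≠ 0 := fun h => hk ((lev_zero_iff k).mp h)
      exact ⟨lev k - 1, by omega⟩
    have h1 := (lev_succ_iff k s).mp hs
    rw [hs, Real.rpow_neg (by positivity), Real.rpow_neg (by positivity), pow_succ,
      Real.mul_rpow (by positivity) (by norm_num), mul_inv]
    have h2 : (0 : ℝ) < (2 : ℝ) ^ r := by positivity
    have h3 : (2 : ℝ) ^ r * ((((2 : ℝ) ^ s) ^ r)⁻¹ * ((2 : ℝ) ^ r)⁻¹) = (((2 : ℝ) ^ s) ^ r)⁻¹ := by
      field_simp
    rw [h3]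
    apply inv_anti₀ (by positivity)
    apply Real.rpow_le_rpow (by positivity) _ hr
    have h4 : ((2 ^ s : ℕ) : ℝ) ≤ (k.natAbs : ℝ) := by exact_mod_cast h1.1
    have h5 : ((k.natAbs : ℕ) : ℝ) = (((|k| : ℤ)) : ℝ) := Nat.cast_natAbs k
    rw [← h5]
    push_cast at h4
    exact h4

lemma norm_H_blk {r : ℝ} (hr : 0 ≤ r) {ε : Fin d → Bool} {s : Fin d → ℕ} :
    ∀ k ∈ blk ε s, ‖H r k‖ ≤ ((2 : ℝ) ^ r) ^ d * ((2 : ℝ) ^ (∑ j, s j)) ^ (-r) := by
  intro k hk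
  have h0 := (mem_blk.mp hk).1
  unfold H
  rw [norm_prod]
  have h1 : ((2 : ℝ) ^ r) ^ d * ((2 : ℝ) ^ (∑ j, s j)) ^ (-r) =
      ∏ j, ((2 : ℝ) ^ r * ((2 : ℝ) ^ (s j)) ^ (-r)) := by
    rw [Finset.prod_mul_distrib, ← Finset.prod_pow_eq_pow_sum, Finset.prod_const,
      Finset.card_univ, Fintype.card_fin]
    congr 1
    rw [Real.finsetProd_rpow _ _ (fun j _ => by positivity)]
  rw [h1]
  refine Finset.prod_le_prod (fun _ _ => norm_nonneg _) (fun j _ => ?_)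
  have h2 := norm_h_lev hr (k j)
  have h3 : lev (k j) = s j := congrFun h0 j
  rw [h3] at h2
  exact h2

/-- the assignment of blocks -/
def toBlk (L : ℕ) (k : Fin d → ℤ) : Fin d → Bool × Fin (L + 1) :=
  fun j => (sg (k j), ⟨min (lev (k j)) L, by omega⟩)

lemma sum_bx_blk (L : ℕ) (g : (Fin d → ℤ) → ℂ) :
    ∑ k ∈ bx d (2 ^ L - 1), g k = ∑ ξ : Fin d → Bool × Fin (L + 1),
      ∑ k ∈ blk (fun j => (ξ j).1) (fun j => ((ξ j).2 : ℕ)), g k := by
  rw [← Finset.sum_fiberwise (bx d (2 ^ L - 1)) (toBlk L) g]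
  apply Finset.sum_congr rfl
  intro ξ _
  apply Finset.sum_congr _ (fun _ _ => rfl)
  ext k
  rw [Finset.mem_filter, mem_blk]
  unfold bx
  rw [Fintype.mem_piFinset]
  have h2L : (1 : ℤ) ≤ (2 : ℤ) ^ L := one_le_pow₀ (by norm_num)
  have hcast : (((2 ^ L - 1 : ℕ)) : ℤ) = (2 : ℤ) ^ L - 1 := by
    rw [Nat.cast_sub Nat.one_le_two_pow]; push_cast; ring
  constructor
  · rintro ⟨h1, h2⟩
    subst h2
    refine ⟨?_, rfl⟩
    funext j
    unfold levs toBlk
    simp only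
    have h3 := h1 j
    rw [Finset.mem_Icc, hcast] at h3
    have h4 : lev (k j) ≤ L := by
      rw [lev_le_iff]
      have : (((k j).natAbs : ℕ) : ℤ) < (2 : ℤ) ^ L := by omega
      exact_mod_cast this
    omega
  · rintro ⟨h1, h2⟩
    have h5 : ∀ j, lev (k j) = ((ξ j).2 : ℕ) := fun j => congrFun h1 j
    have h6 : ∀ j, sg (k j) = (ξ j).1 := fun j => congrFun h2 j
    constructor
    · intro j
      have h7 : lev (k j) ≤ L := by rw [h5 j]; have := (ξ j).2.isLt; omega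
      rw [lev_le_iff] at h7
      have : (((k j).natAbs : ℕ) : ℤ) < (2 : ℤ) ^ L := by exact_mod_cast h7
      rw [Finset.mem_Icc, hcast]
      omega
    · funext j
      unfold toBlk
      have h8 := (ξ j).2.isLt
      refine Prod.ext (h6 j) ?_
      apply Fin.ext
      simp only
      rw [h5 j]; omega

/-- normalisation of block products -/
lemma prod_Blk_eq {r : ℝ} (L : ℕ) (ξ : Fin d → Bool × Fin (L + 1)) (x : Fin d → ℝ) :
    ∏ j, Blk r (ξ j).1 ((ξ j).2 : ℕ) (x j) =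
      ((((2 : ℝ) ^ (1 - r)) ^ (∑ j, ((ξ j).2 : ℕ)) : ℝ) : ℂ) * ∏ j, bet r (x j) (ξ j).1 ((ξ j).2 : ℕ) := by
  rw [← Finset.prod_pow_eq_pow_sum]
  push_cast
  rw [← Finset.prod_mul_distrib]
  apply Finset.prod_congr rfl
  intro j _
  unfold bet
  rw [← mul_assoc]
  have h1 : ((((2 : ℝ) ^ (1 - r)) ^ ((ξ j).2 : ℕ) : ℝ) : ℂ) *
      ((((2 : ℝ) ^ ((ξ j).2 : ℕ)) ^ (r - 1) : ℝ) : ℂ) = 1 := by
    rw [← Complex.ofReal_mul]
    have : ((2 : ℝ) ^ (1 - r)) ^ ((ξ j).2 : ℕ) * ((2 : ℝ) ^ ((ξ j).2 : ℕ)) ^ (r - 1) = 1 := by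
      rw [← Real.rpow_natCast, ← Real.rpow_natCast, ← Real.rpow_mul (by norm_num),
        ← Real.rpow_mul (by norm_num), ← Real.rpow_add (by norm_num)]
      have : (1 - r) * (((ξ j).2 : ℕ) : ℝ) + (((ξ j).2 : ℕ) : ℝ) * (r - 1) = 0 := by ring
      rw [this, Real.rpow_zero]
    rw [this, Complex.ofReal_one]
  push_cast at h1 ⊢
  rw [h1, one_mul]

lemma tendsto_FF {r : ℝ} (hr : 1 < r) (x : Fin d → ℝ) :
    Filter.Tendsto (fun L : ℕ => ∑ k ∈ bx d (2 ^ L - 1), H r k * E k x) Filter.atTop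
      (nhds (FF d r x : ℂ)) := by
  have h1 : ∀ M : ℕ, ∑ k ∈ bx d M, H r k * E k x =
      ∏ j, ∑ l ∈ Finset.Icc (-(M : ℤ)) M, h r l * e l (x j) := by
    intro M
    rw [← sum_bx_prod M (fun j l => h r l * e l (x j))]
    apply Finset.sum_congr rfl; intro k _
    unfold H E
    rw [Finset.prod_mul_distrib]
  have h2 : Filter.Tendsto (fun M : ℕ => ∑ k ∈ bx d M, H r k * E k x) Filter.atTop
      (nhds (FF d r x : ℂ)) := by
    simp only [h1]
    unfold FF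
    push_cast
    exact tendsto_finsetProd _ (fun j _ => tendsto_F1 hr (x j))
  refine h2.comp ?_
  have h3 : Filter.Tendsto (fun L : ℕ => 2 ^ L) Filter.atTop Filter.atTop :=
    tendsto_pow_atTop_atTop_of_one_lt (by norm_num)
  exact (Filter.tendsto_sub_atTop_nat 1).comp h3

end Pool.Agent.Helper935.OW
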