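import Pool.Agent.Helper935.OW.Up2

open scoped ComplexConjugate

namespace Pool.Agent.Helper935.OW

variable {d : ℕ}

lemma poly_geo_bounded {p : ℝ} (hp0 : 0 < p) (hp1 : p < 1) (d T : ℕ) :
    ∃ C : ℝ, 0 < C ∧ ∀ n : ℕ, ((n : ℝ) + T) ^ d * p ^ n ≤ C := by
  have h1 := tendsto_pow_const_mul_const_pow_of_abs_lt_one d (r := p)
    (by rw [abs_of_pos hp0]; exact hp1)
  obtain ⟨C, hC⟩ := h1.bddAbove_range
  refine ⟨max 1 (C * (p ^ T)⁻¹), by positivity, fun n => ?_⟩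
  have h2 : ((n + T : ℕ) : ℝ) ^ d * p ^ (n + T) ≤ C := hC ⟨n + T, rfl⟩
  refine le_trans ?_ (le_max_right _ _)
  rw [le_mul_inv_iff₀ (by positivity)]
  calc ((n : ℝ) + T) ^ d * p ^ n * p ^ T = ((n + T : ℕ) : ℝ) ^ d * p ^ (n + T) := by
        rw [pow_add]; push_cast; ring
    _ ≤ C := h2

lemma norm_lam_le (r : ℝ) (o : Option Bool) (b : Bool) : ‖lam r o b‖ ≤ 1 := by
  cases o with
  | none => simp only [lam]; exact (norm_chi r b).le
  | some c => simp only [lam]; split_ifs <;> simp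

lemma norm_Lam_le (r : ℝ) (l : Fin d → Option Bool) (ε : Fin d → Bool) : ‖Lam r l ε‖ ≤ 1 := by
  unfold Lam
  rw [norm_prod]
  exact Finset.prod_le_one (fun _ _ => norm_nonneg _) (fun j _ => norm_lam_le _ _ _)

lemma norm_pr_le (r : ℝ) (v : (Fin d → Bool) → ℝ) (hv : ∀ ε, |v ε| ≤ 1) (l : Fin d → Option Bool) :
    ‖pr r (fun ε => (v ε : ℂ)) l‖ ≤ 2 ^ d := by
  unfold pr
  calc ‖∑ ε, (v ε : ℂ) * Lam r l ε‖ ≤ ∑ _ε : Fin d → Bool, (1 : ℝ) := by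
        refine (norm_sum_le _ _).trans (Finset.sum_le_sum fun ε _ => ?_)
        rw [norm_mul, Complex.norm_real, Real.norm_eq_abs]
        calc |v ε| * ‖Lam r l ε‖ ≤ 1 * 1 :=
              mul_le_mul (hv ε) (norm_Lam_le r l ε) (norm_nonneg _) (by norm_num)
          _ = 1 := one_mul 1
    _ = 2 ^ d := by simp

lemma cnt_le (l : Fin d → Option Bool) : cnt l ≤ d := by
  unfold cnt
  refine (Finset.card_filter_le _ _).trans ?_
  simp

/-- rounding on one block -/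
lemma round_blk {r : ℝ} (hr : 1 < r) (ε : Fin d → Bool) (s : Fin d → ℕ) {w : ℝ} (hw0 : 0 ≤ w)
    (hw1 : w ≤ 1) :
    ∃ S ⊆ blk ε s, ∀ x : Fin d → ℝ,
      ‖∑ k ∈ S, H r k * E k x - (w : ℂ) * ∑ k ∈ blk ε s, H r k * E k x‖ ≤
      (((2 : ℝ) ^ r) ^ d * 2 ^ (d + 1)) *
        (((2 : ℝ) ^ (1 - r)) ^ (∑ j, s j) * ((2 : ℝ) ^ (-(1 / 4 : ℝ))) ^ (∑ j, s j)) := by
  have hr0 : 0 ≤ r := by linarith
  obtain ⟨S, hS, hb⟩ := rounding (blk ε s) (dset s) sub_mem_dset (H r)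
    (A := ((2 : ℝ) ^ r) ^ d * ((2 : ℝ) ^ (∑ j, s j)) ^ (-r)) (by positivity) (norm_H_blk hr0) hw0 hw1
  refine ⟨S, hS, fun x => ?_⟩
  have h1 := hb x
  set X : ℝ := (2 : ℝ) ^ (∑ j, s j) with hX
  have hX1 : 1 ≤ X := one_le_pow₀ (by norm_num)
  have hX0 : 0 < X := by linarith
  set Y : ℝ := X ^ (1 / 4 : ℝ) with hY
  have hY0 : 0 < Y := by positivity
  have hY1 : 1 ≤ Y := Real.one_le_rpow hX1 (by norm_num)
  have hY4 : Y ^ 4 = X := by
    rw [hY, ← Real.rpow_natCast, ← Real.rpow_mul hX0.le]; norm_num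
  have hcard : ((blk ε s).card : ℝ) ≤ X := by
    rw [hX]; exact_mod_cast card_blk_le ε s
  have hcardD : ((dset s).card : ℝ) ≤ 4 ^ d * X := by
    rw [hX]; exact_mod_cast card_dset_le s
  have hsq : Real.sqrt (2 * (dset s).card) ≤ 2 * 2 ^ d * Y ^ 2 := by
    rw [Real.sqrt_le_left (by positivity)]
    have h4 : (4 : ℝ) ^ d = 2 ^ d * 2 ^ d := by rw [← mul_pow]; norm_num
    rw [h4] at hcardD
    have : (2 * 2 ^ d * Y ^ 2) ^ 2 = 4 * (2 ^ d * 2 ^ d * X) := by rw [← hY4]; ring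
    rw [this]
    have h5 : (0 : ℝ) ≤ 2 ^ d * 2 ^ d * X := by positivity
    linarith
  have h2d : (1 : ℝ) ≤ 2 ^ d := one_le_pow₀ (by norm_num)
  have h6 : 1 + Real.sqrt (2 * (dset s).card) ≤ 4 * 2 ^ d * Y ^ 2 := by
    have h7 : (1 : ℝ) ≤ 2 ^ d * Y ^ 2 := one_le_mul_of_one_le_of_one_le h2d (one_le_pow₀ hY1)
    nlinarith
  have hgoal : (((2 : ℝ) ^ (1 - r)) ^ (∑ j, s j) * ((2 : ℝ) ^ (-(1 / 4 : ℝ))) ^ (∑ j, s j)) =
      X ^ (-r) * Y ^ 3 := by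
    have h8 : ((2 : ℝ) ^ (1 - r)) ^ (∑ j, s j) = X ^ (1 - r) := by
      rw [hX, ← Real.rpow_natCast, ← Real.rpow_natCast, ← Real.rpow_mul (by norm_num),
        ← Real.rpow_mul (by norm_num), mul_comm]
    have h9 : ((2 : ℝ) ^ (-(1 / 4 : ℝ))) ^ (∑ j, s j) = X ^ (-(1 / 4 : ℝ)) := by
      rw [hX, ← Real.rpow_natCast, ← Real.rpow_natCast, ← Real.rpow_mul (by norm_num),
        ← Real.rpow_mul (by norm_num), mul_comm]
    rw [h8, h9, hY, ← Real.rpow_natCast (X ^ (1 / 4 : ℝ)), ← Real.rpow_mul hX0.le,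
      ← Real.rpow_add hX0, ← Real.rpow_add hX0]
    congr 1
    push_cast; ring
  rw [hgoal]
  set c : ℝ := ((2 : ℝ) ^ r) ^ d with hc
  have hc0 : 0 < c := by positivity
  set Z : ℝ := X ^ (-r) with hZ
  have hZ0 : 0 < Z := by positivity
  have hfin : ‖∑ k ∈ S, H r k * E k x - (w : ℂ) * ∑ k ∈ blk ε s, H r k * E k x‖ ^ 2 ≤
      (c * 2 ^ (d + 1) * (Z * Y ^ 3)) ^ 2 := by
    refine h1.trans ?_
    calc (c * Z) ^ 2 * ((blk ε s).card : ℝ) * (1 + Real.sqrt (2 * (dset s).card))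
        ≤ (c * Z) ^ 2 * X * (4 * 2 ^ d * Y ^ 2) := by
          apply mul_le_mul _ h6 (by positivity) (by positivity)
          exact mul_le_mul_of_nonneg_left hcard (by positivity)
      _ = (c * Z) ^ 2 * Y ^ 4 * (4 * 2 ^ d * Y ^ 2) := by rw [hY4]
      _ = 4 * 2 ^ d * ((c * Z) ^ 2 * Y ^ 6) := by ring
      _ ≤ 4 * (2 ^ d * 2 ^ d) * ((c * Z) ^ 2 * Y ^ 6) := by
          apply mul_le_mul_of_nonneg_right _ (by positivity)
          nlinarith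
      _ = (c * 2 ^ (d + 1) * (Z * Y ^ 3)) ^ 2 := by rw [pow_succ]; ring
  exact (sq_le_sq₀ (norm_nonneg _) (by positivity)).mp hfin

lemma card_low (L m : ℕ) :
    ((Finset.univ : Finset (Fin d → Bool × Fin (L + 1))).filter
      (fun ξ => ∑ j, ((ξ j).2 : ℕ) < m)).card ≤ (2 * m) ^ d := by
  have h1 : ((Finset.univ : Finset (Fin d → Bool × Fin (L + 1))).filter
      (fun ξ => ∑ j, ((ξ j).2 : ℕ) < m)) ⊆
      Fintype.piFinset (fun _ : Fin d => (Finset.univ : Finset Bool) ×ˢ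
        (Finset.univ : Finset (Fin (L + 1))).filter (fun i : Fin (L + 1) => (i : ℕ) < m)) := by
    intro ξ hξ
    rw [Finset.mem_filter] at hξ
    rw [Fintype.mem_piFinset]
    intro j
    rw [Finset.mem_product, Finset.mem_filter]
    refine ⟨Finset.mem_univ _, Finset.mem_univ _, ?_⟩
    have h2 : ((ξ j).2 : ℕ) ≤ ∑ j, ((ξ j).2 : ℕ) :=
      Finset.single_le_sum (f := fun j => ((ξ j).2 : ℕ)) (fun _ _ => Nat.zero_le _) (Finset.mem_univ j)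
    exact h2.trans_lt hξ.2
  refine (Finset.card_le_card h1).trans ?_
  rw [Fintype.card_piFinset]
  simp only [Finset.card_product, Finset.card_univ, Fintype.card_bool, Finset.prod_const,
    Fintype.card_fin]
  apply Nat.pow_le_pow_left
  apply Nat.mul_le_mul_left
  have h3 := Finset.card_le_card_of_injOn
    (s := (Finset.univ : Finset (Fin (L + 1))).filter (fun i : Fin (L + 1) => (i : ℕ) < m))
    (t := Finset.range m) (fun i => (i : ℕ))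
    (fun i hi => by simpa using hi) (fun a _ b _ h => Fin.ext h)
  simpa using h3

/-- main part: bound for the weighted sum -/
theorem main_part {r : ℝ} (hr : 1 < r) {M : ℕ} (v : (Fin d → Bool) → ℝ) (hv0 : ∀ ε, 0 < v ε)
    (hv1 : ∀ ε, v ε < 1)
    (hB : ∀ l : Fin d → Option Bool, M ≤ cnt l → ∑ ε, (v ε : ℂ) * Lam r l ε = 0)
    (y : ℕ → ℝ) {C : ℝ} (hC : 0 < C)
    (hy : ∀ n : ℕ, ∃ a : ℕ → ℕ → ℝ,
      (∀ l, a 0 l = if n ≤ l then ((2 : ℝ) ^ (1 - r)) ^ l * y (l - n) else 0) ∧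
        (∀ k l, a k l = a (k + 1) l - a (k + 1) (l + 1)) ∧
        (∀ k l, k ≤ d → |a k l| ≤ C * ((2 : ℝ) ^ (1 - r)) ^ n)) :
    ∃ C' : ℝ, 0 < C' ∧ ∀ (n L : ℕ) (x : Fin d → ℝ),
      ‖∑ ξ : Fin d → Bool × Fin (L + 1),
        (((if n ≤ ∑ j, ((ξ j).2 : ℕ) then
          v (fun j => (ξ j).1) + (1 - v (fun j => (ξ j).1)) * y (∑ j, ((ξ j).2 : ℕ) - n) else 0 : ℝ)) : ℂ) *
          ∑ k ∈ blk (fun j => (ξ j).1) (fun j => ((ξ j).2 : ℕ)), H r k * E k x‖ ≤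
      C' * (((2 : ℝ) ^ (1 - r)) ^ n * ((n : ℝ) + 1) ^ (M - 2)) := by
  set q : ℝ := (2 : ℝ) ^ (1 - r) with hq
  have hq0 : 0 < q := by positivity
  have hq1 : q < 1 := Real.rpow_lt_one_of_one_lt_of_neg (by norm_num) (by linarith)
  have hb0 := b0_nonneg r
  set Cη : ℝ := 2 * (1 + b0 r) + 28 * (2 : ℝ) ^ (r - 1) with hCη
  have hCη0 : 0 ≤ Cη := by positivity
  have hinv : 1 ≤ (1 - q)⁻¹ := (one_le_inv₀ (by linarith)).mpr (by linarith)
  refine ⟨(2 * b0 r + Cη) ^ d * (2 ^ d * (((1 - q)⁻¹) ^ d + C)) + 1, by positivity, ?_⟩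
  intro n L x
  obtain ⟨a1, ha1, ha1', ha1''⟩ := exists_geo hq0 hq1 n
  obtain ⟨a2, ha2, ha2', ha2''⟩ := hy n
  choose U hU hUest using fun j : Fin d => block_estimate hr L (x j)
  set β : Fin d → Bool → ℕ → ℂ := fun j b s => bet r (x j) b s with hβ
  have hsum : ∑ ξ : Fin d → Bool × Fin (L + 1),
        (((if n ≤ ∑ j, ((ξ j).2 : ℕ) then
          v (fun j => (ξ j).1) + (1 - v (fun j => (ξ j).1)) * y (∑ j, ((ξ j).2 : ℕ) - n) else 0 : ℝ)) : ℂ) *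
          ∑ k ∈ blk (fun j => (ξ j).1) (fun j => ((ξ j).2 : ℕ)), H r k * E k x =
      SS L β (fun ε => (v ε : ℂ)) ((fun k l => (a1 k l : ℂ)) 0) +
      SS L β (fun ε => ((1 - v ε : ℝ) : ℂ)) ((fun k l => (a2 k l : ℂ)) 0) := by
    unfold SS
    rw [← Finset.sum_add_distrib]
    apply Finset.sum_congr rfl
    intro ξ _
    rw [sum_blk r (fun j => (ξ j).1) (fun j => ((ξ j).2 : ℕ)) x, prod_Blk_eq L ξ x]
    simp only [hβ, ha1, ha2]
    rw [← mul_assoc, ← Complex.ofReal_mul]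
    rw [← add_mul]
    congr 1
    rw [← Complex.ofReal_mul, ← Complex.ofReal_mul, ← Complex.ofReal_add]
    congr 1
    split_ifs
    · ring
    · ring
  rw [hsum]
  have hpow : (1 : ℝ) ≤ ((n : ℝ) + 1) ^ (M - 2) := one_le_pow₀ (by linarith [Nat.cast_nonneg (α := ℝ) n])
  have hqn : 0 < q ^ n := by positivity
  have hS1 : ‖SS L β (fun ε => (v ε : ℂ)) ((fun k l => (a1 k l : ℂ)) 0)‖ ≤
      (2 * b0 r + Cη) ^ d * (2 ^ d * (((1 - q)⁻¹) ^ d * ((n : ℝ) + 1) ^ (M - 2) * q ^ n)) := by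
    refine SS_bound (r := r) hb0 hCη0 β U hU hUest (fun ε => (v ε : ℂ)) (fun k l => (a1 k l : ℂ))
      ?_ ?_
    · intro k l
      rw [ha1' k l]; push_cast; ring
    · intro l i
      by_cases hM : M ≤ cnt l
      · have : pr r (fun ε => (v ε : ℂ)) l = 0 := hB l hM
        rw [this, norm_zero, zero_mul]; positivity
      · push Not at hM
        have h1 : ‖pr r (fun ε => (v ε : ℂ)) l‖ ≤ 2 ^ d :=
          norm_pr_le r v (fun ε => by rw [abs_of_pos (hv0 ε)]; exact (hv1 ε).le) l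
        have h2 : ‖((a1 (cnt l) i : ℝ) : ℂ)‖ ≤ ((1 - q)⁻¹) ^ d * ((n : ℝ) + 1) ^ (M - 2) * q ^ n := by
          rw [Complex.norm_real, Real.norm_eq_abs]
          refine (ha1'' (cnt l) i).trans ?_
          apply mul_le_mul_of_nonneg_right _ hqn.le
          apply mul_le_mul
          · exact pow_le_pow_right₀ hinv (cnt_le l)
          · exact pow_le_pow_right₀ (by linarith [Nat.cast_nonneg (α := ℝ) n]) (by omega)
          · positivity
          · positivity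
        exact mul_le_mul h1 h2 (norm_nonneg _) (by positivity)
  have hS2 : ‖SS L β (fun ε => ((1 - v ε : ℝ) : ℂ)) ((fun k l => (a2 k l : ℂ)) 0)‖ ≤
      (2 * b0 r + Cη) ^ d * (2 ^ d * (C * q ^ n)) := by
    refine SS_bound (r := r) hb0 hCη0 β U hU hUest (fun ε => ((1 - v ε : ℝ) : ℂ))
      (fun k l => (a2 k l : ℂ)) ?_ ?_
    · intro k l
      rw [ha2' k l]; push_cast; ring
    · intro l i
      have h1 : ‖pr r (fun ε => ((1 - v ε : ℝ) : ℂ)) l‖ ≤ 2 ^ d :=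
        norm_pr_le r (fun ε => 1 - v ε) (fun ε => by
          rw [abs_le]; constructor <;> linarith [hv0 ε, hv1 ε]) l
      have h2 : ‖((a2 (cnt l) i : ℝ) : ℂ)‖ ≤ C * q ^ n := by
        rw [Complex.norm_real, Real.norm_eq_abs]
        exact ha2'' (cnt l) i (cnt_le l)
      exact mul_le_mul h1 h2 (norm_nonneg _) (by positivity)
  refine (norm_add_le _ _).trans ((add_le_add hS1 hS2).trans ?_)
  have h3 : C * q ^ n ≤ C * (q ^ n * ((n : ℝ) + 1) ^ (M - 2)) := by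
    apply mul_le_mul_of_nonneg_left _ hC.le
    exact le_mul_of_one_le_right hqn.le hpow
  have h4 : (0 : ℝ) ≤ (2 * b0 r + Cη) ^ d * 2 ^ d := by positivity
  have h5 := mul_le_mul_of_nonneg_left h3 h4
  have h6 : (0 : ℝ) ≤ q ^ n * ((n : ℝ) + 1) ^ (M - 2) := by positivity
  calc (2 * b0 r + Cη) ^ d * (2 ^ d * (((1 - q)⁻¹) ^ d * ((n : ℝ) + 1) ^ (M - 2) * q ^ n)) +
        (2 * b0 r + Cη) ^ d * (2 ^ d * (C * q ^ n))
      = (2 * b0 r + Cη) ^ d * 2 ^ d * ((1 - q)⁻¹) ^ d * (q ^ n * ((n : ℝ) + 1) ^ (M - 2)) +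
        (2 * b0 r + Cη) ^ d * 2 ^ d * (C * q ^ n) := by ring
    _ ≤ (2 * b0 r + Cη) ^ d * 2 ^ d * ((1 - q)⁻¹) ^ d * (q ^ n * ((n : ℝ) + 1) ^ (M - 2)) +
        (2 * b0 r + Cη) ^ d * 2 ^ d * (C * (q ^ n * ((n : ℝ) + 1) ^ (M - 2))) +
        1 * (q ^ n * ((n : ℝ) + 1) ^ (M - 2)) := by linarith
    _ = ((2 * b0 r + Cη) ^ d * (2 ^ d * (((1 - q)⁻¹) ^ d + C)) + 1) *
        (q ^ n * ((n : ℝ) + 1) ^ (M - 2)) := by ring

end Pool.Agent.Helper935.OW
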