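import Pool.Agent.Helper935.OW.Up3

open scoped ComplexConjugate

namespace Pool.Agent.Helper935.OW

variable {d : ℕ}

/-- rescaling the tensor into the unit interval -/
lemma bal_scaled {r : ℝ} {M : ℕ} (hB : Bal d r M) :
    ∃ (v : (Fin d → Bool) → ℝ) (δ : ℝ), 0 < δ ∧ (∀ ε, δ ≤ v ε) ∧ (∀ ε, v ε < 1) ∧
      ∀ l : Fin d → Option Bool, M ≤ cnt l → ∑ ε, (v ε : ℂ) * Lam r l ε = 0 := by
  obtain ⟨v, hv, hl⟩ := hB
  have hS : 0 < 1 + ∑ ε, v ε := by
    have : 0 ≤ ∑ ε, v ε := Finset.sum_nonneg (fun ε _ => (hv ε).le)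
    linarith
  obtain ⟨ε0, hε0⟩ := Finite.exists_min v
  refine ⟨fun ε => (1 + ∑ ε, v ε)⁻¹ * v ε, (1 + ∑ ε, v ε)⁻¹ * v ε0,
    mul_pos (inv_pos.mpr hS) (hv ε0), ?_, ?_, ?_⟩
  · intro ε
    exact mul_le_mul_of_nonneg_left (hε0 ε) (inv_pos.mpr hS).le
  · intro ε
    beta_reduce
    rw [inv_mul_lt_iff₀ hS, mul_one]
    have : v ε ≤ ∑ ε, v ε := Finset.single_le_sum (f := v) (fun ε _ => (hv ε).le) (Finset.mem_univ ε)
    linarith
  · intro l hM
    have h1 := hl l hM
    have h2 : ∑ ε, ((((1 + ∑ ε, v ε)⁻¹ * v ε : ℝ)) : ℂ) * Lam r l ε =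
        (((1 + ∑ ε, v ε)⁻¹ : ℝ) : ℂ) * ∑ ε, (v ε : ℂ) * Lam r l ε := by
      rw [Finset.mul_sum]
      apply Finset.sum_congr rfl; intro ε _
      push_cast; ring
    rw [h2, h1, mul_zero]

theorem upper_sets {r : ℝ} (hr : 1 < r) {M : ℕ} (hB : Bal d r M) :
    ∃ (T : ℕ) (C : ℝ), 0 < C ∧ ∀ n : ℕ, ∃ K : Finset (Fin d → ℤ), (∀ k ∈ K, LL k < n + T) ∧
      ∀ x, ‖(FF d r x : ℂ) - ∑ k ∈ K, H r k * E k x‖ ≤
        C * (((2 : ℝ) ^ (1 - r)) ^ n * ((n : ℝ) + 1) ^ (M - 2)) := by
  classical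
  obtain ⟨v, δ, hδ, hvδ, hv1, hvl⟩ := bal_scaled hB
  have hv0 : ∀ ε, 0 < v ε := fun ε => hδ.trans_le (hvδ ε)
  have hδ1 : δ < 1 := (hvδ (fun _ => true)).trans_lt (hv1 _)
  set q : ℝ := (2 : ℝ) ^ (1 - r) with hq
  have hq0 : 0 < q := by positivity
  have hq1 : q < 1 := Real.rpow_lt_one_of_one_lt_of_neg (by norm_num) (by linarith)
  set p : ℝ := (2 : ℝ) ^ (-(1 / 4 : ℝ)) with hp
  have hp0 : 0 < p := by positivity
  have hp1 : p < 1 := Real.rpow_lt_one_of_one_lt_of_neg (by norm_num) (by norm_num)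
  obtain ⟨y, T, C1, hC1, hyT, hyη, hyn⟩ := exists_profile hq0 hq1 d hδ
  obtain ⟨C2, hC2, hmain⟩ := main_part hr v hv0 hv1 hvl y hC1 hyn
  obtain ⟨C3, hC3, hgeo⟩ := poly_geo_bounded hp0 hp1 d T
  set B0 : ℝ := ((2 : ℝ) ^ r) ^ d * 2 ^ (d + 1) with hB0
  have hB00 : 0 < B0 := by positivity
  refine ⟨T, C2 + B0 * (2 ^ d * C3), by positivity, fun n => ?_⟩
  -- weights
  have hw : ∀ ε τ, 0 ≤ v ε + (1 - v ε) * y τ ∧ v ε + (1 - v ε) * y τ ≤ 1 := by
    intro ε τ
    have h1 := hv0 ε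
    have h2 := hv1 ε
    have h3 := hvδ ε
    rcases lt_or_ge τ T with hτ | hτ
    · have h4 := abs_le.mp (hyη τ hτ)
      constructor
      · nlinarith
      · nlinarith
    · rw [hyT τ hτ]; constructor <;> linarith
  choose S hSsub hSest using fun (ε : Fin d → Bool) (s : Fin d → ℕ) =>
    round_blk hr ε s (hw ε (∑ j, s j - n)).1 (hw ε (∑ j, s j - n)).2
  set K : Finset (Fin d → ℤ) := (bx d (2 ^ (n + T) - 1)).filter
    (fun k => LL k < n ∨ (LL k < n + T ∧ k ∉ S (sgs k) (levs k))) with hK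
  have hLLbx : ∀ (m : ℕ) (k : Fin d → ℤ), LL k < m → k ∈ bx d (2 ^ m - 1) := by
    intro m k hk
    unfold bx
    rw [Fintype.mem_piFinset]
    intro j
    have h1 : lev (k j) ≤ LL k :=
      Finset.single_le_sum (f := fun j => lev (k j)) (fun _ _ => Nat.zero_le _) (Finset.mem_univ j)
    have h2 : lev (k j) ≤ m := by omega
    rw [lev_le_iff] at h2
    have h3 : (((k j).natAbs : ℕ) : ℤ) < (2 : ℤ) ^ m := by exact_mod_cast h2
    have hcast : (((2 ^ m - 1 : ℕ)) : ℤ) = (2 : ℤ) ^ m - 1 := by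
      rw [Nat.cast_sub Nat.one_le_two_pow]; push_cast; ring
    rw [Finset.mem_Icc, hcast]
    omega
  have hKmem : ∀ k, k ∈ K ↔ (LL k < n ∨ (LL k < n + T ∧ k ∉ S (sgs k) (levs k))) := by
    intro k
    rw [hK, Finset.mem_filter]
    constructor
    · exact fun h => h.2
    · intro h
      refine ⟨hLLbx _ _ ?_, h⟩
      rcases h with h | h
      · omega
      · exact h.1
  have hKLL : ∀ k ∈ K, LL k < n + T := by
    intro k hk
    rcases (hKmem k).mp hk with h | h
    · omega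
    · exact h.1
  refine ⟨K, hKLL, fun x => ?_⟩
  -- finite level estimate
  have hfin : ∀ L, n + T ≤ L → ‖∑ k ∈ bx d (2 ^ L - 1), H r k * E k x - ∑ k ∈ K, H r k * E k x‖ ≤
      (C2 + B0 * (2 ^ d * C3)) * (q ^ n * ((n : ℝ) + 1) ^ (M - 2)) := by
    intro L hL
    have hKsub : K ⊆ bx d (2 ^ L - 1) := fun k hk => hLLbx L k ((hKLL k hk).trans_le hL)
    have h1 : ∑ k ∈ bx d (2 ^ L - 1), H r k * E k x - ∑ k ∈ K, H r k * E k x =
        ∑ k ∈ bx d (2 ^ L - 1), (if k ∈ K then 0 else H r k * E k x) := by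
      have h0 : ∑ k ∈ K, H r k * E k x =
          ∑ k ∈ bx d (2 ^ L - 1), (if k ∈ K then H r k * E k x else 0) := by
        rw [Finset.sum_ite_mem, Finset.inter_eq_right.mpr hKsub]
      rw [h0, ← Finset.sum_sub_distrib]
      apply Finset.sum_congr rfl; intro k _
      split_ifs <;> simp
    rw [h1, sum_bx_blk]
    set W : (Fin d → Bool × Fin (L + 1)) → ℝ := fun ξ =>
      if n ≤ ∑ j, ((ξ j).2 : ℕ) then
          v (fun j => (ξ j).1) + (1 - v (fun j => (ξ j).1)) * y (∑ j, ((ξ j).2 : ℕ) - n) else 0 with hW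
    have hinner : ∀ ξ : Fin d → Bool × Fin (L + 1),
        ‖∑ k ∈ blk (fun j => (ξ j).1) (fun j => ((ξ j).2 : ℕ)), (if k ∈ K then 0 else H r k * E k x) -
          (W ξ : ℂ) * ∑ k ∈ blk (fun j => (ξ j).1) (fun j => ((ξ j).2 : ℕ)), H r k * E k x‖ ≤
        if ∑ j, ((ξ j).2 : ℕ) < n + T then B0 * (q ^ n * p ^ n) else 0 := by
      intro ξ
      set ε : Fin d → Bool := fun j => (ξ j).1 with hε
      set s : Fin d → ℕ := fun j => ((ξ j).2 : ℕ) with hs
      have hnn : 0 ≤ B0 * (q ^ n * p ^ n) := by positivity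
      rcases lt_or_ge (∑ j, s j) n with hc | hc
      · -- low level: everything is in `K`
        have h2 : ∑ k ∈ blk ε s, (if k ∈ K then 0 else H r k * E k x) = 0 := by
          apply Finset.sum_eq_zero
          intro k hk
          rw [if_pos]
          rw [hKmem]; left
          rw [LL_of_mem hk]; exact hc
        have h3 : W ξ = 0 := by
          simp only [hW]; rw [if_neg (by exact not_le.mpr hc)]
        rw [h2, h3, if_pos (Nat.lt_of_lt_of_le hc (Nat.le_add_right n T))]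
        simpa using hnn
      · rcases lt_or_ge (∑ j, s j) (n + T) with hc2 | hc2
        · have h2 : ∑ k ∈ blk ε s, (if k ∈ K then 0 else H r k * E k x) =
              ∑ k ∈ S ε s, H r k * E k x := by
            have h0 : ∑ k ∈ S ε s, H r k * E k x =
                ∑ k ∈ blk ε s, (if k ∈ S ε s then H r k * E k x else 0) := by
              rw [Finset.sum_ite_mem, Finset.inter_eq_right.mpr (hSsub ε s)]
            rw [h0]
            apply Finset.sum_congr rfl
            intro k hk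
            have h4 := mem_blk.mp hk
            by_cases hkS : k ∈ S ε s
            · have hkK : k ∉ K := by
                rw [hKmem, h4.1, h4.2, LL_of_mem hk]
                push Not
                exact ⟨hc, fun _ => hkS⟩
              rw [if_pos hkS, if_neg hkK]
            · have hkK : k ∈ K := by
                rw [hKmem, h4.1, h4.2, LL_of_mem hk]
                exact Or.inr ⟨hc2, hkS⟩
              rw [if_neg hkS, if_pos hkK]
          have h3 : W ξ = v ε + (1 - v ε) * y (∑ j, s j - n) := by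
            simp only [hW]; rw [if_pos hc]
          rw [h2, h3, if_pos hc2]
          refine (hSest ε s x).trans ?_
          apply mul_le_mul_of_nonneg_left _ hB00.le
          apply mul_le_mul
          · exact pow_le_pow_of_le_one hq0.le hq1.le hc
          · exact pow_le_pow_of_le_one hp0.le hp1.le hc
          · positivity
          · positivity
        · have h2 : ∑ k ∈ blk ε s, (if k ∈ K then 0 else H r k * E k x) =
              ∑ k ∈ blk ε s, H r k * E k x := by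
            apply Finset.sum_congr rfl
            intro k hk
            rw [if_neg]
            rw [hKmem, LL_of_mem hk]
            omega
          have h3 : W ξ = 1 := by
            simp only [hW]; rw [if_pos hc, hyT _ (Nat.le_sub_of_add_le (by rw [add_comm]; exact hc2))]; ring
          rw [h2, h3, if_neg (not_lt.mpr hc2)]
          simp
    have hsplit : ∑ ξ : Fin d → Bool × Fin (L + 1),
        ∑ k ∈ blk (fun j => (ξ j).1) (fun j => ((ξ j).2 : ℕ)), (if k ∈ K then 0 else H r k * E k x) =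
        ∑ ξ : Fin d → Bool × Fin (L + 1),
          (∑ k ∈ blk (fun j => (ξ j).1) (fun j => ((ξ j).2 : ℕ)), (if k ∈ K then 0 else H r k * E k x) -
          (W ξ : ℂ) * ∑ k ∈ blk (fun j => (ξ j).1) (fun j => ((ξ j).2 : ℕ)), H r k * E k x) +
        ∑ ξ : Fin d → Bool × Fin (L + 1),
          (W ξ : ℂ) * ∑ k ∈ blk (fun j => (ξ j).1) (fun j => ((ξ j).2 : ℕ)), H r k * E k x := by
      rw [← Finset.sum_add_distrib]
      apply Finset.sum_congr rfl; intro ξ _
      ring
    rw [hsplit]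
    have hA : ‖∑ ξ : Fin d → Bool × Fin (L + 1),
          (∑ k ∈ blk (fun j => (ξ j).1) (fun j => ((ξ j).2 : ℕ)), (if k ∈ K then 0 else H r k * E k x) -
          (W ξ : ℂ) * ∑ k ∈ blk (fun j => (ξ j).1) (fun j => ((ξ j).2 : ℕ)), H r k * E k x)‖ ≤
        B0 * (2 ^ d * C3) * q ^ n := by
      refine (norm_sum_le _ _).trans ((Finset.sum_le_sum fun ξ _ => hinner ξ).trans ?_)
      rw [← Finset.sum_filter, Finset.sum_const, nsmul_eq_mul]
      have h4 : ((((Finset.univ : Finset (Fin d → Bool × Fin (L + 1))).filter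
          (fun ξ => ∑ j, ((ξ j).2 : ℕ) < n + T)).card : ℕ) : ℝ) ≤ (2 * ((n : ℝ) + T)) ^ d := by
        exact_mod_cast card_low (d := d) L (n + T)
      calc ((((Finset.univ : Finset (Fin d → Bool × Fin (L + 1))).filter
          (fun ξ => ∑ j, ((ξ j).2 : ℕ) < n + T)).card : ℕ) : ℝ) * (B0 * (q ^ n * p ^ n))
          ≤ (2 * ((n : ℝ) + T)) ^ d * (B0 * (q ^ n * p ^ n)) :=
            mul_le_mul_of_nonneg_right h4 (by positivity)
        _ = B0 * (2 ^ d * (((n : ℝ) + T) ^ d * p ^ n)) * q ^ n := by rw [mul_pow]; ring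
        _ ≤ B0 * (2 ^ d * C3) * q ^ n := by
            apply mul_le_mul_of_nonneg_right _ (by positivity)
            apply mul_le_mul_of_nonneg_left _ hB00.le
            exact mul_le_mul_of_nonneg_left (hgeo n) (by positivity)
    have hBd := hmain n L x
    have hpow : (1 : ℝ) ≤ ((n : ℝ) + 1) ^ (M - 2) :=
      one_le_pow₀ (by linarith [Nat.cast_nonneg (α := ℝ) n])
    have hqn : 0 < q ^ n := by positivity
    have hfinal : B0 * (2 ^ d * C3) * q ^ n ≤
        B0 * (2 ^ d * C3) * (q ^ n * ((n : ℝ) + 1) ^ (M - 2)) := by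
      apply mul_le_mul_of_nonneg_left _ (by positivity)
      exact le_mul_of_one_le_right hqn.le hpow
    refine (norm_add_le _ _).trans ?_
    calc _ ≤ B0 * (2 ^ d * C3) * q ^ n + C2 * (q ^ n * ((n : ℝ) + 1) ^ (M - 2)) := add_le_add hA hBd
      _ ≤ B0 * (2 ^ d * C3) * (q ^ n * ((n : ℝ) + 1) ^ (M - 2)) +
          C2 * (q ^ n * ((n : ℝ) + 1) ^ (M - 2)) := by linarith
      _ = _ := by ring
  -- limit
  have hlim : Filter.Tendsto (fun L : ℕ => ‖∑ k ∈ bx d (2 ^ L - 1), H r k * E k x -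
      ∑ k ∈ K, H r k * E k x‖) Filter.atTop
      (nhds ‖(FF d r x : ℂ) - ∑ k ∈ K, H r k * E k x‖) :=
    ((tendsto_FF hr x).sub_const _).norm
  exact le_of_tendsto hlim (Filter.eventually_atTop.mpr ⟨n + T, hfin⟩)

end Pool.Agent.Helper935.OW
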