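import Pool.Agent.Helper935.OW.Defs

open Polynomial
open scoped ComplexConjugate

namespace Pool.Agent.Helper935.OW

/-- real polynomial of degree `n` with positive coefficients -/
def PosP (n : ℕ) (P : ℝ[X]) : Prop := P.natDegree = n ∧ ∀ i ≤ n, 0 < P.coeff i

/-- auxiliary form of the vanishing condition at a general point -/
def PV (d : ℕ) (z : ℂ) (N : ℕ) : Prop :=
  ∃ P : ℝ[X], PosP d P ∧ (X - C z) ^ N ∣ P.map (algebraMap ℝ ℂ)

lemma PosPolyVanishes_iff (d : ℕ) (r : ℝ) (N : ℕ) :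
    PosPolyVanishes d r N ↔ PV d (Complex.exp (Real.pi * r * Complex.I)) N := by
  unfold PosPolyVanishes PV PosP
  constructor
  · rintro ⟨P, h1, h2, h3⟩; exact ⟨P, ⟨h1, h2⟩, h3⟩
  · rintro ⟨P, ⟨h1, h2⟩, h3⟩; exact ⟨P, h1, h2, h3⟩

lemma PosP.mul {a b : ℕ} {P Q : ℝ[X]} (hP : PosP a P) (hQ : PosP b Q) : PosP (a + b) (P * Q) := by
  obtain ⟨hPd, hPc⟩ := hP
  obtain ⟨hQd, hQc⟩ := hQ
  have hP0 : P ≠ 0 := by rintro rfl; simpa using hPc 0 (Nat.zero_le _)
  have hQ0 : Q ≠ 0 := by rintro rfl; simpa using hQc 0 (Nat.zero_le _)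
  have hPn : ∀ i, 0 ≤ P.coeff i := by
    intro i
    rcases le_or_gt i a with h | h
    · exact (hPc i h).le
    · rw [coeff_eq_zero_of_natDegree_lt (by omega)]
  have hQn : ∀ i, 0 ≤ Q.coeff i := by
    intro i
    rcases le_or_gt i b with h | h
    · exact (hQc i h).le
    · rw [coeff_eq_zero_of_natDegree_lt (by omega)]
  refine ⟨by rw [natDegree_mul hP0 hQ0, hPd, hQd], ?_⟩
  intro k hk
  rw [coeff_mul]
  apply Finset.sum_pos'
  · intro p _; exact mul_nonneg (hPn _) (hQn _)
  · refine ⟨(min k a, k - min k a), ?_, ?_⟩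
    · rw [Finset.HasAntidiagonal.mem_antidiagonal]; show min k a + (k - min k a) = k; omega
    · exact mul_pos (hPc _ (by omega)) (hQc _ (by omega))

lemma PosP.one : PosP 0 (1 : ℝ[X]) := by
  refine ⟨natDegree_one, ?_⟩
  intro i hi
  have : i = 0 := by omega
  subst this; simp

lemma PosP.pow {a : ℕ} {P : ℝ[X]} (hP : PosP a P) (n : ℕ) : PosP (n * a) (P ^ n) := by
  induction n with
  | zero => simpa using PosP.one
  | succ n ih =>
    rw [pow_succ]
    have h : (n + 1) * a = n * a + a := by ring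
    rw [h]
    exact ih.mul hP

lemma PosP_X_add_one : PosP 1 (X + 1 : ℝ[X]) := by
  refine ⟨by rw [← C_1]; exact natDegree_X_add_C 1, ?_⟩
  intro i hi
  interval_cases i
  · simp
  · simp [coeff_one]

lemma PosP_X_add_one_pow (n : ℕ) : PosP n ((X + 1 : ℝ[X]) ^ n) := by
  simpa using PosP_X_add_one.pow n

lemma PV_conj {d : ℕ} {z : ℂ} {N : ℕ} (h : PV d z N) : PV d (conj z) N := by
  obtain ⟨P, hP, hdvd⟩ := h
  refine ⟨P, hP, ?_⟩
  have h1 := Polynomial.map_dvd (starRingEnd ℂ) hdvd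
  rw [Polynomial.map_map] at h1
  have h2 : (starRingEnd ℂ).comp (algebraMap ℝ ℂ) = algebraMap ℝ ℂ := by
    ext x; simp
  rw [h2] at h1
  simpa using h1

/-- the angle in `[0, pi]` -/
noncomputable def ang (r : ℝ) : ℝ := Real.arccos (Real.cos (Real.pi * r))

lemma exp_eq (r : ℝ) : Complex.exp (Real.pi * r * Complex.I) = Complex.exp (ang r * Complex.I) ∨
    Complex.exp (Real.pi * r * Complex.I) = conj (Complex.exp (ang r * Complex.I)) := by
  have hcos : Real.cos (ang r) = Real.cos (Real.pi * r) :=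
    Real.cos_arccos (Real.neg_one_le_cos _) (Real.cos_le_one _)
  have hsin : Real.sin (ang r) ^ 2 = Real.sin (Real.pi * r) ^ 2 := by
    have h1 := Real.sin_sq_add_cos_sq (ang r)
    have h2 := Real.sin_sq_add_cos_sq (Real.pi * r)
    rw [hcos] at h1; linarith
  have h0 : (Real.pi * r * Complex.I : ℂ) = ((Real.pi * r : ℝ) : ℂ) * Complex.I := by push_cast; ring
  rw [h0]
  rcases sq_eq_sq_iff_eq_or_eq_neg.mp hsin with h | h
  · left
    apply Complex.ext
    · rw [Complex.exp_ofReal_mul_I_re, Complex.exp_ofReal_mul_I_re, hcos]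
    · rw [Complex.exp_ofReal_mul_I_im, Complex.exp_ofReal_mul_I_im, h]
  · right
    apply Complex.ext
    · rw [Complex.conj_re, Complex.exp_ofReal_mul_I_re, Complex.exp_ofReal_mul_I_re, hcos]
    · rw [Complex.conj_im, Complex.exp_ofReal_mul_I_im, Complex.exp_ofReal_mul_I_im, h, neg_neg]

lemma PV_iff (d : ℕ) (r : ℝ) (N : ℕ) :
    PosPolyVanishes d r N ↔ PV d (Complex.exp (ang r * Complex.I)) N := by
  rw [PosPolyVanishes_iff]
  rcases exp_eq r with h | h
  · rw [h]
  · rw [h]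
    constructor
    · intro h1
      have := PV_conj h1
      rwa [Complex.conj_conj] at this
    · exact PV_conj

lemma PV_zero (d : ℕ) (z : ℂ) : PV d z 0 :=
  ⟨(X + 1) ^ d, PosP_X_add_one_pow d, by simp⟩

/-- the maximum defining the order is attained -/
theorem vanishingOrder_spec (d : ℕ) (r : ℝ) :
    vanishingOrder d r ≤ d - 1 ∧ PosPolyVanishes d r (vanishingOrder d r) ∧
      (vanishingOrder d r < d - 1 → ¬ PosPolyVanishes d r (vanishingOrder d r + 1)) := by
  have hne : {N : ℕ | N ≤ d - 1 ∧ PosPolyVanishes d r N}.Nonempty :=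
    ⟨0, Nat.zero_le _, by rw [PosPolyVanishes_iff]; exact PV_zero _ _⟩
  have hbd : BddAbove {N : ℕ | N ≤ d - 1 ∧ PosPolyVanishes d r N} := ⟨d - 1, fun N hN => hN.1⟩
  have hmem := Nat.sSup_mem hne hbd
  refine ⟨hmem.1, hmem.2, ?_⟩
  intro hlt hcon
  have h1 : vanishingOrder d r + 1 ≤ vanishingOrder d r :=
    le_csSup hbd ⟨by omega, hcon⟩
  omega

lemma le_vanishingOrder {d : ℕ} {r : ℝ} {N : ℕ} (h1 : N ≤ d - 1) (h2 : PosPolyVanishes d r N) :
    N ≤ vanishingOrder d r := by
  have hbd : BddAbove {N : ℕ | N ≤ d - 1 ∧ PosPolyVanishes d r N} := ⟨d - 1, fun N hN => hN.1⟩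
  exact le_csSup hbd ⟨h1, h2⟩

lemma eval_map_eq {P : ℝ[X]} (z : ℂ) :
    (P.map (algebraMap ℝ ℂ)).eval z = ∑ k ∈ Finset.range (P.natDegree + 1), (P.coeff k : ℂ) * z ^ k := by
  rw [eval_map, eval₂_eq_sum_range]; rfl

/-- no positive polynomial vanishes at `1` -/
lemma PV_one {d N : ℕ} (h : PV d 1 N) : N = 0 := by
  obtain ⟨P, ⟨hd, hP⟩, hdvd⟩ := h
  by_contra hN
  have h1 : (X - C (1 : ℂ)) ∣ P.map (algebraMap ℝ ℂ) := (dvd_pow_self _ hN).trans hdvd
  rw [dvd_iff_isRoot, IsRoot.def, eval_map_eq] at h1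
  have h2 : (0 : ℝ) < ∑ k ∈ Finset.range (P.natDegree + 1), P.coeff k := by
    apply Finset.sum_pos
    · intro k hk
      exact hP k (by rw [Finset.mem_range] at hk; omega)
    · exact ⟨0, by simp⟩
  have h3 : ((∑ k ∈ Finset.range (P.natDegree + 1), P.coeff k : ℝ) : ℂ) = 0 := by
    rw [← h1]; push_cast
    apply Finset.sum_congr rfl; intro k _; simp
  have h4 := Complex.ofReal_eq_zero.mp h3
  linarith

/-- at `-1` the binomial polynomial is optimal -/
lemma PV_neg_one (d : ℕ) : PV d (-1) d := by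
  refine ⟨(X + 1) ^ d, PosP_X_add_one_pow d, ?_⟩
  simp

/-- the weighted derivative -/
noncomputable def Tc (c : ℝ) (P : ℝ[X]) : ℝ[X] := C c * P - X * derivative P

lemma coeff_Tc (c : ℝ) (P : ℝ[X]) (k : ℕ) : (Tc c P).coeff k = (c - k) * P.coeff k := by
  unfold Tc
  rw [coeff_sub, coeff_C_mul]
  cases k with
  | zero => simp
  | succ k =>
    rw [coeff_X_mul, coeff_derivative]; push_cast; ring

lemma Tc_dvd {z : ℂ} {N : ℕ} {c : ℝ} {P : ℝ[X]} (h : (X - C z) ^ (N + 1) ∣ P.map (algebraMap ℝ ℂ)) :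
    (X - C z) ^ N ∣ (Tc c P).map (algebraMap ℝ ℂ) := by
  unfold Tc
  rw [Polynomial.map_sub, Polynomial.map_mul, Polynomial.map_mul, map_X, map_C]
  apply dvd_sub
  · exact ((pow_dvd_pow _ (Nat.le_succ N)).trans h).mul_left _
  · apply Dvd.dvd.mul_left
    have h1 := Polynomial.pow_sub_one_dvd_derivative_of_pow_dvd h
    rw [Nat.add_sub_cancel] at h1
    rwa [Polynomial.derivative_map] at h1

lemma prod_vanish {z : ℂ} (c : ℕ → ℝ) (N : ℕ) : ∀ P : ℝ[X],
    (X - C z) ^ (N + 1) ∣ P.map (algebraMap ℝ ℂ) →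
    ∃ Q : ℝ[X], (X - C z) ∣ Q.map (algebraMap ℝ ℂ) ∧
      ∀ k, Q.coeff k = (∏ j ∈ Finset.range N, (c j - k)) * P.coeff k := by
  induction N with
  | zero =>
    intro P hP
    exact ⟨P, by simpa using hP, by simp⟩
  | succ N ih =>
    intro P hP
    obtain ⟨Q, hQ1, hQ2⟩ := ih (Tc (c N) P) (Tc_dvd hP)
    refine ⟨Q, hQ1, fun k => ?_⟩
    rw [hQ2, coeff_Tc, Finset.prod_range_succ]; ring

/-- sign pattern of sine against a polynomial with zeros at its zeros -/
lemma sin_prod_nonneg {N : ℕ} {x : ℝ} (hx0 : 0 ≤ x) (hx : x ≤ (N + 1) * Real.pi) :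
    0 ≤ (∏ j ∈ Finset.range N, (((j : ℝ) + 1) * Real.pi - x)) * Real.sin x := by
  induction N with
  | zero =>
    simp only [Finset.range_zero, Finset.prod_empty, one_mul]
    exact Real.sin_nonneg_of_nonneg_of_le_pi hx0 (by simpa using hx)
  | succ N ih =>
    rw [Finset.prod_range_succ]
    rcases le_or_gt x (((N : ℝ) + 1) * Real.pi) with h | h
    · have h1 := ih h
      have h2 : 0 ≤ ((N : ℝ) + 1) * Real.pi - x := by linarith
      calc (0 : ℝ) ≤ ((∏ j ∈ Finset.range N, (((j : ℝ) + 1) * Real.pi - x)) * Real.sin x) *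
            (((N : ℝ) + 1) * Real.pi - x) := mul_nonneg h1 h2
        _ = _ := by ring
    · -- all factors negative, sine has sign (-1)^(N+1)
      have h1 : ∏ j ∈ Finset.range N, (((j : ℝ) + 1) * Real.pi - x) * (((N : ℝ) + 1) * Real.pi - x) =
          ∏ j ∈ Finset.range N, (((j : ℝ) + 1) * Real.pi - x) * (((N : ℝ) + 1) * Real.pi - x) := rfl
      rw [← Finset.prod_range_succ (fun j => (((j : ℕ) : ℝ) + 1) * Real.pi - x) N]
      have h2 : ∏ j ∈ Finset.range (N + 1), (((j : ℝ) + 1) * Real.pi - x) =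
          (-1) ^ (N + 1) * ∏ j ∈ Finset.range (N + 1), (x - ((j : ℝ) + 1) * Real.pi) := by
        have : (-1 : ℝ) ^ (N + 1) = ∏ _j ∈ Finset.range (N + 1), (-1 : ℝ) := by simp
        rw [this, ← Finset.prod_mul_distrib]
        apply Finset.prod_congr rfl; intro j _; ring
      have h3 : Real.sin x = (-1) ^ (N + 1) * Real.sin (x - (N + 1 : ℕ) * Real.pi) := by
        rw [Real.sin_sub_nat_mul_pi, ← mul_assoc, ← mul_pow]; simp
      have h4 : 0 ≤ Real.sin (x - (N + 1 : ℕ) * Real.pi) := by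
        apply Real.sin_nonneg_of_nonneg_of_le_pi
        · push_cast; linarith
        · push_cast at hx ⊢; linarith
      have h5 : 0 ≤ ∏ j ∈ Finset.range (N + 1), (x - ((j : ℝ) + 1) * Real.pi) := by
        apply Finset.prod_nonneg
        intro j hj
        rw [Finset.mem_range] at hj
        have h6 : ((j : ℝ) + 1) ≤ (N : ℝ) + 1 := by
          have : (j : ℝ) ≤ N := by exact_mod_cast (by omega : j ≤ N)
          linarith
        have := mul_le_mul_of_nonneg_right h6 Real.pi_pos.le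
        linarith
      rw [h2, h3]
      have h7 : ((-1 : ℝ) ^ (N + 1)) * ((-1) ^ (N + 1)) = 1 := by rw [← mul_pow]; simp
      calc (0 : ℝ) ≤ (∏ j ∈ Finset.range (N + 1), (x - ((j : ℝ) + 1) * Real.pi)) *
            Real.sin (x - (N + 1 : ℕ) * Real.pi) := mul_nonneg h5 h4
        _ = (((-1 : ℝ) ^ (N + 1)) * ((-1) ^ (N + 1))) * ((∏ j ∈ Finset.range (N + 1),
            (x - ((j : ℝ) + 1) * Real.pi)) * Real.sin (x - (N + 1 : ℕ) * Real.pi)) := by
            rw [h7, one_mul]
        _ = _ := by ring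

/-- upper estimate for the multiplicity -/
theorem PV_upper {d N : ℕ} {t : ℝ} (ht0 : 0 < t) (htpi : t < Real.pi) (hd : 1 ≤ d)
    (h : PV d (Complex.exp (t * Complex.I)) (N + 1)) : ((N : ℝ) + 1) * Real.pi < d * t := by
  by_contra hcon
  push Not at hcon
  obtain ⟨P, ⟨hdeg, hP⟩, hdvd⟩ := h
  obtain ⟨Q, hQ1, hQ2⟩ := prod_vanish (fun j => ((j : ℝ) + 1) * Real.pi / t) N P hdvd
  rw [dvd_iff_isRoot, IsRoot.def, eval_map, eval₂_eq_sum_range' (algebraMap ℝ ℂ) (n := d + 1)] at hQ1
  · have him := congrArg Complex.im hQ1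
    rw [Complex.im_sum, Complex.zero_im] at him
    have hterm : ∀ k ∈ Finset.range (d + 1),
        (algebraMap ℝ ℂ (Q.coeff k) * Complex.exp (t * Complex.I) ^ k).im =
          Q.coeff k * Real.sin (k * t) := by
      intro k _
      rw [← Complex.exp_nat_mul]
      have h1 : (k : ℂ) * (t * Complex.I) = ((k * t : ℝ) : ℂ) * Complex.I := by push_cast; ring
      rw [h1]
      have h2 : (algebraMap ℝ ℂ) (Q.coeff k) = ((Q.coeff k : ℝ) : ℂ) := rfl
      rw [h2, Complex.im_ofReal_mul, Complex.exp_ofReal_mul_I_im]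
    rw [Finset.sum_congr rfl hterm] at him
    have htn : (0 : ℝ) < (t⁻¹) ^ N := by positivity
    have hval : ∀ k : ℕ, Q.coeff k * Real.sin (k * t) = (t⁻¹) ^ N * P.coeff k *
        ((∏ j ∈ Finset.range N, (((j : ℝ) + 1) * Real.pi - k * t)) * Real.sin (k * t)) := by
      intro k
      rw [hQ2]
      have h3 : (∏ j ∈ Finset.range N, (((j : ℝ) + 1) * Real.pi / t - k)) =
          (t⁻¹) ^ N * ∏ j ∈ Finset.range N, (((j : ℝ) + 1) * Real.pi - k * t) := by
        have h4 : (t⁻¹) ^ N = ∏ _j ∈ Finset.range N, t⁻¹ := by simp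
        rw [h4, ← Finset.prod_mul_distrib]
        apply Finset.prod_congr rfl; intro j _
        field_simp
      rw [h3]; ring
    have hnn : ∀ k ∈ Finset.range (d + 1), 0 ≤ Q.coeff k * Real.sin (k * t) := by
      intro k hk
      rw [Finset.mem_range] at hk
      rw [hval]
      apply mul_nonneg (mul_nonneg htn.le (hP k (by omega)).le)
      apply sin_prod_nonneg (by positivity)
      have : (k : ℝ) ≤ d := by exact_mod_cast (by omega : k ≤ d)
      nlinarith
    have hpos : 0 < Q.coeff 1 * Real.sin ((1 : ℕ) * t) := by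
      rw [hval]
      apply mul_pos (mul_pos htn (hP 1 hd))
      apply mul_pos
      · apply Finset.prod_pos
        intro j _
        have h5 : (0 : ℝ) ≤ (j : ℝ) := Nat.cast_nonneg _
        have h6 := Real.pi_pos
        push_cast
        nlinarith
      · push_cast
        rw [one_mul]
        exact Real.sin_pos_of_pos_of_lt_pi ht0 htpi
    have := Finset.sum_pos' hnn ⟨1, by rw [Finset.mem_range]; omega, hpos⟩
    linarith
  · -- degree of Q
    by_cases hQ0 : Q = 0
    · subst hQ0; simp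
    · by_contra hc
      push Not at hc
      have h1 : Q.coeff Q.natDegree ≠ 0 := by
        rw [coeff_natDegree, Ne, leadingCoeff_eq_zero]; exact hQ0
      rw [hQ2, coeff_eq_zero_of_natDegree_lt (p := P) (by omega), mul_zero] at h1
      exact h1 rfl

/-- the conjugate zeros -/
theorem PV_half {d N : ℕ} {t : ℝ} (ht0 : 0 < t) (htpi : t < Real.pi)
    (h : PV d (Complex.exp (t * Complex.I)) N) : 2 * N ≤ d := by
  obtain ⟨P, ⟨hdeg, hP⟩, hdvd⟩ := h
  set z := Complex.exp (t * Complex.I) with hz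
  have hdvd2 : (X - C (conj z)) ^ N ∣ P.map (algebraMap ℝ ℂ) := by
    have h1 := Polynomial.map_dvd (starRingEnd ℂ) hdvd
    rw [Polynomial.map_map] at h1
    have h2 : (starRingEnd ℂ).comp (algebraMap ℝ ℂ) = algebraMap ℝ ℂ := by
      ext x; simp
    rw [h2] at h1
    simpa using h1
  have hne : z ≠ conj z := by
    intro h1
    have h2 := congrArg Complex.im h1
    rw [Complex.conj_im, hz, Complex.exp_ofReal_mul_I_im] at h2
    have := Real.sin_pos_of_pos_of_lt_pi ht0 htpi
    linarith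
  have hcop : IsCoprime ((X - C z) ^ N) ((X - C (conj z)) ^ N) :=
    (Polynomial.isCoprime_X_sub_C_of_isUnit_sub (sub_ne_zero.mpr hne).isUnit).pow
  have hmul := hcop.mul_dvd hdvd hdvd2
  have hP0 : P.map (algebraMap ℝ ℂ) ≠ 0 := by
    rw [Ne, Polynomial.map_eq_zero]
    rintro rfl
    simpa using hP 0 (Nat.zero_le _)
  have h3 := Polynomial.natDegree_le_of_dvd hmul hP0
  rw [natDegree_map, hdeg, natDegree_mul (pow_ne_zero _ (X_sub_C_ne_zero _))
    (pow_ne_zero _ (X_sub_C_ne_zero _)), natDegree_pow, natDegree_pow, natDegree_X_sub_C,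
    natDegree_X_sub_C] at h3
  omega

/-- a positive polynomial of minimal degree vanishing at `exp (i t)` -/
theorem PV_base {n : ℕ} (hn : 1 ≤ n) {t : ℝ} (ht0 : 0 < t) (htpi : t < Real.pi)
    (h1 : n * t ≤ Real.pi) (h2 : Real.pi < (n + 1) * t) :
    PV (n + 1) (Complex.exp (t * Complex.I)) 1 := by
  set S : ℝ := ∑ i ∈ Finset.range n, Real.sin (((i : ℝ) + 1) * t) with hS
  have hsn : ∀ i ∈ Finset.range n, 0 ≤ Real.sin (((i : ℝ) + 1) * t) := by
    intro i hi
    rw [Finset.mem_range] at hi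
    apply Real.sin_nonneg_of_nonneg_of_le_pi (by positivity)
    have : (i : ℝ) + 1 ≤ n := by exact_mod_cast hi
    have := mul_le_mul_of_nonneg_right this ht0.le
    linarith
  have hSpos : 0 < S := by
    apply Finset.sum_pos' hsn
    refine ⟨0, by rw [Finset.mem_range]; omega, ?_⟩
    simp only [Nat.cast_zero, zero_add, one_mul]
    exact Real.sin_pos_of_pos_of_lt_pi ht0 htpi
  have hbneg : Real.sin (((n : ℝ) + 1) * t) < 0 := by
    have h3 : Real.sin (((n : ℝ) + 1) * t) = - Real.sin (((n : ℝ) + 1) * t - Real.pi) := by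
      rw [Real.sin_sub_pi]; ring
    rw [h3, neg_lt_zero]
    apply Real.sin_pos_of_pos_of_lt_pi
    · linarith
    · linarith
  set Q : ℝ[X] := C S + C (-Real.sin (((n : ℝ) + 1) * t)) * (∑ i ∈ Finset.range n, X ^ (i + 1)) +
    C S * X ^ (n + 1) with hQ
  have hsumc : ∀ k, (∑ i ∈ Finset.range n, (X : ℝ[X]) ^ (i + 1)).coeff k =
      if 1 ≤ k ∧ k ≤ n then 1 else 0 := by
    intro k
    rw [finsetSum_coeff]
    simp only [coeff_X_pow]
    split_ifs with hk
    · rw [Finset.sum_eq_single (k - 1)]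
      · rw [if_pos (by omega)]
      · intro i _ hi; rw [if_neg (by omega)]
      · intro hk2; rw [Finset.mem_range] at hk2; omega
    · apply Finset.sum_eq_zero
      intro i hi
      rw [Finset.mem_range] at hi
      rw [if_neg (by omega)]
  have hcoeff : ∀ k, Q.coeff k = (if k = 0 then S else 0) +
      (-Real.sin (((n : ℝ) + 1) * t)) * (if 1 ≤ k ∧ k ≤ n then 1 else 0) +
      S * (if k = n + 1 then 1 else 0) := by
    intro k
    rw [hQ, coeff_add, coeff_add, coeff_C, coeff_C_mul, coeff_C_mul, hsumc, coeff_X_pow]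
  refine ⟨Q, ⟨?_, ?_⟩, ?_⟩
  · apply natDegree_eq_of_le_of_coeff_ne_zero
    · rw [natDegree_le_iff_coeff_eq_zero]
      intro k hk
      rw [hcoeff, if_neg (by omega), if_neg (by omega), if_neg (by omega)]; ring
    · rw [hcoeff, if_neg (by omega), if_neg (by omega), if_pos rfl]
      simp; exact hSpos.ne'
  · intro k hk
    rw [hcoeff]
    rcases Nat.eq_zero_or_pos k with h0 | h0
    · subst h0
      rw [if_pos rfl, if_neg (by omega), if_neg (by omega)]
      simpa using hSpos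
    · rcases Nat.lt_or_ge n k with h3 | h3
      · rw [if_neg (by omega), if_neg (by omega), if_pos (by omega)]
        simpa using hSpos
      · rw [if_neg (by omega), if_pos ⟨h0, h3⟩, if_neg (by omega)]
        simpa using hbneg
  · rw [pow_one, dvd_iff_isRoot, IsRoot.def, eval_map, hQ]
    simp only [eval₂_add, eval₂_mul, eval₂_C, eval₂_finsetSum, eval₂_pow, eval₂_X]
    have hz : ∀ k : ℕ, Complex.exp (t * Complex.I) ^ k =
        (Real.cos (k * t) : ℂ) + (Real.sin (k * t) : ℂ) * Complex.I := by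
      intro k
      rw [← Complex.exp_nat_mul]
      have h4 : (k : ℂ) * (t * Complex.I) = ((k * t : ℝ) : ℂ) * Complex.I := by push_cast; ring
      rw [h4, Complex.exp_mul_I, Complex.ofReal_cos, Complex.ofReal_sin]
    have hrefl : S = ∑ i ∈ Finset.range n, Real.sin (((n : ℝ) - i) * t) := by
      rw [hS, ← Finset.sum_range_reflect]
      apply Finset.sum_congr rfl
      intro i hi
      rw [Finset.mem_range] at hi
      have h5 : ((n - 1 - i : ℕ) : ℝ) + 1 = (n : ℝ) - i := by
        have : n - 1 - i + 1 = n - i := by omega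
        have h6 : ((n - 1 - i + 1 : ℕ) : ℝ) = ((n - i : ℕ) : ℝ) := by rw [this]
        rw [Nat.cast_sub hi.le] at h6
        push_cast at h6
        exact h6
      rw [h5]
    have hterm : ∀ i ∈ Finset.range n, ((Real.sin (((n : ℝ) - i) * t) : ℝ) : ℂ) +
        ((-Real.sin (((n : ℝ) + 1) * t) : ℝ) : ℂ) * Complex.exp (t * Complex.I) ^ (i + 1) +
        ((Real.sin (((i : ℝ) + 1) * t) : ℝ) : ℂ) * Complex.exp (t * Complex.I) ^ (n + 1) = 0 := by
      intro i _
      rw [hz, hz]
      have h6 : ((n : ℝ) - i) * t = ((n + 1 : ℕ) : ℝ) * t - ((i + 1 : ℕ) : ℝ) * t := by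
        push_cast; ring
      rw [h6, Real.sin_sub]
      push_cast
      ring
    have hsum := Finset.sum_eq_zero hterm
    rw [Finset.sum_add_distrib, Finset.sum_add_distrib, ← Finset.mul_sum, ← Finset.sum_mul,
      ← Complex.ofReal_sum, ← Complex.ofReal_sum, ← hrefl, ← hS] at hsum
    exact hsum

theorem PV_lower {d b : ℕ} {z : ℂ} (h : PV b z 1) : PV d z (d / b) := by
  obtain ⟨Q, hQ, hdvd⟩ := h
  rw [pow_one] at hdvd
  refine ⟨Q ^ (d / b) * (X + 1) ^ (d % b), ?_, ?_⟩
  · have h1 := (hQ.pow (d / b)).mul (PosP_X_add_one_pow (d % b))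
    rwa [Nat.div_add_mod'] at h1
  · rw [Polynomial.map_mul, Polynomial.map_pow]
    exact (pow_dvd_pow_of_dvd hdvd _).mul_right _

lemma ang_nonneg (r : ℝ) : 0 ≤ ang r := Real.arccos_nonneg _

lemma ang_le (r : ℝ) : ang r ≤ Real.pi := Real.arccos_le_pi _

theorem value_zero {d : ℕ} {r : ℝ} (h : ang r = 0) : vanishingOrder d r = 0 := by
  have h1 := (vanishingOrder_spec d r).2.1
  rw [PV_iff, h] at h1
  simp only [Complex.ofReal_zero, zero_mul, Complex.exp_zero] at h1
  exact PV_one h1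

theorem value_pi {d : ℕ} {r : ℝ} (h : ang r = Real.pi) : vanishingOrder d r = d - 1 := by
  apply le_antisymm (vanishingOrder_spec d r).1
  apply le_vanishingOrder le_rfl
  rw [PV_iff, h, Complex.exp_pi_mul_I]
  obtain ⟨P, hP, hdvd⟩ := PV_neg_one d
  exact ⟨P, hP, (pow_dvd_pow _ (Nat.sub_le d 1)).trans hdvd⟩

theorem value_bounds {d : ℕ} {r : ℝ} (hd : 1 ≤ d) (h0 : 0 < ang r) (h1 : ang r < Real.pi) :
    d / (⌊Real.pi / ang r⌋₊ + 1) ≤ vanishingOrder d r ∧ 2 * vanishingOrder d r ≤ d ∧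
      (0 < vanishingOrder d r → vanishingOrder d r * Real.pi < d * ang r) := by
  have hspec := (vanishingOrder_spec d r).2.1
  rw [PV_iff] at hspec
  refine ⟨?_, PV_half h0 h1 hspec, ?_⟩
  · set n : ℕ := ⌊Real.pi / ang r⌋₊ with hn
    have hn1 : 1 ≤ n := by
      rw [hn, Nat.one_le_floor_iff, le_div_iff₀ h0]; linarith
    have hle : (n : ℝ) * ang r ≤ Real.pi := by
      rw [← le_div_iff₀ h0]; exact Nat.floor_le (by positivity)
    have hlt : Real.pi < ((n : ℝ) + 1) * ang r := by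
      rw [← div_lt_iff₀ h0]; exact Nat.lt_floor_add_one _
    apply le_vanishingOrder
    · have h2 : d / (n + 1) ≤ d / 2 := Nat.div_le_div_left (by omega) (by norm_num)
      omega
    · rw [PV_iff]
      exact PV_lower (PV_base hn1 h0 h1 hle hlt)
  · intro hpos
    obtain ⟨N, hN⟩ : ∃ N, vanishingOrder d r = N + 1 := ⟨vanishingOrder d r - 1, by omega⟩
    rw [hN] at hspec ⊢
    have := PV_upper h0 h1 hd hspec
    push_cast
    exact this

theorem value_small {d : ℕ} {r : ℝ} (hd : 1 ≤ d) (h : d * ang r ≤ Real.pi) :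
    vanishingOrder d r = 0 := by
  rcases (ang_nonneg r).eq_or_lt with h0 | h0
  · exact value_zero h0.symm
  · rcases (ang_le r).eq_or_lt with h1 | h1
    · -- then `d = 1`
      have hd1 : d ≤ 1 := by
        by_contra hc
        have h2 : (2 : ℝ) ≤ d := by exact_mod_cast (by omega : 2 ≤ d)
        rw [h1] at h
        nlinarith [Real.pi_pos]
      have := (vanishingOrder_spec d r).1
      omega
    · by_contra hne
      have hpos : 0 < vanishingOrder d r := Nat.pos_of_ne_zero hne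
      have h2 := (value_bounds hd h0 h1).2.2 hpos
      have h3 : (1 : ℝ) ≤ vanishingOrder d r := by exact_mod_cast hpos
      nlinarith [Real.pi_pos]

theorem value_large {d : ℕ} {r : ℝ} (hd : 1 ≤ d) (h0 : Real.pi / 2 < ang r) (h1 : ang r < Real.pi) :
    vanishingOrder d r = d / 2 := by
  have hpos : 0 < ang r := by linarith [Real.pi_pos]
  obtain ⟨h2, h3, _⟩ := value_bounds hd hpos h1
  have h4 : ⌊Real.pi / ang r⌋₊ = 1 := by
    rw [Nat.floor_eq_iff (by positivity)]
    constructor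
    · rw [Nat.cast_one, le_div_iff₀ hpos]; linarith
    · rw [div_lt_iff₀ hpos]; push_cast; linarith
  rw [h4] at h2
  omega

lemma ang_even {r : ℝ} {k : ℕ} (h : r = 2 * k) : ang r = 0 := by
  unfold ang
  have : Real.cos (Real.pi * r) = 1 := by
    rw [h]
    have h1 : Real.pi * (2 * (k : ℝ)) = k * (2 * Real.pi) := by ring
    rw [h1, Real.cos_nat_mul_two_pi]
  rw [this, Real.arccos_one]

lemma ang_odd {r : ℝ} {k : ℕ} (h : r = 2 * k + 1) : ang r = Real.pi := by
  unfold ang
  have : Real.cos (Real.pi * r) = -1 := by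
    rw [h]
    have h1 : Real.pi * (2 * (k : ℝ) + 1) = k * (2 * Real.pi) + Real.pi := by ring
    rw [h1, Real.cos_nat_mul_two_pi_add_pi]
  rw [this, Real.arccos_neg_one]

end Pool.Agent.Helper935.OW
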